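import Pool.Agent.U98.TY.A8

set_option autoImplicit false

/-!
# Sets of residues
-/

namespace Pool.Agent.U98.TY

open Finset Filter

/-- the patterns of `l + 1` consecutive elements of `G` with residues in the sets `S j` -/
noncomputable def cS (G : ℕ → Prop) (q l : ℕ) (S : ℕ → Finset ℕ) (s T : ℕ → ℕ) (Z Y : ℕ) : ℕ :=
  Set.ncard {m : ℕ | Z < m ∧ m ≤ Z + Y ∧ G m ∧ (∀ j ≤ l, (nxt G)^[j] m % q ∈ S j) ∧
    ∀ j < l, s j < (nxt G)^[j + 1] m - (nxt G)^[j] m ∧ (nxt G)^[j + 1] m - (nxt G)^[j] m ≤ T j}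

/-- a function on `Fin (l + 1)` as a function on the natural numbers -/
def ext (l : ℕ) (b : Fin (l + 1) → ℕ) (j : ℕ) : ℕ := if h : j < l + 1 then b ⟨j, h⟩ else 0

open Classical in
lemma cS_eq (G : ℕ → Prop) (q l : ℕ) (S : ℕ → Finset ℕ) (s T : ℕ → ℕ) (Z Y : ℕ) :
    cS G q l S s T Z Y = ∑ b ∈ Fintype.piFinset (fun j : Fin (l + 1) => S j), cG G q l (ext l b) s T Z Y := by
  obtain ⟨X, hX⟩ : ∃ X : Finset ℕ, X = (Ioc Z (Z + Y)).filter (fun m => G m ∧
    (∀ j ≤ l, (nxt G)^[j] m % q ∈ S j) ∧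
    ∀ j < l, s j < (nxt G)^[j + 1] m - (nxt G)^[j] m ∧ (nxt G)^[j + 1] m - (nxt G)^[j] m ≤ T j) := ⟨_, rfl⟩
  have h1 : cS G q l S s T Z Y = X.card := by
    unfold cS
    rw [← Set.ncard_coe_finset]
    congr 1
    ext m
    rw [hX]
    simp only [Set.mem_ofPred_eq, coe_filter, mem_Ioc]
    tauto
  have h2 : ∀ b ∈ Fintype.piFinset (fun j : Fin (l + 1) => S j), cG G q l (ext l b) s T Z Y =
      (X.filter (fun m => (fun j : Fin (l + 1) => (nxt G)^[(j : ℕ)] m % q) = b)).card := by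
    intro b hb
    rw [Fintype.mem_piFinset] at hb
    unfold cG
    rw [← Set.ncard_coe_finset]
    congr 1
    ext m
    rw [hX]
    simp only [Set.mem_ofPred_eq, coe_filter, mem_filter, mem_Ioc]
    constructor
    · rintro ⟨a1, a2, a3, a4, a5⟩
      have hfun : (fun j : Fin (l + 1) => (nxt G)^[(j : ℕ)] m % q) = b := by
        funext j
        have := a4 j (by have := j.2; omega)
        rw [this]
        unfold ext
        rw [dif_pos j.2]
      refine ⟨⟨⟨a1, a2⟩, a3, ?_, a5⟩, hfun⟩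
      intro j hj
      have h3 := hb ⟨j, by omega⟩
      have h4 := congrFun hfun ⟨j, by omega⟩
      simp only at h4
      rw [h4]
      exact h3
    · rintro ⟨⟨⟨a1, a2⟩, a3, a4, a5⟩, hfun⟩
      refine ⟨a1, a2, a3, ?_, a5⟩
      intro j hj
      have h4 := congrFun hfun ⟨j, by omega⟩
      simp only at h4
      unfold ext
      rw [dif_pos (by omega), ← h4]
  rw [h1, Finset.sum_congr rfl h2]
  apply Finset.card_eq_sum_card_fiberwise
  intro m hm
  rw [Finset.mem_coe, hX, mem_filter] at hm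
  rw [Finset.mem_coe, Fintype.mem_piFinset]
  intro j
  exact hm.2.2.1 j (by have := j.2; omega)

/-- the law for sets of residues, from the law for single residues -/
theorem law_sets (G : ℕ → Prop) (q l : ℕ) (B : Finset ℕ) (S : ℕ → Finset ℕ) (hS : ∀ j ≤ l, S j ⊆ B) (s T : ℕ → ℕ)
    (Z Y : ℕ) (A g ε R : ℝ) (hR : R = B.card) (hR0 : 0 < R) (hA : 0 ≤ A) (hε : 0 ≤ ε)
    (h : ∀ b : ℕ → ℕ, (∀ j ≤ l, b j ∈ B) → |(cG G q l b s T Z Y : ℝ) - A / R ^ (l + 1) * g| ≤
      ε * (A / R ^ (l + 1))) :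
    |(cS G q l S s T Z Y : ℝ) - A * (∏ j ∈ range (l + 1), ((S j).card : ℝ) / R) * g| ≤ ε * A := by
  classical
  have hcard : ((Fintype.piFinset (fun j : Fin (l + 1) => S j)).card : ℝ) = ∏ j ∈ range (l + 1), ((S j).card : ℝ) := by
    rw [Fintype.card_piFinset, Nat.cast_prod, ← Fin.prod_univ_eq_prod_range (fun j => ((S j).card : ℝ))]
  have hprod : ∏ j ∈ range (l + 1), ((S j).card : ℝ) / R =
      (∏ j ∈ range (l + 1), ((S j).card : ℝ)) / R ^ (l + 1) := by
    rw [Finset.prod_div_distrib, Finset.prod_const, card_range]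
  have h1 : (cS G q l S s T Z Y : ℝ) - A * (∏ j ∈ range (l + 1), ((S j).card : ℝ) / R) * g =
      ∑ b ∈ Fintype.piFinset (fun j : Fin (l + 1) => S j),
        ((cG G q l (ext l b) s T Z Y : ℝ) - A / R ^ (l + 1) * g) := by
    rw [cS_eq, Nat.cast_sum, Finset.sum_sub_distrib, Finset.sum_const, nsmul_eq_mul, hcard, hprod]
    ring
  rw [h1]
  have h2 : ∀ b ∈ Fintype.piFinset (fun j : Fin (l + 1) => S j),
      |(cG G q l (ext l b) s T Z Y : ℝ) - A / R ^ (l + 1) * g| ≤ ε * (A / R ^ (l + 1)) := by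
    intro b hb
    apply h
    intro j hj
    rw [Fintype.mem_piFinset] at hb
    unfold ext
    rw [dif_pos (by omega)]
    exact hS j hj (hb ⟨j, by omega⟩)
  refine (Finset.abs_sum_le_sum_abs _ _).trans ((Finset.sum_le_card_nsmul _ _ _ h2).trans ?_)
  rw [nsmul_eq_mul, hcard]
  have h3 : ∏ j ∈ range (l + 1), ((S j).card : ℝ) ≤ R ^ (l + 1) := by
    calc ∏ j ∈ range (l + 1), ((S j).card : ℝ) ≤ ∏ _j ∈ range (l + 1), R := by
          apply Finset.prod_le_prod
          · intro j _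
            positivity
          · intro j hj
            rw [hR]
            exact_mod_cast card_le_card (hS j (by rw [mem_range] at hj; omega))
      _ = R ^ (l + 1) := by rw [Finset.prod_const, card_range]
  have h4 : 0 ≤ ε * (A / R ^ (l + 1)) := by positivity
  calc (∏ j ∈ range (l + 1), ((S j).card : ℝ)) * (ε * (A / R ^ (l + 1))) ≤ R ^ (l + 1) * (ε * (A / R ^ (l + 1))) :=
        mul_le_mul_of_nonneg_right h3 h4
    _ = ε * A := by field_simp

/-- the iterates are elements of `G` -/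
lemma iter_mem (G : ℕ → Prop) (l : ℕ) (s : ℕ → ℕ) (m : ℕ) (hm : G m)
    (h : ∀ j < l, s j < (nxt G)^[j + 1] m - (nxt G)^[j] m) : ∀ j ≤ l, G ((nxt G)^[j] m) := by
  intro j hj
  rcases Nat.eq_zero_or_pos j with h0 | h0
  · subst h0
    exact hm
  · obtain ⟨i, rfl⟩ : ∃ i, j = i + 1 := ⟨j - 1, by omega⟩
    have h1 := h i (by omega)
    rw [Function.iterate_succ_apply'] at h1 ⊢
    have h2 : {n | (nxt G)^[i] m < n ∧ G n}.Nonempty := by
      by_contra hcon
      rw [Set.not_nonempty_iff_eq_empty] at hcon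
      unfold nxt at h1
      unfold nxt at hcon
      rw [hcon, Nat.sInf_empty] at h1
      omega
    exact (Nat.sInf_mem h2).2

/-- the count in terms of properties `F j` of the elements -/
lemma cS_congr (G : ℕ → Prop) (q l : ℕ) (S : ℕ → Finset ℕ) (F : ℕ → ℕ → Prop) (s T : ℕ → ℕ) (Z Y : ℕ)
    (h : ∀ j ≤ l, ∀ m, G m → (F j m ↔ m % q ∈ S j)) :
    Set.ncard {m : ℕ | Z < m ∧ m ≤ Z + Y ∧ G m ∧ (∀ j ≤ l, F j ((nxt G)^[j] m)) ∧
      ∀ j < l, s j < (nxt G)^[j + 1] m - (nxt G)^[j] m ∧ (nxt G)^[j + 1] m - (nxt G)^[j] m ≤ T j} =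
      cS G q l S s T Z Y := by
  unfold cS
  congr 1
  ext m
  simp only [Set.mem_ofPred_eq]
  constructor
  · rintro ⟨a1, a2, a3, a4, a5⟩
    have h1 := iter_mem G l s m a3 (fun j hj => (a5 j hj).1)
    exact ⟨a1, a2, a3, fun j hj => (h j hj _ (h1 j hj)).1 (a4 j hj), a5⟩
  · rintro ⟨a1, a2, a3, a4, a5⟩
    have h1 := iter_mem G l s m a3 (fun j hj => (a5 j hj).1)
    exact ⟨a1, a2, a3, fun j hj => (h j hj _ (h1 j hj)).2 (a4 j hj), a5⟩

end Pool.Agent.U98.TY
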