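import Pool.Agent.U98.TY.A7

set_option autoImplicit false

/-!
# The joint law of the residues (types) and the gaps for families of patterns
-/

namespace Pool.Agent.U98.TY

open Finset Filter Pool.Agent.H373R2.T7 Pool.Agent.W123.RP Pool.Agent.W123.RU Pool.Agent.TH464.PO
open Pool.Agent.R463.PP (Pat GB sq gp Ev nx)

/-- the next element of `G` -/
noncomputable def nxt (G : ℕ → Prop) (m : ℕ) : ℕ := sInf {n | m < n ∧ G n}

/-- the patterns of `l + 1` consecutive elements of `G` -/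
noncomputable def cG (G : ℕ → Prop) (q l : ℕ) (b s T : ℕ → ℕ) (Z Y : ℕ) : ℕ :=
  Set.ncard {m : ℕ | Z < m ∧ m ≤ Z + Y ∧ G m ∧ (∀ j ≤ l, (nxt G)^[j] m % q = b j) ∧
    ∀ j < l, s j < (nxt G)^[j + 1] m - (nxt G)^[j] m ∧ (nxt G)^[j + 1] m - (nxt G)^[j] m ≤ T j}

open Classical in
/-- the possible residues -/
noncomputable def rs (q : ℕ) (D : ℕ → Finset ℕ) : Finset ℕ :=
  (range q).filter (fun b : ℕ => ∀ p : ℕ, p.Prime → p ∣ q → ∀ h ∈ D b, ¬ p ∣ b + h)

lemma rs_sub (q : ℕ) (D : ℕ → Finset ℕ) : rs q D ⊆ range q := by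
  classical
  unfold rs
  exact filter_subset _ _

variable {k M q : ℕ} {D : ℕ → Finset ℕ}

/-- the elements of the sifted set of the family -/
lemma gb_fam (hq : 1 ≤ q) (y : ℕ) (hqy : q ≤ y) (m : ℕ) :
    GB (GT (QD q D) q y) q (rs q D) m ↔ ∀ h ∈ D (m % q), ∀ p : ℕ, p.Prime → p ≤ y → ¬ p ∣ m + h := by
  classical
  have hmod : ∀ p : ℕ, p ∣ q → ∀ h, p ∣ m % q + h ↔ p ∣ m + h := by
    intro p hp h
    rw [dvd_mod_iff p m h, dvd_mod_iff p (m % q) h, Nat.mod_mod_of_dvd m hp]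
  unfold GB rs GT Sf QD
  rw [mem_filter, mem_range]
  constructor
  · rintro ⟨⟨-, h1⟩, h2⟩ h hh p hp hpy
    by_cases hpq : p ∣ q
    · rw [← hmod p hpq h]
      exact h1 p hp hpq h hh
    · intro hd
      exact h2 p (mem_pz.2 ⟨hpy, hp⟩) ⟨hpq, h, hh, hd⟩
  · intro h1
    refine ⟨⟨Nat.mod_lt _ hq, ?_⟩, ?_⟩
    · intro p hp hpq h hh
      rw [hmod p hpq h]
      exact h1 h hh p hp ((Nat.le_of_dvd hq hpq).trans hqy)
    · rintro p hp ⟨_, h, hh, hd⟩
      exact h1 h hh p (mem_pz.1 hp).2 (mem_pz.1 hp).1 hd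

lemma cG_eq (g : ℕ → Prop) (q l : ℕ) (B : Finset ℕ) (b s T : ℕ → ℕ) (Z Y : ℕ) :
    cG (GB g q B) q l b s T Z Y = cntG g q l B (b 0) (fun j => b (j + 1)) s T Z Y := by
  classical
  have hnx : nx (GB g q B) = nxt (GB g q B) := rfl
  unfold cG cntG
  rw [← Set.ncard_coe_finset]
  congr 1
  ext m
  simp only [Set.mem_ofPred_eq, coe_filter, mem_Ioc, Pat, Ev, Pool.Agent.R463.PP.sq, hnx]
  constructor
  · rintro ⟨h1, h2, h3, h4, h5⟩
    refine ⟨⟨h1, h2⟩, h3, ?_, ?_⟩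
    · have := h4 0 (Nat.zero_le _)
      simpa using this
    · intro j hj
      exact ⟨h4 (j + 1) hj, h5 j hj⟩
  · rintro ⟨⟨h1, h2⟩, h3, h4, h5⟩
    refine ⟨h1, h2, h3, ?_, fun j hj => (h5 j hj).2⟩
    intro j hj
    rcases Nat.eq_zero_or_pos j with h | h
    · subst h
      simpa using h4
    · obtain ⟨i, rfl⟩ : ∃ i, j = i + 1 := ⟨j - 1, by omega⟩
      exact (h5 i (by omega)).1

lemma Vq_fam (hD : Fam k M q D) (y : ℕ) : Vq (QD q D 0) y =
    ∏ p ∈ (Icc 1 y).filter (fun p => p.Prime ∧ ¬ p ∣ q), (1 - (k : ℝ) / p) := by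
  classical
  unfold Vq
  symm
  have h1 : ∏ p ∈ (Icc 1 y).filter (fun p => p.Prime ∧ ¬ p ∣ q), (1 - (k : ℝ) / p) =
      ∏ p ∈ (Icc 1 y).filter (fun p => p.Prime ∧ ¬ p ∣ q), (1 - (nuB (QD q D 0) p : ℝ) / p) := by
    apply prod_congr rfl
    intro p hp
    rw [mem_filter, mem_Icc] at hp
    rw [nuB_QD hD 0 p hp.2.1 hp.2.2]
  rw [h1]
  apply prod_subset
  · intro p hp
    rw [mem_filter, mem_Icc] at hp
    exact mem_pz.2 ⟨hp.1.2, hp.2.1⟩
  · intro p hp hnot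
    obtain ⟨h2, h3⟩ := mem_pz.1 hp
    have h4 : p ∣ q := by
      by_contra hcon
      exact hnot (mem_filter.2 ⟨mem_Icc.2 ⟨h3.one_lt.le, h2⟩, h3, hcon⟩)
    rw [nuB_QD_dvd q D 0 p h4, Nat.cast_zero, zero_div, sub_zero]

/-- **The joint law for families of patterns.** -/
theorem law_fam (l : ℕ) (hk : 1 ≤ k) (hq : 1 ≤ q) (hD : Fam k M q D) (ε : ℝ) (hε : 0 < ε) :
    ∃ K y1 : ℕ, ∀ y : ℕ, y1 ≤ y → ∀ Z Y : ℕ, y ^ K ≤ Y → ∀ b s T : ℕ → ℕ, (∀ j ≤ l, b j ∈ rs q D) →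
      (∀ j < l, s j ≤ T j) → ∀ R d : ℝ, R = (rs q D).card →
      d = R / q * ∏ p ∈ (Icc 1 y).filter (fun p => p.Prime ∧ ¬ p ∣ q), (1 - (k : ℝ) / p) →
      |(cG (fun m => ∀ h ∈ D (m % q), ∀ p : ℕ, p.Prime → p ≤ y → ¬ p ∣ m + h) q l b s T Z Y : ℝ) -
        d * Y / R ^ (l + 1) * ∏ j ∈ range l, (Real.exp (-(d * s j)) - Real.exp (-(d * T j)))| ≤
        ε * (d * Y / R ^ (l + 1)) := by
  by_cases hR0 : (rs q D).card = 0
  · refine ⟨0, 0, ?_⟩
    intro y _ Z Y _ b s T hb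
    exfalso
    have := hb 0 (Nat.zero_le _)
    rw [card_eq_zero] at hR0
    rw [hR0] at this
    simp at this
  have hR1 : 1 ≤ (rs q D).card := Nat.one_le_iff_ne_zero.2 hR0
  obtain ⟨R', hR'⟩ : ∃ R' : ℝ, R' = (rs q D).card := ⟨_, rfl⟩
  have hR'1 : 1 ≤ R' := by
    rw [hR']
    exact_mod_cast hR1
  obtain ⟨P, hP⟩ := runsT (M + 1) M q l (by omega) hq (rs q D) (rs_sub q D) hR1 (ε / R' ^ l) (by positivity)
  obtain ⟨K, y1, hok⟩ := ok_fam hk hq hD P
  refine ⟨K, max y1 q, ?_⟩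
  intro y hy Z Y hY b s T hb hsT R d hR hd
  have hRR : R = R' := by rw [hR, hR']
  have hqy : q ≤ y := (le_max_right _ _).trans hy
  have hmain := hP (QD q D) (UD q M) (Icc 1 M) Y y (hok y ((le_max_left _ _).trans hy) Y hY) Z (b 0)
    (hb 0 (Nat.zero_le _)) (fun j => b (j + 1)) s T (fun j hj => hb (j + 1) hj) hsT
  rw [← cG_eq] at hmain
  have hG : GB (GT (QD q D) q y) q (rs q D) =
      fun m => ∀ h ∈ D (m % q), ∀ p : ℕ, p.Prime → p ≤ y → ¬ p ∣ m + h := by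
    funext m
    exact propext (gb_fam hq y hqy m)
  rw [hG, Vq_fam hD] at hmain
  obtain ⟨V, hV⟩ : ∃ V, V = ∏ p ∈ (Icc 1 y).filter (fun p => p.Prime ∧ ¬ p ∣ q), (1 - (k : ℝ) / p) :=
    ⟨_, rfl⟩
  rw [← hV] at hmain hd
  unfold gp at hmain
  rw [← hR', ← hRR] at hmain
  rw [← hRR] at hR'1
  have hq0 : (0 : ℝ) < q := by exact_mod_cast hq
  have hR0' : 0 < R := by linarith
  have hd' : d = R * V / q := by
    rw [hd]
    ring
  rw [hd']
  have e1 : R * V / q * Y / R ^ (l + 1) = Y * V / q / R ^ l := by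
    rw [pow_succ]
    field_simp
  rw [e1]
  have e2 : Y * V / q / R ^ l * ∏ j ∈ range l, (Real.exp (-(R * V / q * s j)) - Real.exp (-(R * V / q * T j))) =
      Y * V / q * ((∏ j ∈ range l, (Real.exp (-(R * V / q * s j)) - Real.exp (-(R * V / q * T j)))) / R ^ l) := by
    ring
  rw [e2]
  refine hmain.trans (le_of_eq ?_)
  ring

/-- few prime factors -/
lemma few (z s N : ℕ) (hN : 0 < N) (hNz : N ≤ z ^ s) (h : ∀ p : ℕ, p.Prime → p ≤ z → ¬ p ∣ N) :
    N.primeFactorsList.length ≤ s := by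
  by_contra hcon
  rw [not_le] at hcon
  have h1 : ∀ q ∈ N.primeFactorsList, z + 1 ≤ q := by
    intro q hq
    by_contra h2
    exact h q (Nat.prime_of_mem_primeFactorsList hq) (by omega) (Nat.dvd_of_mem_primeFactorsList hq)
  have h2 : (z + 1) ^ N.primeFactorsList.length ≤ N.primeFactorsList.prod := List.pow_card_le_prod _ _ h1
  rw [Nat.prod_primeFactorsList hN.ne'] at h2
  have h3 : z ^ s < (z + 1) ^ N.primeFactorsList.length := by
    calc z ^ s ≤ (z + 1) ^ s := Nat.pow_le_pow_left (by omega) s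
      _ < (z + 1) ^ N.primeFactorsList.length := Nat.pow_lt_pow_right (by
          rcases Nat.eq_zero_or_pos z with h4 | h4
          · exfalso
            subst h4
            rcases Nat.eq_zero_or_pos s with h5 | h5
            · subst h5
              have : N = 1 := by simp at hNz; omega
              rw [this] at hcon
              simp at hcon
            · rw [Nat.zero_pow h5] at hNz
              omega
          · omega) hcon
  omega

/-- prime numbers are rough -/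
lemma prime_rough (w n : ℕ) (hwn : w < n) (hn : n.Prime) (p : ℕ) (hp : p.Prime) (hpw : p ≤ w) : ¬ p ∣ n := by
  intro hd
  have := (Nat.prime_dvd_prime_iff_eq hp hn).1 hd
  omega

end Pool.Agent.U98.TY
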