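import Pool.Agent.R463.PP8

set_option autoImplicit false

/-!
# Typed systems of sieve conditions: basic facts

The condition at the shift `h` is `Q (τ h)`, so that the sifted set is described by different systems in different
residue classes. `U` is a system which contains all the `Q i`; its collisions bound the collisions between the types.
-/

namespace Pool.Agent.U98.TY

open Finset Filter Pool.Agent.H373R2.T7 Pool.Agent.W123.RP Pool.Agent.W123.RU Pool.Agent.TH464.PO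

/-- a typed system with equal local densities -/
structure TS (Q : ℕ → ℕ → ℕ → Prop) (U : ℕ → ℕ → Prop) (c : ℕ) : Prop where
  per : ∀ i, PerB (Q i) c
  perU : PerB U c
  sub : ∀ i p m, Q i p m → U p m
  same : ∀ i p, p.Prime → nuB (Q i) p = nuB (Q 0) p

/-- the typed condition at the points of `H` -/
def TH (Q : ℕ → ℕ → ℕ → Prop) (τ : ℕ → ℕ) (H : Finset ℕ) (p m : ℕ) : Prop := ∃ h ∈ H, Q (τ h) p (m + h)

variable {Q : ℕ → ℕ → ℕ → Prop} {U : ℕ → ℕ → Prop} {c : ℕ}

lemma sf_TH (Q : ℕ → ℕ → ℕ → Prop) (τ : ℕ → ℕ) (H : Finset ℕ) (y m : ℕ) :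
    Sf (TH Q τ H) y m ↔ ∀ h ∈ H, Sf (Q (τ h)) y (m + h) := by
  unfold Sf TH
  constructor
  · intro h1 h hh p hp hq
    exact h1 p hp ⟨h, hh, hq⟩
  · rintro h1 p hp ⟨h, hh, hq⟩
    exact h1 h hh p hp hq

lemma TS.Vq_eq (hQ : TS Q U c) (i y : ℕ) : Vq (Q i) y = Vq (Q 0) y := by
  unfold Vq
  apply Finset.prod_congr rfl
  intro p hp
  rw [hQ.same i p (mem_pz.1 hp).2]

open Classical in
lemma nuB_TH_le (hQ : TS Q U c) (τ : ℕ → ℕ) (H : Finset ℕ) (p : ℕ) (hp : p.Prime) :
    nuB (TH Q τ H) p ≤ H.card * nuB (Q 0) p := by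
  have h1 : (range p).filter (fun r => TH Q τ H p r) ⊆
      H.biUnion (fun h => (range p).filter (fun r => Q (τ h) p (r + h))) := by
    intro r hr
    rw [mem_filter] at hr
    obtain ⟨hr1, h, hh, hq⟩ := hr
    rw [mem_biUnion]
    exact ⟨h, hh, mem_filter.2 ⟨hr1, hq⟩⟩
  have h2 := Finset.card_biUnion_le_card_mul H
    (fun h => (range p).filter (fun r => Q (τ h) p (r + h))) (nuB (Q 0) p) (by
      intro a _
      rw [← hQ.same (τ a) p hp]
      exact (nuB_shift (Q (τ a)) c (hQ.per (τ a)) a p).le)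
  unfold nuB at h2 ⊢
  refine le_trans ?_ h2
  convert card_le_card h1

lemma perB_TH (hQ : TS Q U c) (τ : ℕ → ℕ) (H : Finset ℕ) : PerB (TH Q τ H) (H.card * c) := by
  constructor
  · intro p n
    unfold TH
    apply exists_congr
    intro h
    apply and_congr_right
    intro _
    exact per_add (Q (τ h)) c (hQ.per (τ h)) p n (n % p) h h (Nat.mod_mod n p).symm rfl
  · intro p hp
    exact (nuB_TH_le hQ τ H p hp).trans (Nat.mul_le_mul_left _ ((hQ.per 0).few p hp))

open Classical in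
lemma nuB_TH_eq (hQ : TS Q U c) (τ : ℕ → ℕ) (H : Finset ℕ) (p : ℕ) (hp : p.Prime)
    (h : ¬ Cl U H p) : nuB (TH Q τ H) p = H.card * nuB (Q 0) p := by
  have h1 : (range p).filter (fun r => TH Q τ H p r) =
      H.biUnion (fun h => (range p).filter (fun r => Q (τ h) p (r + h))) := by
    ext r
    rw [mem_filter, mem_biUnion]
    unfold TH
    constructor
    · rintro ⟨hr1, h, hh, hq⟩
      exact ⟨h, hh, mem_filter.2 ⟨hr1, hq⟩⟩
    · rintro ⟨h, hh, hr⟩
      rw [mem_filter] at hr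
      exact ⟨hr.1, h, hh, hr.2⟩
  have hd : (H : Set ℕ).PairwiseDisjoint (fun h => (range p).filter (fun r => Q (τ h) p (r + h))) := by
    intro a ha b hb hab
    rw [Function.onFun, Finset.disjoint_left]
    intro r hr hr'
    rw [mem_filter] at hr hr'
    apply h
    rcases Nat.lt_or_gt_of_ne hab with h2 | h2
    · refine ⟨a, ha, b, hb, h2, r + a, hQ.sub _ _ _ hr.2, ?_⟩
      have : r + a + (b - a) = r + b := by omega
      rw [this]
      exact hQ.sub _ _ _ hr'.2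
    · refine ⟨b, hb, a, ha, h2, r + b, hQ.sub _ _ _ hr'.2, ?_⟩
      have : r + b + (a - b) = r + a := by omega
      rw [this]
      exact hQ.sub _ _ _ hr.2
  have h2 := Finset.card_biUnion hd
  have h3 : ∀ h ∈ H, ((range p).filter (fun r => Q (τ h) p (r + h))).card = nuB (Q 0) p := by
    intro a _
    rw [← hQ.same (τ a) p hp]
    exact nuB_shift (Q (τ a)) c (hQ.per (τ a)) a p
  rw [Finset.sum_congr rfl h3, Finset.sum_const, smul_eq_mul, ← h1] at h2
  rw [← h2]
  unfold nuB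
  congr

open Classical in
/-- upper bound for one factor -/
lemma factor_upT (hQ : TS Q U c) (τ : ℕ → ℕ) (H : Finset ℕ) (p : ℕ) (hp : p.Prime)
    (hbig : 2 * (H.card * c) ≤ p) : 1 - (nuB (TH Q τ H) p : ℝ) / p ≤
      (1 - (nuB (Q 0) p : ℝ) / p) ^ H.card *
        (if Cl U H p then 1 + ((2 * (H.card * c) : ℕ) : ℝ) / p else 1) := by
  have hp0 : (0 : ℝ) < p := by exact_mod_cast hp.pos
  have hfew := (hQ.per 0).few p hp
  obtain ⟨k, hk⟩ : ∃ k, k = H.card := ⟨_, rfl⟩
  rw [← hk] at hbig ⊢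
  obtain ⟨u, hu⟩ : ∃ u : ℝ, u = (nuB (Q 0) p : ℝ) / p := ⟨_, rfl⟩
  rw [← hu]
  have hu0 : 0 ≤ u := by rw [hu]; positivity
  have hu1 : u ≤ 1 := by
    rw [hu, div_le_one hp0]
    exact_mod_cast nuB_le (Q 0) p
  have hc : (nuB (Q 0) p : ℝ) ≤ c := by exact_mod_cast hfew
  have hk0 : (0 : ℝ) ≤ k := Nat.cast_nonneg k
  have hku : (k : ℝ) * u ≤ ((k * c : ℕ) : ℝ) / p := by
    rw [hu, ← mul_div_assoc]
    apply div_le_div_of_nonneg_right _ hp0.le
    push_cast
    gcongr
  have hkc : ((k * c : ℕ) : ℝ) / p ≤ 1 / 2 := by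
    rw [div_le_div_iff₀ hp0 (by norm_num)]
    have : ((2 * (k * c) : ℕ) : ℝ) ≤ p := by exact_mod_cast hbig
    push_cast at this ⊢
    linarith
  have hber := one_add_mul_le_pow (a := -u) (by linarith) k
  have hber' : 1 - k * u ≤ (1 - u) ^ k := by
    calc 1 - k * u = 1 + k * -u := by ring
      _ ≤ (1 + -u) ^ k := hber
      _ = (1 - u) ^ k := by ring
  by_cases h : Cl U H p
  · rw [if_pos h]
    have h1 : 1 - (nuB (TH Q τ H) p : ℝ) / p ≤ 1 := by
      have : (0 : ℝ) ≤ (nuB (TH Q τ H) p : ℝ) / p := by positivity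
      linarith
    refine h1.trans ?_
    obtain ⟨t, ht⟩ : ∃ t : ℝ, t = k * u := ⟨_, rfl⟩
    have ht0 : 0 ≤ t := by rw [ht]; positivity
    have ht1 : t ≤ 1 / 2 := by rw [ht]; linarith
    have h2 : 1 + 2 * t ≤ 1 + ((2 * (k * c) : ℕ) : ℝ) / p := by
      have : ((2 * (k * c) : ℕ) : ℝ) / p = 2 * (((k * c : ℕ) : ℝ) / p) := by
        push_cast
        ring
      rw [this, ht]
      linarith
    calc (1 : ℝ) ≤ (1 - t) * (1 + 2 * t) := by nlinarith
      _ ≤ (1 - u) ^ k * (1 + ((2 * (k * c) : ℕ) : ℝ) / p) := by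
        apply mul_le_mul (by rw [ht]; exact hber') h2 (by linarith)
        exact pow_nonneg (by linarith) k
  · rw [if_neg h, mul_one, nuB_TH_eq hQ τ H p hp h, ← hk]
    refine le_trans (le_of_eq ?_) hber'
    rw [hu]
    push_cast
    ring

open Classical in
/-- lower bound for one factor -/
lemma factor_loT (hQ : TS Q U c) (τ : ℕ → ℕ) (H : Finset ℕ) (p : ℕ) (hp : p.Prime)
    (hbig : 2 * (H.card * c) ≤ p) :
      (1 - (nuB (Q 0) p : ℝ) / p) ^ H.card * (1 - ((H.card * c : ℕ) : ℝ) ^ 2 / (p : ℝ) ^ 2) ≤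
        1 - (nuB (TH Q τ H) p : ℝ) / p := by
  have hp0 : (0 : ℝ) < p := by exact_mod_cast hp.pos
  have hfew := (hQ.per 0).few p hp
  have hc : (nuB (Q 0) p : ℝ) ≤ c := by exact_mod_cast hfew
  have hk0 : (0 : ℝ) ≤ (H.card : ℝ) := Nat.cast_nonneg _
  have hku : (H.card : ℝ) * ((nuB (Q 0) p : ℝ) / p) ≤ ((H.card * c : ℕ) : ℝ) / p := by
    rw [← mul_div_assoc]
    apply div_le_div_of_nonneg_right _ hp0.le
    push_cast
    gcongr
  have hkc : ((H.card * c : ℕ) : ℝ) / p ≤ 1 := by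
    rw [div_le_one hp0]
    have : H.card * c ≤ p := by omega
    exact_mod_cast this
  apply factor_low
  · positivity
  · rw [div_le_one hp0]
    exact_mod_cast nuB_le (Q 0) p
  · rw [← mul_div_assoc]
    apply div_le_div_of_nonneg_right _ hp0.le
    exact_mod_cast nuB_TH_le hQ τ H p hp
  · exact hku.trans hkc
  · rw [← div_pow]
    apply pow_le_pow_left₀ (by positivity) hku

open Classical in
/-- upper bound for the tail -/
lemma tail_upT (hQ : TS Q U c) (τ : ℕ → ℕ) (H : Finset ℕ) (w y : ℕ)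
    (hbig : 2 * (H.card * c) ≤ w) :
    Vt (TH Q τ H) w y ≤ Vt (Q 0) w y ^ H.card *
      (1 + ∑ x ∈ prs H, (Fp U ((1 + 2 * (H.card * c)) ^ (H.card ^ 2) - 1) w y (x.2 - x.1) - 1)) := by
  obtain ⟨K, hK⟩ : ∃ K, K = 2 * (H.card * c) := ⟨_, rfl⟩
  have h1 : Vt (TH Q τ H) w y ≤ ∏ p ∈ (pz y).filter (fun p => w < p),
      ((1 - (nuB (Q 0) p : ℝ) / p) ^ H.card * (if Cl U H p then 1 + (K : ℝ) / p else 1)) := by
    unfold Vt
    apply Finset.prod_le_prod
    · intro p hp
      rw [mem_filter] at hp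
      exact one_sub_nonneg _ p (mem_pz.1 hp.1).2
    · intro p hp
      rw [mem_filter] at hp
      have h2 := factor_upT hQ τ H p (mem_pz.1 hp.1).2 (by omega)
      rw [hK]
      exact h2
  have h2 : ∏ p ∈ (pz y).filter (fun p => w < p), (if Cl U H p then 1 + (K : ℝ) / p else 1) ≤
      ∏ x ∈ prs H, Fp U K w y (x.2 - x.1) := by
    have e : ∏ x ∈ prs H, Fp U K w y (x.2 - x.1) = ∏ p ∈ (pz y).filter (fun p => w < p),
        ∏ x ∈ prs H, (if CoG U p (x.2 - x.1) then 1 + (K : ℝ) / p else 1) := by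
      rw [Finset.prod_comm]
      apply Finset.prod_congr rfl
      intro x _
      unfold Fp
      rw [← Finset.filter_filter, Finset.prod_filter]
    rw [e]
    apply Finset.prod_le_prod
    · intro p _
      split_ifs <;> positivity
    · intro p _
      have hge : ∀ x ∈ prs H, (1 : ℝ) ≤ (if CoG U p (x.2 - x.1) then 1 + (K : ℝ) / p else 1) := by
        intro x _
        have : 0 ≤ (K : ℝ) / p := by positivity
        split_ifs <;> linarith
      split_ifs with h
      · obtain ⟨a, ha, b, hb, hab, hco⟩ := h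
        have hmem : (a, b) ∈ prs H := by
          unfold prs
          rw [mem_filter, mem_product]
          exact ⟨⟨ha, hb⟩, hab⟩
        have h3 := single_le_prod_one (prs H)
          (fun x => if CoG U p (x.2 - x.1) then 1 + (K : ℝ) / p else 1) hge (a, b) hmem
        simp only [if_pos hco] at h3
        exact h3
      · exact Finset.one_le_prod hge
  have h3 : ∏ x ∈ prs H, Fp U K w y (x.2 - x.1) - 1 ≤
      ∑ x ∈ prs H, (Fp U ((1 + K) ^ (H.card ^ 2) - 1) w y (x.2 - x.1) - 1) := by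
    refine (prod_sub_one_le (prs H) (fun x => Fp U K w y (x.2 - x.1))
      (fun x _ => Fp_ge U K w y _) (H.card ^ 2) (prs_card H)).trans ?_
    apply Finset.sum_le_sum
    intro x _
    have := Fp_pow U K (H.card ^ 2) w y (x.2 - x.1)
    linarith
  rw [← hK]
  refine h1.trans ?_
  rw [Finset.prod_mul_distrib, Finset.prod_pow]
  apply mul_le_mul_of_nonneg_left _ (pow_nonneg (Vt_nonneg (Q 0) w y) _)
  linarith

/-- lower bound for the tail -/
lemma tail_loT (hQ : TS Q U c) (τ : ℕ → ℕ) (H : Finset ℕ) (w y : ℕ) (hw : 1 ≤ w)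
    (hbig : 2 * (H.card * c) ≤ w) :
    Vt (Q 0) w y ^ H.card * (1 - ((H.card * c : ℕ) : ℝ) ^ 2 / w) ≤ Vt (TH Q τ H) w y := by
  have h1 : ∏ p ∈ (pz y).filter (fun p => w < p),
      ((1 - (nuB (Q 0) p : ℝ) / p) ^ H.card * (1 - ((H.card * c : ℕ) : ℝ) ^ 2 / (p : ℝ) ^ 2)) ≤
      Vt (TH Q τ H) w y := by
    unfold Vt
    apply Finset.prod_le_prod
    · intro p hp
      rw [mem_filter] at hp
      apply mul_nonneg (pow_nonneg (one_sub_nonneg (Q 0) p (mem_pz.1 hp.1).2) _)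
      have hp0 : (0 : ℝ) < p := by exact_mod_cast (mem_pz.1 hp.1).2.pos
      rw [sub_nonneg, div_le_one (by positivity)]
      apply pow_le_pow_left₀ (by positivity)
      have : H.card * c ≤ p := by omega
      exact_mod_cast this
    · intro p hp
      rw [mem_filter] at hp
      exact factor_loT hQ τ H p (mem_pz.1 hp.1).2 (by omega)
  refine le_trans ?_ h1
  rw [Finset.prod_mul_distrib, Finset.prod_pow]
  apply mul_le_mul_of_nonneg_left _ (pow_nonneg (Vt_nonneg (Q 0) w y) _)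
  refine le_trans ?_ (prod_one_sub_ge _ _ (fun p _ => by positivity) ?_)
  · have h2 := sum_inv_sq w y hw
    have h3 : ∑ p ∈ (pz y).filter (fun p => w < p), ((H.card * c : ℕ) : ℝ) ^ 2 / (p : ℝ) ^ 2 ≤
        ((H.card * c : ℕ) : ℝ) ^ 2 * (1 / w) := by
      calc ∑ p ∈ (pz y).filter (fun p => w < p), ((H.card * c : ℕ) : ℝ) ^ 2 / (p : ℝ) ^ 2 ≤
          ∑ p ∈ (Icc 1 y).filter (fun n => w < n), ((H.card * c : ℕ) : ℝ) ^ 2 / (p : ℝ) ^ 2 := by
            apply Finset.sum_le_sum_of_subset_of_nonneg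
            · intro p hp
              rw [mem_filter, mem_pz] at hp
              rw [mem_filter, mem_Icc]
              exact ⟨⟨hp.1.2.one_lt.le, hp.1.1⟩, hp.2⟩
            · intros; positivity
        _ = ((H.card * c : ℕ) : ℝ) ^ 2 * ∑ p ∈ (Icc 1 y).filter (fun n => w < n), 1 / (p : ℝ) ^ 2 := by
            rw [Finset.mul_sum]
            apply Finset.sum_congr rfl
            intros
            ring
        _ ≤ _ := by gcongr
    have h4 : ((H.card * c : ℕ) : ℝ) ^ 2 * (1 / w) = ((H.card * c : ℕ) : ℝ) ^ 2 / w := by ring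
    linarith
  · intro p hp
    rw [mem_filter] at hp
    have hp0 : (0 : ℝ) < p := by exact_mod_cast (mem_pz.1 hp.1).2.pos
    rw [div_le_one (by positivity)]
    apply pow_le_pow_left₀ (by positivity)
    have : H.card * c ≤ p := by omega
    exact_mod_cast this

open Classical in
/-- the number of the shifts `h ∈ W` for which `m + h` is sifted -/
noncomputable def NT (Q : ℕ → ℕ → ℕ → Prop) (τ : ℕ → ℕ) (y : ℕ) (W : Finset ℕ) (m : ℕ) : ℕ :=
  (W.filter (fun h => Sf (Q (τ h)) y (m + h))).card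

open Classical in
/-- the average over the sets of shifts in `W`, as an average over a period -/
lemma sum_setsT (hQ : TS Q U c) (τ : ℕ → ℕ) (w k : ℕ) (W : Finset ℕ) :
    (Mw w : ℝ) * ∑ H ∈ powersetCard k W, Vq (TH Q τ H) w =
      ∑ m ∈ range (Mw w), ((NT Q τ w W m).choose k : ℝ) := by
  rw [Finset.mul_sum]
  have h1 : ∀ H ∈ powersetCard k W, (Mw w : ℝ) * Vq (TH Q τ H) w =
      ∑ m ∈ range (Mw w), if (∀ h ∈ H, Sf (Q (τ h)) w (m + h)) then (1 : ℝ) else 0 := by
    intro H _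
    rw [← exact (TH Q τ H) _ (perB_TH hQ τ H) w]
    rw [Finset.sum_ite, Finset.sum_const_zero, add_zero, Finset.sum_const, nsmul_eq_mul, mul_one]
    congr 2
    apply Finset.filter_congr
    intro m _
    exact sf_TH Q τ H w m
  rw [Finset.sum_congr rfl h1, Finset.sum_comm]
  apply Finset.sum_congr rfl
  intro m _
  unfold NT
  rw [Finset.sum_ite, Finset.sum_const_zero, add_zero, Finset.sum_const, nsmul_eq_mul, mul_one,
    ← Finset.card_powersetCard]
  congr 2
  ext H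
  rw [mem_filter, mem_powersetCard, mem_powersetCard]
  constructor
  · rintro ⟨⟨a1, a2⟩, a3⟩
    exact ⟨fun h hh => mem_filter.2 ⟨a1 hh, a3 h hh⟩, a2⟩
  · rintro ⟨a1, a2⟩
    exact ⟨⟨fun h hh => (mem_filter.1 (a1 hh)).1, a2⟩, fun h hh => (mem_filter.1 (a1 hh)).2⟩

open Classical in
/-- **The small primes**, for a set `W` of shifts. -/
theorem small_avgT (k w : ℕ) (η C : ℝ) (hη : 0 < η) (hC : 0 ≤ C) : ∃ T0 : ℕ, ∀ T : ℕ, T0 ≤ T →
    ∀ (Q : ℕ → ℕ → ℕ → Prop) (U : ℕ → ℕ → Prop) (c : ℕ), TS Q U c → (∀ p : ℕ, p.Prime → nuB (Q 0) p < p) →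
    ∀ (τ : ℕ → ℕ) (W : Finset ℕ), W ⊆ Icc 1 T →
    (∀ m : ℕ, |(NT Q τ w W m : ℝ) - W.card * Vq (Q 0) w| ≤ C) →
    |∑ H ∈ powersetCard (k + 1) W, Vq (TH Q τ H) w - (W.card * Vq (Q 0) w) ^ (k + 1) / (k + 1).factorial| ≤
      η * ((T * Vq (Q 0) w) ^ (k + 1) / (k + 1).factorial) := by
  obtain ⟨M, hM⟩ : ∃ M, M = Mw w := ⟨_, rfl⟩
  have hMpos : 0 < M := by rw [hM]; exact Mw_pos w
  have hMr : (0 : ℝ) < M := by exact_mod_cast hMpos
  obtain ⟨B, hB⟩ : ∃ B : ℝ, B = max (C + k + 1) ((C + (k + 1)) * (k + 1) * 2 ^ k / η) := ⟨_, rfl⟩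
  obtain ⟨T0, hT0⟩ : ∃ T0 : ℕ, (M : ℝ) * B ≤ T0 := exists_nat_ge _
  refine ⟨T0, ?_⟩
  intro T hT Q U c hQ hadm τ W hW hwin
  have hTr : (M : ℝ) * B ≤ T := hT0.trans (by exact_mod_cast hT)
  have hWp := Vq_pos (Q 0) hadm w
  have hex := exact (Q 0) c (hQ.per 0) w
  rw [← hM] at hex
  have hMW : 1 ≤ (M : ℝ) * Vq (Q 0) w := by
    rw [← hex]
    have h1 : (0 : ℝ) < (((range M).filter (fun m => Sf (Q 0) w m)).card : ℝ) := by
      rw [hex]
      positivity
    have h2 : 0 < ((range M).filter (fun m => Sf (Q 0) w m)).card := by exact_mod_cast h1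
    exact_mod_cast h2
  obtain ⟨x, hx⟩ : ∃ x : ℝ, x = W.card * Vq (Q 0) w := ⟨_, rfl⟩
  obtain ⟨z, hz⟩ : ∃ z : ℝ, z = T * Vq (Q 0) w := ⟨_, rfl⟩
  rw [← hx, ← hz]
  rw [← hx] at hwin
  have hx0 : 0 ≤ x := by rw [hx]; positivity
  have hWT : (W.card : ℝ) ≤ T := by
    have := card_le_card hW
    rw [Nat.card_Icc, Nat.add_sub_cancel] at this
    exact_mod_cast this
  have hxz : x ≤ z := by
    rw [hx, hz]
    exact mul_le_mul_of_nonneg_right hWT hWp.le
  have hBz : B ≤ z := by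
    have h1 : (M : ℝ) * B ≤ M * z := by
      rw [hz]
      calc (M : ℝ) * B ≤ T := hTr
        _ = T * 1 := (mul_one _).symm
        _ ≤ T * (M * Vq (Q 0) w) := by gcongr
        _ = _ := by ring
    exact le_of_mul_le_mul_left h1 hMr
  have hB1 : C + k + 1 ≤ z := (by rw [hB]; exact le_max_left _ _ : C + k + 1 ≤ B).trans hBz
  have hB2 : (C + (k + 1)) * (k + 1) * 2 ^ k ≤ η * z := by
    have h1 : (C + (k + 1)) * (k + 1) * 2 ^ k / η ≤ z :=
      (by rw [hB]; exact le_max_right _ _ : (C + (k + 1)) * (k + 1) * 2 ^ k / η ≤ B).trans hBz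
    rw [div_le_iff₀ hη] at h1
    linarith
  have hz0 : 0 ≤ z := hx0.trans hxz
  have hkf : (0 : ℝ) < (k + 1).factorial := by exact_mod_cast Nat.factorial_pos (k + 1)
  have hsum := sum_setsT hQ τ w (k + 1) W
  rw [← hM] at hsum
  have hb : ∀ m ∈ range M, |((NT Q τ w W m).choose (k + 1) : ℝ) -
      x ^ (k + 1) / (k + 1).factorial| ≤ η * (z ^ (k + 1) / (k + 1).factorial) := by
    intro m _
    refine (Pool.Agent.R463.PP.choose_near _ k x z C (hwin m) hC hx0 hxz hB1).trans ?_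
    rw [← mul_div_assoc]
    apply div_le_div_of_nonneg_right _ hkf.le
    calc (C + (k + 1)) * (k + 1) * (2 * z) ^ k = (C + (k + 1)) * (k + 1) * 2 ^ k * z ^ k := by
          rw [mul_pow]; ring
      _ ≤ η * z * z ^ k := mul_le_mul_of_nonneg_right hB2 (by positivity)
      _ = _ := by ring
  have e : (M : ℝ) * (∑ H ∈ powersetCard (k + 1) W, Vq (TH Q τ H) w - x ^ (k + 1) / (k + 1).factorial) =
      ∑ m ∈ range M, (((NT Q τ w W m).choose (k + 1) : ℝ) - x ^ (k + 1) / (k + 1).factorial) := by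
    rw [mul_sub, hsum, Finset.sum_sub_distrib, Finset.sum_const, card_range, nsmul_eq_mul]
  have h3 : |(M : ℝ) * (∑ H ∈ powersetCard (k + 1) W, Vq (TH Q τ H) w - x ^ (k + 1) / (k + 1).factorial)| ≤
      M * (η * (z ^ (k + 1) / (k + 1).factorial)) := by
    rw [e]
    refine (Finset.abs_sum_le_sum_abs _ _).trans ?_
    refine (Finset.sum_le_card_nsmul _ _ _ hb).trans (le_of_eq ?_)
    rw [card_range, nsmul_eq_mul]
  rw [abs_mul, abs_of_pos hMr] at h3
  exact le_of_mul_le_mul_left h3 hMr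

end Pool.Agent.U98.TY
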