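import Pool.Agent.U98.TY.A1

set_option autoImplicit false

/-!
# The average of the singular series over sets of shifts without forbidden differences

`E` is a finite set of exceptional differences. For `t` outside of `E` only few large primes produce collisions.
-/

namespace Pool.Agent.U98.TY

open Finset Filter Pool.Agent.H373R2.T7 Pool.Agent.W123.RP Pool.Agent.W123.RU Pool.Agent.TH464.PO

/-- no two elements of `H` differ by an element of `E` -/
def EF (E H : Finset ℕ) : Prop := ∀ a ∈ H, ∀ b ∈ H, a < b → b - a ∉ E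

open Classical in
/-- the sets of `k` shifts without differences in `E` -/
noncomputable def PF (E : Finset ℕ) (k : ℕ) (W : Finset ℕ) : Finset (Finset ℕ) :=
  (powersetCard k W).filter (EF E)

open Classical in
lemma mem_PF {E : Finset ℕ} {k : ℕ} {W H : Finset ℕ} : H ∈ PF E k W ↔ (H ⊆ W ∧ H.card = k) ∧ EF E H := by
  unfold PF
  rw [mem_filter, mem_powersetCard]

open Classical in
lemma card_notEF (E : Finset ℕ) (k T : ℕ) (W : Finset ℕ) (hW : W ⊆ Icc 1 T) :
    ((powersetCard (k + 1) W).filter (fun H => ¬ EF E H)).card ≤ E.card * T ^ k := by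
  rcases k with _ | k
  · have : (powersetCard (0 + 1) W).filter (fun H => ¬ EF E H) = ∅ := by
      rw [Finset.filter_eq_empty_iff]
      intro H hH
      rw [mem_powersetCard] at hH
      obtain ⟨a, ha⟩ := Finset.card_eq_one.1 hH.2
      rw [not_not]
      intro x hx y hy hxy
      rw [ha, mem_singleton] at hx hy
      omega
    rw [this, card_empty]
    exact Nat.zero_le _
  · have hsub : (powersetCard (k + 1 + 1) W).filter (fun H => ¬ EF E H) ⊆
        (Icc 1 T ×ˢ (E.filter (fun t => 1 ≤ t))).biUnion (fun x =>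
          (powersetCard (k + 2) (Icc 1 T)).filter (fun H => x.1 ∈ H ∧ x.1 + x.2 ∈ H)) := by
      intro H hH
      rw [mem_filter, mem_powersetCard] at hH
      obtain ⟨⟨h1, h2⟩, h3⟩ := hH
      unfold EF at h3
      push Not at h3
      obtain ⟨a, ha, b, hb, hab, ht⟩ := h3
      rw [mem_biUnion]
      refine ⟨(a, b - a), ?_, ?_⟩
      · rw [mem_product, mem_filter]
        exact ⟨hW (h1 ha), ht, by simp only; omega⟩
      · rw [mem_filter, mem_powersetCard]
        refine ⟨⟨h1.trans hW, h2⟩, ha, ?_⟩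
        have : a + (b - a) = b := by omega
        simp only [this]
        exact hb
    refine (card_le_card hsub).trans ?_
    refine (Finset.card_biUnion_le_card_mul _ _ (T ^ k) ?_).trans ?_
    · intro x hx
      rw [mem_product, mem_filter] at hx
      apply card_two
      have := hx.2.2
      omega
    · rw [card_product, Nat.card_Icc, Nat.add_sub_cancel]
      have h1 : (E.filter (fun t => 1 ≤ t)).card ≤ E.card := card_filter_le _ _
      calc T * (E.filter (fun t => 1 ≤ t)).card * T ^ k ≤ T * E.card * T ^ k := by gcongr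
        _ = E.card * T ^ (k + 1) := by ring

open Classical in
/-- the average over the shifts outside of `E` of the products over the collision primes -/
theorem avg_E (K D w : ℕ) (hw : 1 ≤ w) (η : ℝ) (hη : 0 < η)
    (hKD : (K * D : ℕ) / (w : ℝ) ≤ η) : ∃ T0 : ℕ, 2 ≤ T0 ∧ ∀ T : ℕ, T0 ≤ T →
    ∀ Q : ℕ → ℕ → Prop, Coll (CoG Q) w D → ∀ y : ℕ, ∀ η' : ℝ, 0 ≤ η' → K * η' ≤ η → ∀ E : Finset ℕ,
    (∀ h ∈ Icc 1 T, h ∉ E → ((((pz y).filter (fun p : ℕ => T < p ∧ CoG Q p h)).card : ℕ) : ℝ) ≤ η' * T) →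
    ∑ h ∈ Icc 1 T, (if h ∈ E then 0 else Fp Q K w y h - 1) ≤
      (Real.exp η * (Real.exp η + η) - 1) * T := by
  obtain ⟨T0, hT0, h⟩ := avg_sharp K D w hw η hη hKD
  refine ⟨T0, hT0, ?_⟩
  intro T hT Q hC y η' hη' hKη E hlarge
  obtain ⟨Co, hCo⟩ : ∃ Co : ℕ → ℕ → Prop, Co = fun p t => CoG Q p t ∧ (p ≤ T ∨ t % p ∉ E) := ⟨_, rfl⟩
  have hColl : Coll Co w D := by
    constructor
    · intro p n
      rw [hCo]
      simp only [Nat.mod_mod]
      rw [hC.per p n]
    · intro p hp hpw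
      refine le_trans (card_le_card ?_) (hC.few p hp hpw)
      intro r hr
      rw [mem_filter] at hr ⊢
      have h2 := hr.2
      rw [hCo] at h2
      exact ⟨hr.1, h2.1⟩
  have hmod : ∀ t ∈ Icc 1 T, ∀ p : ℕ, T < p → t % p = t := by
    intro t ht p hp
    rw [mem_Icc] at ht
    exact Nat.mod_eq_of_lt (by omega)
  have hmain := h T hT Co hColl y η' hη' hKη (by
    intro t ht
    by_cases htE : t ∈ E
    · have : (pz y).filter (fun p : ℕ => T < p ∧ Co p t) = ∅ := by
        rw [Finset.filter_eq_empty_iff]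
        rintro p _ ⟨h1, h2⟩
        rw [hCo] at h2
        rcases h2.2 with h3 | h3
        · omega
        · rw [hmod t ht p h1] at h3
          exact h3 htE
      rw [this, card_empty, Nat.cast_zero]
      positivity
    · refine le_trans ?_ (hlarge t ht htE)
      have : ((pz y).filter (fun p : ℕ => T < p ∧ Co p t)).card ≤
          ((pz y).filter (fun p : ℕ => T < p ∧ CoG Q p t)).card := by
        apply card_le_card
        intro p hp
        rw [mem_filter] at hp ⊢
        refine ⟨hp.1, hp.2.1, ?_⟩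
        have := hp.2.2
        rw [hCo] at this
        exact this.1
      exact_mod_cast this)
  have hterm : ∀ t ∈ Icc 1 T, (if t ∈ E then 0 else Fp Q K w y t - 1) ≤
      ∏ p ∈ (pz y).filter (fun p : ℕ => w < p ∧ Co p t), (1 + (K : ℝ) / p) - 1 := by
    intro t ht
    split_ifs with htE
    · rw [sub_nonneg]
      apply Finset.one_le_prod
      intro p _
      have : 0 ≤ (K : ℝ) / p := by positivity
      linarith
    · apply sub_le_sub_right
      apply le_of_eq
      unfold Fp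
      apply Finset.prod_congr _ (fun _ _ => rfl)
      apply Finset.filter_congr
      intro p _
      rw [hCo]
      constructor
      · rintro ⟨h1, h2⟩
        refine ⟨h1, h2, ?_⟩
        by_cases hpT : p ≤ T
        · exact Or.inl hpT
        · right
          rw [hmod t ht p (by omega)]
          exact htE
      · rintro ⟨h1, h2, _⟩
        exact ⟨h1, h2⟩
  refine (Finset.sum_le_sum hterm).trans ?_
  rw [Finset.sum_sub_distrib, Finset.sum_const, Nat.card_Icc, Nat.add_sub_cancel, nsmul_eq_mul, mul_one]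
  linarith

open Classical in
/-- **The average of the singular series** of a typed system, over the sets of shifts without differences in `E`. -/
theorem sing_avgT (c k e : ℕ) (η : ℝ) (hη : 0 < η) (hη1 : η ≤ 1) (C : ℕ → ℝ) (hC : ∀ w, 0 ≤ C w) :
    ∃ (w : ℕ) (η' : ℝ) (T0 : ℕ), 0 < η' ∧ ∀ T : ℕ, T0 ≤ T → ∀ (Q : ℕ → ℕ → ℕ → Prop) (U : ℕ → ℕ → Prop),
      TS Q U c → (∀ p : ℕ, p.Prime → nuB (Q 0) p < p) → ∀ y : ℕ, w ≤ y → ∀ E : Finset ℕ, E.card ≤ e →
      (∀ t ∈ Icc 1 T, t ∉ E →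
        ((((pz y).filter (fun p : ℕ => T < p ∧ CoG U p t)).card : ℕ) : ℝ) ≤ η' * T) →
      ∀ (τ : ℕ → ℕ) (W : Finset ℕ), W ⊆ Icc 1 T →
      (∀ w m : ℕ, |(NT Q τ w W m : ℝ) - W.card * Vq (Q 0) w| ≤ C w) →
      |∑ H ∈ PF E (k + 1) W, Vq (TH Q τ H) y - (W.card * Vq (Q 0) y) ^ (k + 1) / (k + 1).factorial| ≤
        η * ((T * Vq (Q 0) y) ^ (k + 1) / (k + 1).factorial) := by
  obtain ⟨c1, B, w1, hc1, hw12, hW⟩ := W_low c
  obtain ⟨K, hK⟩ : ∃ K : ℕ, K = (1 + 2 * ((k + 1) * c)) ^ ((k + 1) ^ 2) - 1 := ⟨_, rfl⟩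
  obtain ⟨A, hA⟩ : ∃ A : ℕ, A = 12 * (K * c ^ 2 + 1) * (k + 1).factorial + ((k + 1) * c) ^ 2 :=
    ⟨_, rfl⟩
  obtain ⟨w, hw0, hw2, hAw, hAw'⟩ := exists_w A B (k + 1) c1 (η / 4) hc1 (by positivity)
    (max w1 (2 * ((k + 1) * c)))
  have hww1 : w1 ≤ w := (le_max_left _ _).trans hw0
  have hwc : 2 * ((k + 1) * c) ≤ w := (le_max_right _ _).trans hw0
  have hwr : (0 : ℝ) < w := by exact_mod_cast (by omega : 0 < w)
  obtain ⟨η1, hη1def⟩ : ∃ η1 : ℝ, η1 = ((K * c ^ 2 + 1 : ℕ) : ℝ) / w := ⟨_, rfl⟩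
  have hη10 : 0 < η1 := by rw [hη1def]; positivity
  have hfac : (1 : ℝ) ≤ (k + 1).factorial := by
    exact_mod_cast Nat.factorial_pos (k + 1)
  have hAge : 12 * η1 * (k + 1).factorial ≤ (A : ℝ) / w := by
    rw [hη1def, le_div_iff₀ hwr]
    have : ((12 * (K * c ^ 2 + 1) * (k + 1).factorial : ℕ) : ℝ) ≤ A := by
      exact_mod_cast (by omega : 12 * (K * c ^ 2 + 1) * (k + 1).factorial ≤ A)
    refine le_trans (le_of_eq ?_) this
    push_cast
    field_simp
  have hAge2 : (((k + 1) * c : ℕ) : ℝ) ^ 2 / w ≤ η / 4 := by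
    refine le_trans ?_ hAw'
    apply div_le_div_of_nonneg_right _ hwr.le
    exact_mod_cast (by omega : ((k + 1) * c) ^ 2 ≤ A)
  have hη1le : η1 ≤ 1 := by nlinarith
  obtain ⟨T1, hT1, havg⟩ := avg_E K (c ^ 2) w (by omega) η1 hη10 (by
    rw [hη1def]
    apply div_le_div_of_nonneg_right _ hwr.le
    push_cast
    linarith)
  obtain ⟨T2, hsmall⟩ := small_avgT k w (η / 8) (C w) (by positivity) (hC w)
  -- few sets have a difference in `E`
  obtain ⟨c2, hc2⟩ : ∃ c2 : ℝ, c2 = (c1 / Real.log w ^ B) ^ (k + 1) / (k + 1).factorial := ⟨_, rfl⟩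
  have hlogw : 0 < Real.log w := Real.log_pos (by exact_mod_cast (by omega : 1 < w))
  have hc20 : 0 < c2 := by rw [hc2]; positivity
  obtain ⟨T3, hT3⟩ : ∃ T3 : ℕ, (e : ℝ) / (η / 8 * c2) ≤ T3 := exists_nat_ge _
  refine ⟨w, η1 / (K + 1), max (max T1 T2) T3, by positivity, ?_⟩
  intro T hT Q U hQ hadm y hwy E hE hlarge τ U' hU hwin
  have hT1' : T1 ≤ T := ((le_max_left _ _).trans (le_max_left _ _)).trans hT
  have hT2' : T2 ≤ T := ((le_max_right _ _).trans (le_max_left _ _)).trans hT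
  have hT3' : T3 ≤ T := (le_max_right _ _).trans hT
  have s0 := hsmall T hT2' Q U c hQ hadm τ U' hU (hwin w)
  have hWpos := Vq_pos (Q 0) hadm w
  obtain ⟨W, hWdef⟩ : ∃ W, W = Vq (Q 0) w := ⟨_, rfl⟩
  obtain ⟨V, hV⟩ : ∃ V, V = Vt (Q 0) w y := ⟨_, rfl⟩
  have hV0 : 0 ≤ V := by rw [hV]; exact Vt_nonneg (Q 0) w y
  rw [← hWdef] at s0 hWpos
  rw [Vq_split (Q 0) w y hwy, ← hWdef, ← hV]
  have hT0 : (0 : ℝ) ≤ T := Nat.cast_nonneg T
  have hUT : (U'.card : ℝ) ≤ T := by
    have := card_le_card hU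
    rw [Nat.card_Icc, Nat.add_sub_cancel] at this
    exact_mod_cast this
  have e1 : ∀ a : ℝ, (a * (W * V)) ^ (k + 1) / (k + 1).factorial =
      V ^ (k + 1) * ((a * W) ^ (k + 1) / (k + 1).factorial) := by
    intro a
    rw [← mul_assoc, mul_pow (a * W) V]
    ring
  rw [e1, e1]
  obtain ⟨Z, hZ⟩ : ∃ Z : ℝ, Z = (T * W) ^ (k + 1) / ((k + 1).factorial : ℝ) := ⟨_, rfl⟩
  obtain ⟨z, hz⟩ : ∃ z : ℝ, z = (U'.card * W) ^ (k + 1) / ((k + 1).factorial : ℝ) := ⟨_, rfl⟩
  obtain ⟨S, hS⟩ : ∃ S : ℝ, S = ∑ H ∈ PF E (k + 1) U', Vq (TH Q τ H) w := ⟨_, rfl⟩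
  have hzZ : z ≤ Z := by
    rw [hz, hZ]
    apply div_le_div_of_nonneg_right _ (by positivity)
    apply pow_le_pow_left₀ (by positivity)
    exact mul_le_mul_of_nonneg_right hUT hWpos.le
  have hz0 : 0 ≤ z := by rw [hz]; positivity
  rw [← hz, ← hZ] at s0
  rw [← hz, ← hZ]
  have hsplitE : ∑ H ∈ powersetCard (k + 1) U', Vq (TH Q τ H) w =
      S + ∑ H ∈ (powersetCard (k + 1) U').filter (fun H => ¬ EF E H), Vq (TH Q τ H) w := by
    rw [hS]
    unfold PF
    rw [Finset.sum_filter_add_sum_filter_not]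
  have hfewE : ∑ H ∈ (powersetCard (k + 1) U').filter (fun H => ¬ EF E H), Vq (TH Q τ H) w ≤ η / 8 * Z := by
    have h1 : ∑ H ∈ (powersetCard (k + 1) U').filter (fun H => ¬ EF E H), Vq (TH Q τ H) w ≤
        (((powersetCard (k + 1) U').filter (fun H => ¬ EF E H)).card : ℝ) := by
      refine (Finset.sum_le_card_nsmul _ _ 1 (fun H _ => Vq_le_one _ w)).trans (le_of_eq ?_)
      rw [nsmul_eq_mul, mul_one]
    have h2 : ((((powersetCard (k + 1) U').filter (fun H => ¬ EF E H)).card : ℕ) : ℝ) ≤ e * (T : ℝ) ^ k := by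
      have h3 : ((powersetCard (k + 1) U').filter (fun H => ¬ EF E H)).card ≤ e * T ^ k :=
        (card_notEF E k T U' hU).trans (Nat.mul_le_mul_right _ hE)
      exact_mod_cast h3
    have h4 : (e : ℝ) ≤ η / 8 * c2 * T := by
      have h5 : (e : ℝ) / (η / 8 * c2) ≤ T := hT3.trans (by exact_mod_cast hT3')
      rw [div_le_iff₀ (by positivity)] at h5
      linarith
    have h6 : c2 * (T : ℝ) ^ (k + 1) ≤ Z := by
      rw [hc2, hZ, mul_pow, div_mul_eq_mul_div]
      apply div_le_div_of_nonneg_right _ (by positivity)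
      rw [mul_comm]
      apply mul_le_mul_of_nonneg_left _ (by positivity)
      apply pow_le_pow_left₀ (by positivity)
      rw [hWdef]
      exact hW w hww1 (Q 0) (hQ.per 0) hadm
    calc _ ≤ _ := h1
      _ ≤ e * (T : ℝ) ^ k := h2
      _ ≤ η / 8 * c2 * T * (T : ℝ) ^ k := mul_le_mul_of_nonneg_right h4 (by positivity)
      _ = η / 8 * (c2 * (T : ℝ) ^ (k + 1)) := by ring
      _ ≤ _ := mul_le_mul_of_nonneg_left h6 (by positivity)
  have hfewE0 : 0 ≤ ∑ H ∈ (powersetCard (k + 1) U').filter (fun H => ¬ EF E H), Vq (TH Q τ H) w :=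
    Finset.sum_nonneg fun H _ => Vq_nonneg _ w
  have s1 : -(η / 4 * Z) ≤ S - z := by
    have := (abs_le.1 s0).1
    linarith
  have s2 : S - z ≤ η / 4 * Z := by
    have := (abs_le.1 s0).2
    have hZ0 : 0 ≤ Z := hz0.trans hzZ
    have : 0 ≤ η * Z := by positivity
    linarith
  have hterm : ∀ H ∈ PF E (k + 1) U', Vq (TH Q τ H) y = Vq (TH Q τ H) w * Vt (TH Q τ H) w y :=
    fun H _ => Vq_split _ w y hwy
  have hVk : 0 ≤ V ^ (k + 1) := by positivity
  have hlow : V ^ (k + 1) * (1 - η / 4) * S ≤ ∑ H ∈ PF E (k + 1) U', Vq (TH Q τ H) y := by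
    have h1 : ∀ H ∈ PF E (k + 1) U',
        V ^ (k + 1) * (1 - η / 4) * Vq (TH Q τ H) w ≤ Vq (TH Q τ H) y := by
      intro H hH
      rw [hterm H hH]
      rw [mem_PF] at hH
      have h2 := tail_loT hQ τ H w y (by omega) (by rw [hH.1.2]; exact hwc)
      rw [hH.1.2, ← hV] at h2
      have h3 : V ^ (k + 1) * (1 - η / 4) ≤ Vt (TH Q τ H) w y := by
        refine le_trans ?_ h2
        apply mul_le_mul_of_nonneg_left _ hVk
        linarith
      calc V ^ (k + 1) * (1 - η / 4) * Vq (TH Q τ H) w ≤ Vt (TH Q τ H) w y * Vq (TH Q τ H) w :=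
            mul_le_mul_of_nonneg_right h3 (Vq_nonneg _ w)
        _ = _ := mul_comm _ _
    have h2 := Finset.sum_le_sum h1
    rw [← Finset.mul_sum, ← hS] at h2
    exact h2
  obtain ⟨g, hg⟩ : ∃ g : ℕ → ℝ, g = fun t => if t ∈ E then 0 else Fp U K w y t - 1 := ⟨_, rfl⟩
  have hg0 : ∀ t, 0 ≤ g t := by
    intro t
    rw [hg]
    simp only
    split_ifs
    · exact le_rfl
    · have := Fp_ge U K w y t
      linarith
  have hup : ∑ H ∈ PF E (k + 1) U', Vq (TH Q τ H) y ≤ V ^ (k + 1) * (S + η / 4 * Z) := by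
    have h1 : ∀ H ∈ PF E (k + 1) U', Vq (TH Q τ H) y ≤
        V ^ (k + 1) * (Vq (TH Q τ H) w + ∑ x ∈ prs H, g (x.2 - x.1)) := by
      intro H hH
      rw [hterm H hH]
      rw [mem_PF] at hH
      have h2 := tail_upT hQ τ H w y (by rw [hH.1.2]; exact hwc)
      rw [hH.1.2, ← hV, ← hK] at h2
      have hgeq : ∑ x ∈ prs H, (Fp U K w y (x.2 - x.1) - 1) = ∑ x ∈ prs H, g (x.2 - x.1) := by
        apply Finset.sum_congr rfl
        intro x hx
        unfold prs at hx
        rw [mem_filter, mem_product] at hx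
        have h3 := hH.2 x.1 hx.1.1 x.2 hx.1.2 hx.2
        rw [hg]
        simp only [if_neg h3]
      rw [hgeq] at h2
      have h3 : 0 ≤ ∑ x ∈ prs H, g (x.2 - x.1) := Finset.sum_nonneg fun x _ => hg0 _
      have h4 := Vq_nonneg (TH Q τ H) w
      have h5 := Vq_le_one (TH Q τ H) w
      calc Vq (TH Q τ H) w * Vt (TH Q τ H) w y ≤ Vq (TH Q τ H) w * (V ^ (k + 1) *
            (1 + ∑ x ∈ prs H, g (x.2 - x.1))) := mul_le_mul_of_nonneg_left h2 h4
        _ = V ^ (k + 1) * (Vq (TH Q τ H) w +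
            Vq (TH Q τ H) w * ∑ x ∈ prs H, g (x.2 - x.1)) := by ring
        _ ≤ _ := by
          apply mul_le_mul_of_nonneg_left _ hVk
          have := mul_le_mul_of_nonneg_right h5 h3
          linarith
    have h2 := Finset.sum_le_sum h1
    rw [← Finset.mul_sum, Finset.sum_add_distrib, ← hS] at h2
    refine h2.trans ?_
    have h3 := sum_prs k T g hg0
    have h4 := havg T hT1' U (coll_gen U c hQ.perU w) y (η1 / (K + 1)) (by positivity) (by
      rw [← mul_div_assoc, div_le_iff₀ (by positivity)]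
      have : (0 : ℝ) ≤ K := Nat.cast_nonneg K
      nlinarith) E hlarge
    have h5 : ∑ t ∈ Icc 1 T, g t ≤ 12 * η1 * T := by
      have h6 := exp_bound η1 hη10.le hη1le
      have h7 := mul_le_mul_of_nonneg_right h6 hT0
      rw [hg]
      linarith
    have hmono : ∑ H ∈ PF E (k + 1) U', ∑ x ∈ prs H, g (x.2 - x.1) ≤
        ∑ H ∈ powersetCard (k + 1) (Icc 1 T), ∑ x ∈ prs H, g (x.2 - x.1) := by
      apply Finset.sum_le_sum_of_subset_of_nonneg
      · intro H hH
        rw [mem_PF] at hH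
        rw [mem_powersetCard]
        exact ⟨hH.1.1.trans hU, hH.1.2⟩
      · intro H _ _
        exact Finset.sum_nonneg fun x _ => hg0 _
    have h6 : ∑ H ∈ powersetCard (k + 1) (Icc 1 T), ∑ x ∈ prs H, g (x.2 - x.1) ≤
        η / 4 * Z := by
      rw [hZ]
      calc _ ≤ (T : ℝ) ^ k * ∑ t ∈ Icc 1 T, g t := h3
        _ ≤ (T : ℝ) ^ k * (12 * η1 * T) := mul_le_mul_of_nonneg_left h5 (by positivity)
        _ = 12 * η1 * (k + 1).factorial * (T ^ (k + 1) / (k + 1).factorial) := by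
          rw [pow_succ]
          field_simp
        _ ≤ (η / 4 * (c1 / Real.log w ^ B) ^ (k + 1)) * (T ^ (k + 1) / (k + 1).factorial) := by
          apply mul_le_mul_of_nonneg_right (hAge.trans hAw) (by positivity)
        _ ≤ (η / 4 * W ^ (k + 1)) * (T ^ (k + 1) / (k + 1).factorial) := by
          apply mul_le_mul_of_nonneg_right _ (by positivity)
          apply mul_le_mul_of_nonneg_left _ (by positivity)
          apply pow_le_pow_left₀ (by positivity)
          rw [hWdef]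
          exact hW w hww1 (Q 0) (hQ.per 0) hadm
        _ = _ := by
          rw [mul_pow]
          ring
    apply mul_le_mul_of_nonneg_left _ hVk
    linarith
  have hZ0 : 0 ≤ Z := hz0.trans hzZ
  have hη4 : η / 4 ≤ 1 := by linarith
  have hηZ : 0 ≤ η * Z := by positivity
  rw [abs_le]
  constructor
  · have h1 : z - η * Z ≤ (1 - η / 4) * S := by
      have h2 : z - η / 4 * Z ≤ S := by linarith
      have h3 : η / 4 * S ≤ η / 4 * (2 * Z) := by
        apply mul_le_mul_of_nonneg_left _ (by positivity)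
        nlinarith
      linarith
    have h2 := mul_le_mul_of_nonneg_left h1 hVk
    have h3 : V ^ (k + 1) * (z - η * Z) = V ^ (k + 1) * z - η * (V ^ (k + 1) * Z) := by ring
    have h4 : V ^ (k + 1) * ((1 - η / 4) * S) = V ^ (k + 1) * (1 - η / 4) * S := by ring
    linarith
  · have h1 : S + η / 4 * Z ≤ z + η * Z := by linarith
    have h2 := mul_le_mul_of_nonneg_left h1 hVk
    have h3 : V ^ (k + 1) * (z + η * Z) = V ^ (k + 1) * z + η * (V ^ (k + 1) * Z) := by ring
    linarith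

end Pool.Agent.U98.TY
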