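import Pool.Agent.U98.TY.A2

set_option autoImplicit false

/-!
# Binomial moments of the number of sifted elements in typed windows
-/

namespace Pool.Agent.U98.TY

open Finset Filter Pool.Agent.H373R2.T7 Pool.Agent.W123.RP Pool.Agent.W123.RU Pool.Agent.TH464.PO
open Pool.Agent.R463.PP (Qr qr_per qr_Vq)

open Classical in
/-- the number of the sets of `k` sifted shifts without differences in `E` -/
noncomputable def MF (Q : ℕ → ℕ → ℕ → Prop) (τ : ℕ → ℕ) (y : ℕ) (E : Finset ℕ) (k : ℕ) (W : Finset ℕ)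
    (m : ℕ) : ℕ :=
  ((PF E k W).filter (fun H => Sf (TH Q τ H) y m)).card

lemma small_err (m : ℕ) (δ : ℝ) (hδ : 0 < δ) : ∃ Y0 : ℕ, ∀ T Y : ℕ, T ^ (4 * m) ≤ Y → Y0 ≤ Y →
    (T : ℝ) ^ m * √(Y : ℝ) ≤ δ * Y := by
  obtain ⟨Y0, hY0⟩ : ∃ Y0 : ℕ, (1 / δ) ^ 4 ≤ Y0 := exists_nat_ge _
  refine ⟨Y0, ?_⟩
  intro T Y hT hY
  have hY1 : (1 / δ) ^ 4 ≤ (Y : ℝ) := hY0.trans (by exact_mod_cast hY)
  have hYpos : (0 : ℝ) < Y := lt_of_lt_of_le (by positivity) hY1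
  have hs4 : 1 / δ ≤ √(√(Y : ℝ)) := by
    apply Real.le_sqrt_of_sq_le
    apply Real.le_sqrt_of_sq_le
    calc ((1 / δ) ^ 2) ^ 2 = (1 / δ) ^ 4 := by ring
      _ ≤ (Y : ℝ) := hY1
  have hT4 : (T : ℝ) ^ m ≤ √(√(Y : ℝ)) := by
    apply Real.le_sqrt_of_sq_le
    apply Real.le_sqrt_of_sq_le
    calc (((T : ℝ) ^ m) ^ 2) ^ 2 = (T : ℝ) ^ (4 * m) := by
          rw [← pow_mul, ← pow_mul]
          congr 1
          ring
      _ ≤ Y := by exact_mod_cast hT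
  have e1 : √(√(Y : ℝ)) * √(√(Y : ℝ)) = √(Y : ℝ) := Real.mul_self_sqrt (Real.sqrt_nonneg _)
  have e2 : √(Y : ℝ) * √(Y : ℝ) = Y := Real.mul_self_sqrt hYpos.le
  have h1 : (T : ℝ) ^ m * (1 / δ) ≤ √(Y : ℝ) := by
    rw [← e1]
    exact mul_le_mul hT4 hs4 (by positivity) (Real.sqrt_nonneg _)
  calc (T : ℝ) ^ m * √(Y : ℝ) = δ * ((T : ℝ) ^ m * (1 / δ)) * √(Y : ℝ) := by
        field_simp
    _ ≤ δ * √(Y : ℝ) * √(Y : ℝ) := by gcongr
    _ = δ * Y := by rw [mul_assoc, e2]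

open Classical in
/-- **Moments over the sets without differences in `E`.** -/
theorem momF (c k e : ℕ) (hc : 1 ≤ c) (η : ℝ) (hη : 0 < η) (hη1 : η ≤ 1) (C : ℕ → ℝ)
    (hC : ∀ w, 0 ≤ C w) :
    ∃ (K0 y0 T0 : ℕ) (η' : ℝ), 0 < η' ∧ ∀ Y y T : ℕ, y0 ≤ y → y ^ K0 ≤ Y → T0 ≤ T →
      ∀ (Q : ℕ → ℕ → ℕ → Prop) (U : ℕ → ℕ → Prop), TS Q U c → (∀ p : ℕ, p.Prime → nuB (Q 0) p < p) →
      ∀ E : Finset ℕ, E.card ≤ e →
      (∀ t ∈ Icc 1 T, t ∉ E →
        ((((pz y).filter (fun p : ℕ => T < p ∧ CoG U p t)).card : ℕ) : ℝ) ≤ η' * T) →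
      ∀ q a : ℕ, (∀ p : ℕ, p.Prime → p ∣ q → ∀ i m, ¬ Q i p m) →
      ∀ (τ : ℕ → ℕ) (W : Finset ℕ), W ⊆ Icc 1 T →
      (∀ w m : ℕ, |(NT Q τ w W m : ℝ) - W.card * Vq (Q 0) w| ≤ C w) →
      |∑ n ∈ Icc 1 Y, (MF Q τ y E (k + 1) W (q * n + a) : ℝ) -
        Y * ((W.card * Vq (Q 0) y) ^ (k + 1) / (k + 1).factorial)| ≤
        η * Y * ((T * Vq (Q 0) y) ^ (k + 1) / (k + 1).factorial) + T ^ (k + 1) * √(Y : ℝ) := by
  obtain ⟨K0, x0, hK0, hfund⟩ := sys_fund ((k + 1) * c) (Nat.mul_pos (by omega) hc) (η / 4)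
    (by positivity)
  obtain ⟨w, η', T0, hη', hsing⟩ := sing_avgT c k e (η / 4) (by positivity) (by linarith) C hC
  refine ⟨K0, max x0 w, T0, η', hη', ?_⟩
  intro Y y T hy hyY hT Q U hQ hadm E hE hlarge q a hq τ W hW hwin
  have s0 := hsing T hT Q U hQ hadm y ((le_max_right _ _).trans hy) E hE hlarge τ W hW hwin
  obtain ⟨s1, s2⟩ := abs_le.1 s0
  have hmom : ∑ n ∈ Icc 1 Y, (MF Q τ y E (k + 1) W (q * n + a) : ℝ) =
      ∑ H ∈ PF E (k + 1) W, (((Icc 1 Y).filter (fun n => Sf (Qr (TH Q τ H) q a) y n)).card : ℝ) := by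
    have h1 : ∀ H ∈ PF E (k + 1) W, (((Icc 1 Y).filter (fun n => Sf (Qr (TH Q τ H) q a) y n)).card : ℝ) =
        ∑ n ∈ Icc 1 Y, if Sf (TH Q τ H) y (q * n + a) then (1 : ℝ) else 0 := by
      intro H _
      rw [Finset.sum_ite, Finset.sum_const_zero, add_zero, Finset.sum_const, nsmul_eq_mul, mul_one]
      rfl
    rw [Finset.sum_congr rfl h1, Finset.sum_comm]
    apply Finset.sum_congr rfl
    intro n _
    unfold MF
    rw [Finset.sum_ite, Finset.sum_const_zero, add_zero, Finset.sum_const, nsmul_eq_mul, mul_one]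
  rw [hmom]
  obtain ⟨S, hS⟩ : ∃ S, S = ∑ H ∈ PF E (k + 1) W, Vq (TH Q τ H) y := ⟨_, rfl⟩
  obtain ⟨Z, hZ⟩ : ∃ Z : ℝ, Z = (T * Vq (Q 0) y) ^ (k + 1) / (k + 1).factorial := ⟨_, rfl⟩
  obtain ⟨z, hz⟩ : ∃ z : ℝ, z = (W.card * Vq (Q 0) y) ^ (k + 1) / (k + 1).factorial := ⟨_, rfl⟩
  rw [← hS, ← hZ, ← hz] at s1 s2
  rw [← hZ, ← hz]
  have hV0 := Vq_nonneg (Q 0) y
  have hZ0 : 0 ≤ Z := by rw [hZ]; positivity
  have hY0 : (0 : ℝ) ≤ Y := Nat.cast_nonneg Y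
  have hWT : (W.card : ℝ) ≤ T := by
    have := card_le_card hW
    rw [Nat.card_Icc, Nat.add_sub_cancel] at this
    exact_mod_cast this
  have hzZ : z ≤ Z := by
    rw [hz, hZ]
    apply div_le_div_of_nonneg_right _ (by positivity)
    apply pow_le_pow_left₀ (by positivity)
    exact mul_le_mul_of_nonneg_right hWT hV0
  have h1 : |∑ H ∈ PF E (k + 1) W,
      (((Icc 1 Y).filter (fun n => Sf (Qr (TH Q τ H) q a) y n)).card : ℝ) - Y * S| ≤
      η / 4 * (Y * S) + T ^ (k + 1) * √(Y : ℝ) := by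
    have e : Y * S = ∑ H ∈ PF E (k + 1) W, (Y : ℝ) * Vq (TH Q τ H) y := by
      rw [hS, Finset.mul_sum]
    rw [e, ← Finset.sum_sub_distrib]
    refine (Finset.abs_sum_le_sum_abs _ _).trans ?_
    have h2 : ∀ H ∈ PF E (k + 1) W,
        |(((Icc 1 Y).filter (fun n => Sf (Qr (TH Q τ H) q a) y n)).card : ℝ) - Y * Vq (TH Q τ H) y| ≤
        η / 4 * (Y * Vq (TH Q τ H) y) + √(Y : ℝ) := by
      intro H hH
      rw [mem_PF] at hH
      have hper := perB_TH hQ τ H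
      rw [hH.1.2] at hper
      have hq' : ∀ p : ℕ, p.Prime → p ∣ q → ∀ m, ¬ TH Q τ H p m := by
        rintro p hp hpq m ⟨h, _, hh⟩
        exact hq p hp hpq _ _ hh
      have h3 := hfund Y y ((le_max_left _ _).trans hy) hyY (Qr (TH Q τ H) q a)
        (qr_per (TH Q τ H) _ hper q a hq') Y
      have e1 : ∏ p ∈ pz y, (1 - (nuB (Qr (TH Q τ H) q a) p : ℝ) / p) = Vq (TH Q τ H) y :=
        qr_Vq (TH Q τ H) _ hper q a y hq'
      rw [e1] at h3
      unfold Sf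
      convert h3
    refine (Finset.sum_le_sum h2).trans ?_
    rw [Finset.sum_add_distrib, ← Finset.mul_sum, Finset.sum_const, nsmul_eq_mul]
    have h3 : ((PF E (k + 1) W).card : ℝ) ≤ (T : ℝ) ^ (k + 1) := by
      have h4 : (PF E (k + 1) W).card ≤ (powersetCard (k + 1) W).card := card_filter_le _ _
      rw [card_powersetCard] at h4
      calc (((PF E (k + 1) W).card : ℕ) : ℝ) ≤ ((W.card.choose (k + 1) : ℕ) : ℝ) := by exact_mod_cast h4
        _ ≤ ((W.card ^ (k + 1) : ℕ) : ℝ) := by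
            exact_mod_cast Nat.choose_le_pow _ (k + 1)
        _ = (W.card : ℝ) ^ (k + 1) := by push_cast; rfl
        _ ≤ _ := pow_le_pow_left₀ (Nat.cast_nonneg _) hWT _
    have h4 := mul_le_mul_of_nonneg_right h3 (Real.sqrt_nonneg (Y : ℝ))
    linarith
  have h5 : |Y * S - Y * z| ≤ η / 4 * (Y * Z) := by
    rw [← mul_sub, abs_mul, abs_of_nonneg hY0]
    calc (Y : ℝ) * |S - z| ≤ Y * (η / 4 * Z) := mul_le_mul_of_nonneg_left (abs_le.2 ⟨s1, s2⟩) hY0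
      _ = _ := by ring
  have h6 : Y * S ≤ 2 * (Y * Z) := by
    have h7 := (abs_le.1 h5).2
    have h8 : 0 ≤ Y * Z := mul_nonneg hY0 hZ0
    have h9 : Y * z ≤ Y * Z := mul_le_mul_of_nonneg_left hzZ hY0
    nlinarith
  have h8 : 0 ≤ Y * Z := mul_nonneg hY0 hZ0
  have h9 := abs_sub_le (∑ H ∈ PF E (k + 1) W,
      (((Icc 1 Y).filter (fun n => Sf (Qr (TH Q τ H) q a) y n)).card : ℝ)) (Y * S) (Y * z)
  have h10 : η / 4 * (Y * S) ≤ η / 4 * (2 * (Y * Z)) :=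
    mul_le_mul_of_nonneg_left h6 (by positivity)
  have h11 : 0 ≤ η * (Y * Z) := by positivity
  calc _ ≤ _ := h9
    _ ≤ η / 4 * (2 * (Y * Z)) + T ^ (k + 1) * √(Y : ℝ) + η / 4 * (Y * Z) := by linarith
    _ ≤ _ := by linarith

/-! ### close pairs -/

/-- two types at the distance `t` -/
def P2 (Q : ℕ → ℕ → ℕ → Prop) (i j t p m : ℕ) : Prop := Q i p m ∨ Q j p (m + t)

variable {Q : ℕ → ℕ → ℕ → Prop} {U : ℕ → ℕ → Prop} {c : ℕ}

lemma P2_eq (Q : ℕ → ℕ → ℕ → Prop) (i j t : ℕ) (ht : 1 ≤ t) :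
    P2 Q i j t = TH Q (fun h => if h = 0 then i else j) {0, t} := by
  funext p m
  apply propext
  unfold P2 TH
  simp only [mem_insert, mem_singleton]
  constructor
  · rintro (h | h)
    · exact ⟨0, Or.inl rfl, by simpa using h⟩
    · exact ⟨t, Or.inr rfl, by rw [if_neg (by omega)]; exact h⟩
  · rintro ⟨h, h1 | h1, h2⟩
    · left
      subst h1
      simpa using h2
    · right
      subst h1
      rw [if_neg (by omega)] at h2
      exact h2

lemma perB_P2 (hQ : TS Q U c) (i j t : ℕ) (ht : 1 ≤ t) : PerB (P2 Q i j t) (2 * c) := by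
  rw [P2_eq Q i j t ht]
  have h := perB_TH hQ (fun h => if h = 0 then i else j) {0, t}
  have hcard : ({0, t} : Finset ℕ).card = 2 := by
    rw [card_pair]
    omega
  rwa [hcard] at h

/-- two sifted shifts at a distance in `E` -/
def Bad (Q : ℕ → ℕ → ℕ → Prop) (τ : ℕ → ℕ) (y : ℕ) (E W : Finset ℕ) (m : ℕ) : Prop :=
  ∃ a ∈ W, ∃ b ∈ W, a < b ∧ b - a ∈ E ∧ Sf (Q (τ a)) y (m + a) ∧ Sf (Q (τ b)) y (m + b)

open Classical in
/-- **Close pairs are rare.** -/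
theorem bad_count (c e : ℕ) (hc : 1 ≤ c) : ∃ K0 y0 : ℕ, ∀ Y y T : ℕ, y0 ≤ y → y ^ K0 ≤ Y →
    ∀ (Q : ℕ → ℕ → ℕ → Prop) (U : ℕ → ℕ → Prop), TS Q U c → ∀ E : Finset ℕ, E.card ≤ e →
    ∀ η : ℝ, 0 ≤ η → (∀ t ∈ E, 1 ≤ t → ∀ i j, Vq (P2 Q i j t) y ≤ η * Vq (Q 0) y) →
    ∀ q a : ℕ, (∀ p : ℕ, p.Prime → p ∣ q → ∀ i m, ¬ Q i p m) →
    ∀ (τ : ℕ → ℕ) (W : Finset ℕ), W ⊆ Icc 1 T →
      (((Icc 1 Y).filter (fun n => Bad Q τ y E W (q * n + a))).card : ℝ) ≤
        e * T * (2 * (Y * (η * Vq (Q 0) y)) + √(Y : ℝ)) := by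
  obtain ⟨K0, y0, hK0, hfund⟩ := sys_fund (2 * c) (by omega) 1 one_pos
  refine ⟨K0, y0, ?_⟩
  intro Y y T hy hyY Q U hQ E hE η hη hpair q a hq τ W hW
  have hsub : (Icc 1 Y).filter (fun n => Bad Q τ y E W (q * n + a)) ⊆
      (W ×ˢ (E.filter (fun t => 1 ≤ t))).biUnion (fun x => (Icc 1 Y).filter
        (fun n => Sf (Qr (P2 Q (τ x.1) (τ (x.1 + x.2)) x.2) q (a + x.1)) y n)) := by
    intro n hn
    rw [mem_filter] at hn
    obtain ⟨hn1, u, hu, v, hv, huv, ht, h1, h2⟩ := hn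
    rw [mem_biUnion]
    refine ⟨(u, v - u), ?_, ?_⟩
    · rw [mem_product, mem_filter]
      exact ⟨hu, ht, by simp only; omega⟩
    · rw [mem_filter]
      refine ⟨hn1, ?_⟩
      intro p hp
      simp only
      unfold Qr P2
      rw [show u + (v - u) = v by omega, show q * n + (a + u) + (v - u) = q * n + a + v by omega,
        show q * n + (a + u) = q * n + a + u by ring]
      rintro (h3 | h3)
      · exact h1 p hp h3
      · exact h2 p hp h3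
  have hV0 := Vq_nonneg (Q 0) y
  have hY0 : (0 : ℝ) ≤ Y := Nat.cast_nonneg Y
  have hterm : ∀ x ∈ W ×ˢ (E.filter (fun t => 1 ≤ t)), (((Icc 1 Y).filter
        (fun n => Sf (Qr (P2 Q (τ x.1) (τ (x.1 + x.2)) x.2) q (a + x.1)) y n)).card : ℝ) ≤
      2 * (Y * (η * Vq (Q 0) y)) + √(Y : ℝ) := by
    intro x hx
    rw [mem_product, mem_filter] at hx
    have hper := perB_P2 hQ (τ x.1) (τ (x.1 + x.2)) x.2 hx.2.2
    have hq' : ∀ p : ℕ, p.Prime → p ∣ q → ∀ m, ¬ P2 Q (τ x.1) (τ (x.1 + x.2)) x.2 p m := by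
      rintro p hp hpq m (h | h)
      · exact hq p hp hpq _ _ h
      · exact hq p hp hpq _ _ h
    have h3 := hfund Y y hy hyY (Qr (P2 Q (τ x.1) (τ (x.1 + x.2)) x.2) q (a + x.1))
      (qr_per _ _ hper q (a + x.1) hq') Y
    have e1 : ∏ p ∈ pz y, (1 - (nuB (Qr (P2 Q (τ x.1) (τ (x.1 + x.2)) x.2) q (a + x.1)) p : ℝ) / p) =
        Vq (P2 Q (τ x.1) (τ (x.1 + x.2)) x.2) y := qr_Vq _ _ hper q (a + x.1) y hq'
    rw [e1] at h3
    have h5 := hpair x.2 hx.2.1 hx.2.2 (τ x.1) (τ (x.1 + x.2))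
    have h6 := mul_le_mul_of_nonneg_left h5 hY0
    have h7 : |(((Icc 1 Y).filter
        (fun n => Sf (Qr (P2 Q (τ x.1) (τ (x.1 + x.2)) x.2) q (a + x.1)) y n)).card : ℝ) -
        Y * Vq (P2 Q (τ x.1) (τ (x.1 + x.2)) x.2) y| ≤
        1 * (Y * Vq (P2 Q (τ x.1) (τ (x.1 + x.2)) x.2) y) + √(Y : ℝ) := by
      unfold Sf
      convert h3
    have h8 := (abs_le.1 h7).2
    linarith
  have hWT : (W.card : ℝ) ≤ T := by
    have := card_le_card hW
    rw [Nat.card_Icc, Nat.add_sub_cancel] at this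
    exact_mod_cast this
  have h0 : 0 ≤ 2 * (Y * (η * Vq (Q 0) y)) + √(Y : ℝ) := by positivity
  calc (((Icc 1 Y).filter (fun n => Bad Q τ y E W (q * n + a))).card : ℝ) ≤
      (((W ×ˢ (E.filter (fun t => 1 ≤ t))).biUnion (fun x => (Icc 1 Y).filter
        (fun n => Sf (Qr (P2 Q (τ x.1) (τ (x.1 + x.2)) x.2) q (a + x.1)) y n))).card : ℝ) := by
        exact_mod_cast card_le_card hsub
    _ ≤ ∑ x ∈ W ×ˢ (E.filter (fun t => 1 ≤ t)), (((Icc 1 Y).filter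
        (fun n => Sf (Qr (P2 Q (τ x.1) (τ (x.1 + x.2)) x.2) q (a + x.1)) y n)).card : ℝ) := by
        exact_mod_cast card_biUnion_le
    _ ≤ (W ×ˢ (E.filter (fun t => 1 ≤ t))).card • (2 * (Y * (η * Vq (Q 0) y)) + √(Y : ℝ)) :=
        Finset.sum_le_card_nsmul _ _ _ hterm
    _ ≤ e * T * (2 * (Y * (η * Vq (Q 0) y)) + √(Y : ℝ)) := by
        rw [nsmul_eq_mul, card_product]
        apply mul_le_mul_of_nonneg_right _ h0
        have h1 : (E.filter (fun t => 1 ≤ t)).card ≤ e := (card_filter_le _ _).trans hE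
        have h2 : (((E.filter (fun t => 1 ≤ t)).card : ℕ) : ℝ) ≤ e := by exact_mod_cast h1
        push_cast
        rw [mul_comm (e : ℝ)]
        exact mul_le_mul hWT h2 (Nat.cast_nonneg _) (Nat.cast_nonneg _)

/-! ### large subsets without differences in `E` -/

lemma EF_mono {E H H' : Finset ℕ} (h : EF E H) (hs : H' ⊆ H) : EF E H' :=
  fun a ha b hb hab => h a (hs ha) b (hs hb) hab

open Classical in
lemma EF_sub (E S : Finset ℕ) : ∃ F ⊆ S, EF E F ∧ S.card ≤ (2 * E.card + 1) * F.card := by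
  obtain ⟨F, hF, hmax⟩ := Finset.exists_max_image (S.powerset.filter (EF E)) (fun F => F.card)
    ⟨∅, by
      rw [mem_filter]
      exact ⟨empty_mem_powerset _, fun a ha => by simp at ha⟩⟩
  rw [mem_filter, mem_powerset] at hF
  refine ⟨F, hF.1, hF.2, ?_⟩
  have hsub : S ⊆ F ∪ ((F ×ˢ E).image (fun x => x.1 + x.2) ∪ (F ×ˢ E).image (fun x => x.1 - x.2)) := by
    intro s hs
    by_cases hsF : s ∈ F
    · exact mem_union_left _ hsF
    · apply mem_union_right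
      have hnot : ¬ EF E (insert s F) := by
        intro hcon
        have h1 := hmax (insert s F) (by
          rw [mem_filter, mem_powerset]
          exact ⟨insert_subset hs hF.1, hcon⟩)
        rw [card_insert_of_notMem hsF] at h1
        omega
      unfold EF at hnot
      push Not at hnot
      obtain ⟨a, ha, b, hb, hab, ht⟩ := hnot
      rw [mem_insert] at ha hb
      rw [mem_union, mem_image, mem_image]
      rcases ha with rfl | ha
      · rcases hb with rfl | hb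
        · omega
        · right
          exact ⟨(b, b - a), mem_product.2 ⟨hb, ht⟩, by simp only; omega⟩
      · rcases hb with rfl | hb
        · left
          exact ⟨(a, b - a), mem_product.2 ⟨ha, ht⟩, by simp only; omega⟩
        · exact absurd ht (hF.2 a ha b hb hab)
  have h1 := card_le_card hsub
  have h2 := card_union_le F ((F ×ˢ E).image (fun x => x.1 + x.2) ∪ (F ×ˢ E).image (fun x => x.1 - x.2))
  have h3 := card_union_le ((F ×ˢ E).image (fun x => x.1 + x.2)) ((F ×ˢ E).image (fun x => x.1 - x.2))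
  have h4 : ((F ×ˢ E).image (fun x => x.1 + x.2)).card ≤ F.card * E.card :=
    card_image_le.trans (card_product F E).le
  have h5 : ((F ×ˢ E).image (fun x => x.1 - x.2)).card ≤ F.card * E.card :=
    card_image_le.trans (card_product F E).le
  have h6 : (2 * E.card + 1) * F.card = F.card + (F.card * E.card + F.card * E.card) := by ring
  rw [h6]
  exact h1.trans (h2.trans (by omega))

lemma pow_le_choose (x m : ℕ) : (x : ℝ) ^ m ≤ (2 * m : ℝ) ^ m + 2 ^ m * m.factorial * x.choose m := by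
  rcases Nat.lt_or_ge x (2 * m) with h | h
  · have h1 : (x : ℝ) ^ m ≤ (2 * m : ℝ) ^ m := by
      apply pow_le_pow_left₀ (Nat.cast_nonneg _)
      exact_mod_cast h.le
    have h2 : (0 : ℝ) ≤ 2 ^ m * m.factorial * x.choose m := by positivity
    linarith
  · have h1 : (x + 1 - m) ^ m ≤ x.descFactorial m := Nat.pow_sub_le_descFactorial x m
    rw [Nat.descFactorial_eq_factorial_mul_choose] at h1
    have h2 : x ≤ 2 * (x + 1 - m) := by omega
    have h3 : x ^ m ≤ 2 ^ m * (m.factorial * x.choose m) := by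
      calc x ^ m ≤ (2 * (x + 1 - m)) ^ m := Nat.pow_le_pow_left h2 m
        _ = 2 ^ m * (x + 1 - m) ^ m := mul_pow _ _ _
        _ ≤ _ := Nat.mul_le_mul_left _ h1
    have h4 : (x : ℝ) ^ m ≤ 2 ^ m * (m.factorial * x.choose m) := by exact_mod_cast h3
    have h5 : (0 : ℝ) ≤ (2 * m : ℝ) ^ m := by positivity
    linarith

open Classical in
/-- the squares of the binomial coefficients are bounded by the moments of twice the order -/
lemma NT_sq (e k : ℕ) : ∃ C : ℝ, 1 ≤ C ∧ ∀ (Q : ℕ → ℕ → ℕ → Prop) (τ : ℕ → ℕ) (y : ℕ) (E W : Finset ℕ) (m : ℕ),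
    E.card ≤ e → ((NT Q τ y W m).choose k : ℝ) ^ 2 ≤ C * (1 + MF Q τ y E (2 * k) W m) := by
  obtain ⟨C0, hC0⟩ : ∃ C0 : ℝ, C0 = (2 * (2 * k : ℕ) : ℝ) ^ (2 * k) + 2 ^ (2 * k) * (2 * k).factorial := ⟨_, rfl⟩
  have hC01 : 1 ≤ C0 := by
    rw [hC0]
    have h1 : (1 : ℝ) ≤ 2 ^ (2 * k) := one_le_pow₀ (by norm_num)
    have h2 : (1 : ℝ) ≤ (2 * k).factorial := by exact_mod_cast Nat.factorial_pos _
    have h3 : (1 : ℝ) ≤ 2 ^ (2 * k) * (2 * k).factorial := one_le_mul_of_one_le_of_one_le h1 h2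
    have h4 : (0 : ℝ) ≤ (2 * (2 * k : ℕ) : ℝ) ^ (2 * k) := by positivity
    linarith
  refine ⟨(2 * e + 1) ^ (2 * k) * C0, ?_, ?_⟩
  · apply one_le_mul_of_one_le_of_one_le _ hC01
    apply one_le_pow₀
    have : (0 : ℝ) ≤ e := Nat.cast_nonneg e
    linarith
  intro Q τ y E W m hE
  obtain ⟨S, hS⟩ : ∃ S, S = W.filter (fun h => Sf (Q (τ h)) y (m + h)) := ⟨_, rfl⟩
  have hNT : NT Q τ y W m = S.card := by rw [hS]; rfl
  obtain ⟨F, hFS, hFE, hcard⟩ := EF_sub E S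
  have h1 : (((NT Q τ y W m).choose k : ℕ) : ℝ) ≤ (S.card : ℝ) ^ k := by
    rw [hNT]
    exact_mod_cast Nat.choose_le_pow _ k
  have h2 : (((NT Q τ y W m).choose k : ℕ) : ℝ) ^ 2 ≤ (S.card : ℝ) ^ (2 * k) := by
    rw [mul_comm 2 k, pow_mul]
    exact pow_le_pow_left₀ (Nat.cast_nonneg _) h1 2
  have h3 : (S.card : ℝ) ≤ (2 * e + 1) * F.card := by
    have h4 : S.card ≤ (2 * e + 1) * F.card := hcard.trans (Nat.mul_le_mul_right _ (by omega))
    exact_mod_cast h4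
  have h4 : (S.card : ℝ) ^ (2 * k) ≤ (2 * e + 1) ^ (2 * k) * (F.card : ℝ) ^ (2 * k) := by
    rw [← mul_pow]
    exact pow_le_pow_left₀ (Nat.cast_nonneg _) h3 _
  have h5 := pow_le_choose F.card (2 * k)
  have h6 : F.card.choose (2 * k) ≤ MF Q τ y E (2 * k) W m := by
    rw [← card_powersetCard]
    unfold MF
    apply card_le_card
    intro H hH
    rw [mem_powersetCard] at hH
    have hHS : H ⊆ S := hH.1.trans hFS
    rw [mem_filter, mem_PF]
    refine ⟨⟨⟨?_, hH.2⟩, EF_mono hFE hH.1⟩, ?_⟩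
    · intro h hh
      have := hHS hh
      rw [hS, mem_filter] at this
      exact this.1
    · rw [sf_TH]
      intro h hh
      have := hHS hh
      rw [hS, mem_filter] at this
      exact this.2
  have h6' : ((F.card.choose (2 * k) : ℕ) : ℝ) ≤ MF Q τ y E (2 * k) W m := by exact_mod_cast h6
  have h7 : (F.card : ℝ) ^ (2 * k) ≤ C0 * (1 + MF Q τ y E (2 * k) W m) := by
    have h8 : (0 : ℝ) ≤ (2 * (2 * k : ℕ) : ℝ) ^ (2 * k) := by positivity
    have h9 : (0 : ℝ) ≤ 2 ^ (2 * k) * ((2 * k).factorial : ℝ) := by positivity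
    have h10 : (0 : ℝ) ≤ MF Q τ y E (2 * k) W m := Nat.cast_nonneg _
    have h11 := mul_le_mul_of_nonneg_left h6' h9
    rw [hC0]
    have h12 := mul_nonneg h8 h10
    calc (F.card : ℝ) ^ (2 * k) ≤ _ := h5
      _ ≤ _ := by linarith
  calc _ ≤ _ := h2
    _ ≤ _ := h4
    _ ≤ (2 * e + 1) ^ (2 * k) * (C0 * (1 + MF Q τ y E (2 * k) W m)) :=
      mul_le_mul_of_nonneg_left h7 (by positivity)
    _ = _ := by ring

open Classical in
lemma MF_le (Q : ℕ → ℕ → ℕ → Prop) (τ : ℕ → ℕ) (y : ℕ) (E : Finset ℕ) (k : ℕ) (W : Finset ℕ) (m : ℕ) :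
    MF Q τ y E k W m ≤ (NT Q τ y W m).choose k := by
  unfold MF NT
  rw [← card_powersetCard]
  apply card_le_card
  intro H hH
  rw [mem_filter, mem_PF, sf_TH] at hH
  rw [mem_powersetCard]
  exact ⟨fun h hh => mem_filter.2 ⟨hH.1.1.1 hh, hH.2 h hh⟩, hH.1.1.2⟩

open Classical in
lemma MF_eq (Q : ℕ → ℕ → ℕ → Prop) (τ : ℕ → ℕ) (y : ℕ) (E : Finset ℕ) (k : ℕ) (W : Finset ℕ) (m : ℕ)
    (hb : ¬ Bad Q τ y E W m) : MF Q τ y E k W m = (NT Q τ y W m).choose k := by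
  apply le_antisymm (MF_le Q τ y E k W m)
  unfold MF NT
  rw [← card_powersetCard]
  apply card_le_card
  intro H hH
  rw [mem_powersetCard] at hH
  rw [mem_filter, mem_PF, sf_TH]
  refine ⟨⟨⟨fun h hh => (mem_filter.1 (hH.1 hh)).1, hH.2⟩, ?_⟩, fun h hh => (mem_filter.1 (hH.1 hh)).2⟩
  intro a ha b hb' hab ht
  apply hb
  have h1 := mem_filter.1 (hH.1 ha)
  have h2 := mem_filter.1 (hH.1 hb')
  exact ⟨a, h1.1, b, h2.1, hab, ht, h1.2, h2.2⟩

open Classical in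
/-- **Binomial moments** of the number of sifted elements in a typed window. -/
theorem momentT (c k e : ℕ) (hc : 1 ≤ c) (x0 : ℝ) (hx0 : 0 ≤ x0) (η : ℝ) (hη : 0 < η) (C : ℕ → ℝ)
    (hC : ∀ w, 0 ≤ C w) :
    ∃ (K0 y0 T0 R0 : ℕ) (η' η2 : ℝ), 0 < η' ∧ 0 < η2 ∧ ∀ Y y T : ℕ, y0 ≤ y → y ^ K0 ≤ Y → T0 ≤ T →
      T ^ R0 ≤ Y →
      ∀ (Q : ℕ → ℕ → ℕ → Prop) (U : ℕ → ℕ → Prop), TS Q U c → (∀ p : ℕ, p.Prime → nuB (Q 0) p < p) →
      T * Vq (Q 0) y ≤ x0 →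
      ∀ E : Finset ℕ, E.card ≤ e →
      (∀ t ∈ Icc 1 T, t ∉ E →
        ((((pz y).filter (fun p : ℕ => T < p ∧ CoG U p t)).card : ℕ) : ℝ) ≤ η' * T) →
      (∀ t ∈ E, 1 ≤ t → ∀ i j, Vq (P2 Q i j t) y ≤ η2 * Vq (Q 0) y) →
      ∀ q a : ℕ, (∀ p : ℕ, p.Prime → p ∣ q → ∀ i m, ¬ Q i p m) →
      ∀ (τ : ℕ → ℕ) (W : Finset ℕ), W ⊆ Icc 1 T →
      (∀ w m : ℕ, |(NT Q τ w W m : ℝ) - W.card * Vq (Q 0) w| ≤ C w) →
      |∑ n ∈ Icc 1 Y, ((NT Q τ y W (q * n + a)).choose (k + 1) : ℝ) -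
        Y * ((W.card * Vq (Q 0) y) ^ (k + 1) / (k + 1).factorial)| ≤ η * Y := by
  obtain ⟨X1, hX1⟩ : ∃ X1 : ℝ, X1 = (1 + x0) ^ (2 * (k + 1)) := ⟨_, rfl⟩
  have hX11 : 1 ≤ X1 := by rw [hX1]; exact one_le_pow₀ (by linarith)
  obtain ⟨C2, hC2, hsq⟩ := NT_sq e (k + 1)
  obtain ⟨η1, hη1⟩ : ∃ η1 : ℝ, η1 = min 1 (η / (8 * X1)) := ⟨_, rfl⟩
  have hη10 : 0 < η1 := by rw [hη1]; positivity
  have hη11 : η1 ≤ 1 := by rw [hη1]; exact min_le_left _ _
  have hη12 : η1 * X1 ≤ η / 8 := by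
    have : η1 ≤ η / (8 * X1) := by rw [hη1]; exact min_le_right _ _
    rw [le_div_iff₀ (by positivity)] at this
    linarith
  obtain ⟨lam, hlam⟩ : ∃ lam : ℝ, lam = η / (4 * (C2 * (1 + 3 * X1))) := ⟨_, rfl⟩
  have hlam0 : 0 < lam := by rw [hlam]; positivity
  obtain ⟨K1, y1, T1, e1, he1, hm1⟩ := momF c k e hc η1 hη10 hη11 C hC
  obtain ⟨K2, y2, T2, e2, he2, hm2⟩ := momF c (2 * k + 1) e hc 1 one_pos le_rfl C hC
  obtain ⟨K3, y3, hbad⟩ := bad_count c e hc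
  obtain ⟨Y1, hY1⟩ := small_err (2 * (k + 1)) (min 1 (η / 8)) (by positivity)
  obtain ⟨δ, hδ⟩ : ∃ δ : ℝ, δ = lam * η := ⟨_, rfl⟩
  have hδ0 : 0 < δ := by rw [hδ]; positivity
  obtain ⟨Y2, hY2⟩ := small_err 1 (δ / (2 * (e + 1))) (by positivity)
  obtain ⟨η2, hη2⟩ : ∃ η2 : ℝ, η2 = δ / (4 * (e + 1) * (x0 + 1)) := ⟨_, rfl⟩
  have hη20 : 0 < η2 := by rw [hη2]; positivity
  refine ⟨K1 + K2 + K3 + 1, y1 + y2 + y3 + Y1 + Y2 + 1, T1 + T2 + 1, 4 * (2 * (k + 1)), min e1 e2, η2,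
    by positivity, hη20, ?_⟩
  intro Y y T hy hyY hT hTR Q U hQ hadm hTx E hE hlarge hpair q a hq τ W hW hwin
  have hV0 := Vq_nonneg (Q 0) y
  have hY0 : (0 : ℝ) ≤ Y := Nat.cast_nonneg Y
  have hTr : (0 : ℝ) ≤ T := Nat.cast_nonneg T
  have hy1 : 1 ≤ y := by omega
  have hT1 : 1 ≤ T := by omega
  have hyY' : y ≤ Y := by
    calc y = y ^ 1 := (pow_one y).symm
      _ ≤ y ^ (K1 + K2 + K3 + 1) := Nat.pow_le_pow_right hy1 (by omega)
      _ ≤ Y := hyY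
  have hWT : (W.card : ℝ) ≤ T := by
    have := card_le_card hW
    rw [Nat.card_Icc, Nat.add_sub_cancel] at this
    exact_mod_cast this
  have hTV0 : 0 ≤ T * Vq (Q 0) y := by positivity
  have hl1 : ∀ t ∈ Icc 1 T, t ∉ E →
        ((((pz y).filter (fun p : ℕ => T < p ∧ CoG U p t)).card : ℕ) : ℝ) ≤ e1 * T := fun t ht htE =>
    (hlarge t ht htE).trans (mul_le_mul_of_nonneg_right (min_le_left _ _) hTr)
  have hl2 : ∀ t ∈ Icc 1 T, t ∉ E →
        ((((pz y).filter (fun p : ℕ => T < p ∧ CoG U p t)).card : ℕ) : ℝ) ≤ e2 * T := fun t ht htE =>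
    (hlarge t ht htE).trans (mul_le_mul_of_nonneg_right (min_le_right _ _) hTr)
  have m1 := hm1 Y y T (by omega) ((Nat.pow_le_pow_right hy1 (by omega)).trans hyY) (by omega) Q U hQ hadm
    E hE hl1 q a hq τ W hW hwin
  have m2 := hm2 Y y T (by omega) ((Nat.pow_le_pow_right hy1 (by omega)).trans hyY) (by omega) Q U hQ hadm
    E hE hl2 q a hq τ W hW hwin
  have m3 := hbad Y y T (by omega) ((Nat.pow_le_pow_right hy1 (by omega)).trans hyY) Q U hQ E hE η2 hη20.le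
    hpair q a hq τ W hW
  have hbig := hY1 T Y hTR (by omega)
  have hone := hY2 T Y ((Nat.pow_le_pow_right hT1 (by omega)).trans hTR) (by omega)
  rw [pow_one] at hone
  have hTr1 : (1 : ℝ) ≤ T := by exact_mod_cast hT1
  have hsqY := Real.sqrt_nonneg (Y : ℝ)
  -- bounds for the main terms
  have hpowle : ∀ j : ℕ, j ≤ 2 * (k + 1) → (T * Vq (Q 0) y) ^ j / (j.factorial : ℝ) ≤ X1 := by
    intro j hj
    have hf1 : (1 : ℝ) ≤ j.factorial := by exact_mod_cast Nat.factorial_pos j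
    calc (T * Vq (Q 0) y) ^ j / (j.factorial : ℝ) ≤ (T * Vq (Q 0) y) ^ j :=
          div_le_self (by positivity) hf1
      _ ≤ (1 + x0) ^ j := pow_le_pow_left₀ hTV0 (by linarith) _
      _ ≤ (1 + x0) ^ (2 * (k + 1)) := pow_le_pow_right₀ (by linarith) hj
      _ = X1 := hX1.symm
  have hWV : (W.card : ℝ) * Vq (Q 0) y ≤ T * Vq (Q 0) y := mul_le_mul_of_nonneg_right hWT hV0
  have hT2k : (T : ℝ) ^ (k + 1) * √(Y : ℝ) ≤ η / 8 * Y := by
    calc (T : ℝ) ^ (k + 1) * √(Y : ℝ) ≤ (T : ℝ) ^ (2 * (k + 1)) * √(Y : ℝ) :=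
          mul_le_mul_of_nonneg_right (pow_le_pow_right₀ hTr1 (by omega)) hsqY
      _ ≤ min 1 (η / 8) * Y := hbig
      _ ≤ η / 8 * Y := mul_le_mul_of_nonneg_right (min_le_right _ _) hY0
  have hT2k' : (T : ℝ) ^ (2 * k + 1 + 1) * √(Y : ℝ) ≤ 1 * Y := by
    rw [show 2 * k + 1 + 1 = 2 * (k + 1) by ring]
    exact hbig.trans (mul_le_mul_of_nonneg_right (min_le_left _ _) hY0)
  have m1' : |∑ n ∈ Icc 1 Y, (MF Q τ y E (k + 1) W (q * n + a) : ℝ) -
      Y * ((W.card * Vq (Q 0) y) ^ (k + 1) / (k + 1).factorial)| ≤ η / 4 * Y := by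
    refine m1.trans ?_
    have h1 : η1 * Y * ((T * Vq (Q 0) y) ^ (k + 1) / ((k + 1).factorial : ℝ)) ≤ η / 8 * Y := by
      calc η1 * Y * ((T * Vq (Q 0) y) ^ (k + 1) / ((k + 1).factorial : ℝ)) ≤ η1 * Y * X1 :=
            mul_le_mul_of_nonneg_left (hpowle (k + 1) (by omega)) (by positivity)
        _ = η1 * X1 * Y := by ring
        _ ≤ _ := mul_le_mul_of_nonneg_right hη12 hY0
    linarith
  have m2' : ∑ n ∈ Icc 1 Y, (MF Q τ y E (2 * (k + 1)) W (q * n + a) : ℝ) ≤ 3 * X1 * Y := by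
    have h1 := (abs_le.1 m2).2
    rw [show 2 * k + 1 + 1 = 2 * (k + 1) by ring] at h1 hT2k'
    have h2 := hpowle (2 * (k + 1)) le_rfl
    have h3 : (W.card * Vq (Q 0) y) ^ (2 * (k + 1)) / ((2 * (k + 1)).factorial : ℝ) ≤ X1 := by
      refine le_trans ?_ h2
      apply div_le_div_of_nonneg_right _ (by positivity)
      exact pow_le_pow_left₀ (by positivity) hWV _
    have h4 := mul_le_mul_of_nonneg_left h2 hY0
    have h5 := mul_le_mul_of_nonneg_left h3 hY0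
    have h6 : (1 : ℝ) * Y ≤ X1 * Y := mul_le_mul_of_nonneg_right hX11 hY0
    linarith
  have m3' : (((Icc 1 Y).filter (fun n => Bad Q τ y E W (q * n + a))).card : ℝ) ≤ δ * Y := by
    refine m3.trans ?_
    have he0 : (0 : ℝ) ≤ e := Nat.cast_nonneg e
    have h1 : e * T * (2 * (Y * (η2 * Vq (Q 0) y))) ≤ δ / 2 * Y := by
      calc e * T * (2 * (Y * (η2 * Vq (Q 0) y))) = 2 * e * η2 * Y * (T * Vq (Q 0) y) := by ring
        _ ≤ 2 * (e + 1) * η2 * Y * (x0 + 1) := by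
          apply mul_le_mul _ (by linarith) hTV0 (by positivity)
          apply mul_le_mul_of_nonneg_right _ hY0
          apply mul_le_mul_of_nonneg_right _ hη20.le
          linarith
        _ = δ / 2 * Y := by
          rw [hη2]
          field_simp
          ring
    have h2 : e * T * √(Y : ℝ) ≤ δ / 2 * Y := by
      calc e * T * √(Y : ℝ) = e * (T * √(Y : ℝ)) := by ring
        _ ≤ (e + 1) * (δ / (2 * (e + 1)) * Y) := by
          apply mul_le_mul (by linarith) hone (by positivity) (by positivity)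
        _ = δ / 2 * Y := by field_simp
    calc e * T * (2 * (Y * (η2 * Vq (Q 0) y)) + √(Y : ℝ)) =
        e * T * (2 * (Y * (η2 * Vq (Q 0) y))) + e * T * √(Y : ℝ) := by ring
      _ ≤ δ * Y := by linarith
  -- comparison of the binomial coefficients with `MF`
  have hdiff0 : ∑ n ∈ Icc 1 Y, (MF Q τ y E (k + 1) W (q * n + a) : ℝ) ≤
      ∑ n ∈ Icc 1 Y, ((NT Q τ y W (q * n + a)).choose (k + 1) : ℝ) := by
    apply Finset.sum_le_sum
    intro n _
    exact_mod_cast MF_le Q τ y E (k + 1) W (q * n + a)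
  have hdiff : ∑ n ∈ Icc 1 Y, ((NT Q τ y W (q * n + a)).choose (k + 1) : ℝ) ≤
      ∑ n ∈ Icc 1 Y, (MF Q τ y E (k + 1) W (q * n + a) : ℝ) +
      (lam * (C2 * (Y + 3 * X1 * Y)) + 1 / (4 * lam) * (δ * Y)) := by
    have h1 : ∀ n ∈ Icc 1 Y, ((NT Q τ y W (q * n + a)).choose (k + 1) : ℝ) ≤
        (MF Q τ y E (k + 1) W (q * n + a) : ℝ) +
        (lam * (C2 * (1 + MF Q τ y E (2 * (k + 1)) W (q * n + a))) +
          1 / (4 * lam) * (if Bad Q τ y E W (q * n + a) then 1 else 0)) := by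
      intro n _
      have h0 : (0 : ℝ) ≤ MF Q τ y E (2 * (k + 1)) W (q * n + a) := Nat.cast_nonneg _
      by_cases hb : Bad Q τ y E W (q * n + a)
      · rw [if_pos hb, mul_one]
        have h2 := hsq Q τ y E W (q * n + a) hE
        obtain ⟨x, hx⟩ : ∃ x : ℝ, x = ((NT Q τ y W (q * n + a)).choose (k + 1) : ℝ) := ⟨_, rfl⟩
        rw [← hx] at h2 ⊢
        have h3 := mul_le_mul_of_nonneg_left h2 hlam0.le
        have h4 : x ≤ lam * x ^ 2 + 1 / (4 * lam) := by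
          have h5 : 0 ≤ (2 * lam * x - 1) ^ 2 := sq_nonneg _
          have h6 : x = (4 * lam * x) / (4 * lam) := by field_simp
          have h7 : lam * x ^ 2 + 1 / (4 * lam) = (4 * lam ^ 2 * x ^ 2 + 1) / (4 * lam) := by
            field_simp
          rw [h7, h6]
          apply div_le_div_of_nonneg_right _ (by positivity)
          have h8 : 4 * lam * x / (4 * lam) = x := by field_simp
          rw [h8]
          nlinarith
        have h5 : (0 : ℝ) ≤ MF Q τ y E (k + 1) W (q * n + a) := Nat.cast_nonneg _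
        linarith
      · rw [if_neg hb, mul_zero, add_zero, MF_eq Q τ y E (k + 1) W _ hb]
        have : 0 ≤ lam * (C2 * (1 + MF Q τ y E (2 * (k + 1)) W (q * n + a))) := by positivity
        linarith
    refine (Finset.sum_le_sum h1).trans ?_
    rw [Finset.sum_add_distrib, Finset.sum_add_distrib]
    apply add_le_add le_rfl
    apply add_le_add
    · rw [← Finset.mul_sum, ← Finset.mul_sum, Finset.sum_add_distrib, Finset.sum_const, Nat.card_Icc,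
        Nat.add_sub_cancel, nsmul_eq_mul, mul_one]
      apply mul_le_mul_of_nonneg_left _ hlam0.le
      apply mul_le_mul_of_nonneg_left _ (by linarith)
      linarith
    · rw [← Finset.mul_sum, Finset.sum_ite, Finset.sum_const_zero, add_zero, Finset.sum_const, nsmul_eq_mul,
        mul_one]
      exact mul_le_mul_of_nonneg_left m3' (by positivity)
  have hsmall1 : lam * (C2 * (Y + 3 * X1 * Y)) = η / 4 * Y := by
    rw [hlam]
    field_simp
  have hsmall2 : 1 / (4 * lam) * (δ * Y) = η / 4 * Y := by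
    rw [hδ]
    field_simp
  rw [hsmall1, hsmall2] at hdiff
  obtain ⟨m1a, m1b⟩ := abs_le.1 m1'
  have hηY : 0 ≤ η * Y := by positivity
  rw [abs_le]
  constructor <;> linarith

end Pool.Agent.U98.TY
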