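import Pool.Agent.U98.TY.A3

set_option autoImplicit false

/-!
# The Poisson law for typed systems, windows and cells
-/

namespace Pool.Agent.U98.TY

open Finset Filter Pool.Agent.H373R2.T7 Pool.Agent.W123.RP Pool.Agent.W123.RU Pool.Agent.TH464.PO
open Pool.Agent.R463.PP (Qr qr_per qr_Vq cell cell_inj cell_card cell_bounds cell_disj WS WS_card WS_sub
  window0 Nc HL)

open Classical in
/-- **The Poisson law for sets of shifts**, along progressions, for typed systems. -/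
theorem lawT (c e : ℕ) (hc : 1 ≤ c) (x0 ε : ℝ) (hx0 : 0 ≤ x0) (hε : 0 < ε) (C : ℕ → ℝ) (hC : ∀ w, 0 ≤ C w) :
    ∃ (K0 y0 T0 R0 : ℕ) (η' η2 : ℝ), 0 < η' ∧ 0 < η2 ∧ ∀ Y y T : ℕ, y0 ≤ y → y ^ K0 ≤ Y → T0 ≤ T →
      T ^ R0 ≤ Y →
      ∀ (Q : ℕ → ℕ → ℕ → Prop) (U : ℕ → ℕ → Prop), TS Q U c → (∀ p : ℕ, p.Prime → nuB (Q 0) p < p) →
      T * Vq (Q 0) y ≤ x0 →
      ∀ E : Finset ℕ, E.card ≤ e →
      (∀ t ∈ Icc 1 T, t ∉ E →
        ((((pz y).filter (fun p : ℕ => T < p ∧ CoG U p t)).card : ℕ) : ℝ) ≤ η' * T) →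
      (∀ t ∈ E, 1 ≤ t → ∀ i j, Vq (P2 Q i j t) y ≤ η2 * Vq (Q 0) y) →
      ∀ q a : ℕ, (∀ p : ℕ, p.Prime → p ∣ q → ∀ i m, ¬ Q i p m) →
      ∀ (τ : ℕ → ℕ) (W : Finset ℕ), W ⊆ Icc 1 T →
      (∀ w m : ℕ, |(NT Q τ w W m : ℝ) - W.card * Vq (Q 0) w| ≤ C w) →
      ∀ A : Finset ℕ, |(((Icc 1 Y).filter (fun n => NT Q τ y W (q * n + a) ∈ A)).card : ℝ) -
        Y * ∑ j ∈ A, Real.exp (-(W.card * Vq (Q 0) y)) * (W.card * Vq (Q 0) y) ^ j / j.factorial| ≤ ε * Y := by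
  obtain ⟨R, η, hη, htv⟩ := law_tv x0 ε hx0 hε
  choose K0 y0 T0 R0 η' η2 hη' hη2 hmom using fun k => momentT c k e hc x0 hx0 η hη C hC
  obtain ⟨δ', hδ'0, hδ'⟩ := exists_lower η' hη' R
  obtain ⟨δ2, hδ20, hδ2⟩ := exists_lower η2 hη2 R
  refine ⟨(∑ k ∈ range R, K0 k) + 1, (∑ k ∈ range R, y0 k) + 1, (∑ k ∈ range R, T0 k) + 1,
    ∑ k ∈ range R, R0 k, δ', δ2, hδ'0, hδ20, ?_⟩
  intro Y y T hy hyY hT hTR Q U hQ hadm hTx E hE hlarge hpair q a hq τ W hW hwin A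
  have hV0 := Vq_nonneg (Q 0) y
  have hWT : (W.card : ℝ) ≤ T := by
    have := card_le_card hW
    rw [Nat.card_Icc, Nat.add_sub_cancel] at this
    exact_mod_cast this
  obtain ⟨x, hxdef⟩ : ∃ x, x = W.card * Vq (Q 0) y := ⟨_, rfl⟩
  have hx : x ≤ x0 := by
    rw [hxdef]
    exact (mul_le_mul_of_nonneg_right hWT hV0).trans hTx
  rw [← hxdef]
  have hx00 : 0 ≤ x := by
    rw [hxdef]
    exact mul_nonneg (Nat.cast_nonneg _) hV0
  have hy1' : 1 ≤ y := by omega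
  have hT1 : 1 ≤ T := by omega
  have hcard : ((Icc 1 Y).card : ℝ) = Y := by
    rw [Nat.card_Icc, Nat.add_sub_cancel]
  have hmain := htv (Icc 1 Y) (fun n => NT Q τ y W (q * n + a)) x hx00 hx (by
    intro k hk
    rw [hcard]
    rcases k with _ | k
    · simp
      positivity
    · have hkR : k ∈ range R := mem_range.2 (by omega)
      have hKk : K0 k ≤ ∑ k ∈ range R, K0 k := Finset.single_le_sum (fun _ _ => Nat.zero_le _) hkR
      have hyk : y0 k ≤ ∑ k ∈ range R, y0 k := Finset.single_le_sum (fun _ _ => Nat.zero_le _) hkR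
      have hTk : T0 k ≤ ∑ k ∈ range R, T0 k := Finset.single_le_sum (fun _ _ => Nat.zero_le _) hkR
      have hRk : R0 k ≤ ∑ k ∈ range R, R0 k := Finset.single_le_sum (fun _ _ => Nat.zero_le _) hkR
      have h1 := hmom k Y y T (by omega)
        ((Nat.pow_le_pow_right hy1' (by omega)).trans hyY) (by omega)
        ((Nat.pow_le_pow_right hT1 hRk).trans hTR) Q U hQ hadm hTx E hE (fun t ht htE =>
          (hlarge t ht htE).trans (mul_le_mul_of_nonneg_right (hδ' k (by omega)) (Nat.cast_nonneg _)))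
          (fun t ht ht1 i j => (hpair t ht ht1 i j).trans
            (mul_le_mul_of_nonneg_right (hδ2 k (by omega)) hV0)) q a hq τ W hW hwin
      rw [← hxdef] at h1
      exact h1) A
  rw [hcard] at hmain
  exact hmain

variable {Q : ℕ → ℕ → ℕ → Prop} {U : ℕ → ℕ → Prop} {c : ℕ}

/-- the type of the shift `h` from the class of `a` on -/
def ty (q a h : ℕ) : ℕ := (a + h) % q

/-- the sifted set of the typed system whose types are the classes modulo `q` -/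
def GT (Q : ℕ → ℕ → ℕ → Prop) (q y m : ℕ) : Prop := Sf (Q (m % q)) y m

lemma GT_shift (Q : ℕ → ℕ → ℕ → Prop) (q y v a h : ℕ) :
    GT Q q y (q * v + a + h) ↔ Sf (Q (ty q a h)) y (q * v + a + h) := by
  unfold GT ty
  rw [show q * v + a + h = a + h + q * v by ring, Nat.add_mul_mod_self_left]

open Classical in
lemma cell_winT (hQ : TS Q U c) (q d : ℕ) (hq : 1 ≤ q)
    (hqQ : ∀ p : ℕ, p.Prime → p ∣ q → ∀ i m, ¬ Q i p m) (a : ℕ) (x : ℕ × ℕ) (w m : ℕ) :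
    |((((cell q d x).filter (fun h => Sf (Q (ty q a h)) w (m + h))).card : ℕ) : ℝ) - d * Vq (Q 0) w| ≤ Mw w := by
  obtain ⟨i, hi⟩ : ∃ i, i = (a + x.2) % q := ⟨_, rfl⟩
  have h1 := window0 (Qr (Q i) q (m + x.1 * (q * d) + x.2)) c
    (qr_per (Q i) c (hQ.per i) q _ (fun p hp hpq => hqQ p hp hpq i)) w d
  rw [qr_Vq (Q i) c (hQ.per i) q _ w (fun p hp hpq => hqQ p hp hpq i), hQ.Vq_eq i w] at h1
  have e : ((range d).filter (fun h => Sf (Qr (Q i) q (m + x.1 * (q * d) + x.2)) w h)).card =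
      ((cell q d x).filter (fun h => Sf (Q (ty q a h)) w (m + h))).card := by
    unfold cell
    rw [Finset.filter_image, card_image_of_injOn ((cell_inj q d hq x).mono (by
      intro x hx
      exact Finset.mem_coe.2 (mem_filter.1 (Finset.mem_coe.1 hx)).1))]
    congr 1
    apply filter_congr
    intro j _
    have hty : ty q a (x.1 * (q * d) + x.2 + q * j) = i := by
      unfold ty
      rw [hi, show a + (x.1 * (q * d) + x.2 + q * j) = a + x.2 + q * (x.1 * d + j) by ring,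
        Nat.add_mul_mod_self_left]
    rw [hty]
    unfold Sf Qr
    rw [show q * j + (m + x.1 * (q * d) + x.2) = m + (x.1 * (q * d) + x.2 + q * j) by ring]
  rw [e] at h1
  exact h1

open Classical in
lemma WS_winT (hQ : TS Q U c) (q d : ℕ) (hq : 1 ≤ q)
    (hqQ : ∀ p : ℕ, p.Prime → p ∣ q → ∀ i m, ¬ Q i p m) (a : ℕ) (S : Finset (ℕ × ℕ))
    (hS : ∀ c ∈ S, c.2 ∈ Icc 1 q) (N : ℕ) (hN : S.card ≤ N) (w m : ℕ) :
    |(NT Q (ty q a) w (WS q d S) m : ℝ) - (WS q d S).card * Vq (Q 0) w| ≤ N * Mw w := by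
  have h1 : NT Q (ty q a) w (WS q d S) m =
      ∑ x ∈ S, ((cell q d x).filter (fun h => Sf (Q (ty q a h)) w (m + h))).card := by
    unfold NT WS
    rw [Finset.filter_biUnion, card_biUnion]
    intro x hx x' hx' hne
    exact Finset.disjoint_filter_filter (cell_disj q d hq x x' (hS x hx) (hS x' hx') hne)
  rw [h1, WS_card q d hq S hS]
  have e : (((∑ x ∈ S, ((cell q d x).filter (fun h => Sf (Q (ty q a h)) w (m + h))).card : ℕ)) : ℝ) -
      ((S.card * d : ℕ) : ℝ) * Vq (Q 0) w =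
      ∑ x ∈ S, (((((cell q d x).filter (fun h => Sf (Q (ty q a h)) w (m + h))).card : ℕ) : ℝ) -
        d * Vq (Q 0) w) := by
    rw [Finset.sum_sub_distrib, Finset.sum_const, nsmul_eq_mul]
    push_cast
    ring
  rw [e]
  refine (Finset.abs_sum_le_sum_abs _ _).trans ?_
  refine (Finset.sum_le_card_nsmul _ _ _ (fun x _ => cell_winT hQ q d hq hqQ a x w m)).trans ?_
  rw [nsmul_eq_mul]
  have : (S.card : ℝ) ≤ N := by exact_mod_cast hN
  exact mul_le_mul_of_nonneg_right this (Nat.cast_nonneg _)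

open Classical in
/-- **The Poisson law for unions of cells**, for typed systems. -/
theorem lawCT (c e q L : ℕ) (hc : 1 ≤ c) (hq : 1 ≤ q) (x0 ε : ℝ) (hx0 : 0 ≤ x0) (hε : 0 < ε) :
    ∃ (K0 y0 T0 R0 : ℕ) (η' η2 : ℝ), 0 < η' ∧ 0 < η2 ∧ ∀ Y y d : ℕ, y0 ≤ y → y ^ K0 ≤ Y →
      T0 ≤ L * (q * d) → (L * (q * d)) ^ R0 ≤ Y →
      ∀ (Q : ℕ → ℕ → ℕ → Prop) (U : ℕ → ℕ → Prop), TS Q U c → (∀ p : ℕ, p.Prime → nuB (Q 0) p < p) →
      ((L * (q * d) : ℕ) : ℝ) * Vq (Q 0) y ≤ x0 →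
      ∀ E : Finset ℕ, E.card ≤ e →
      (∀ t ∈ Icc 1 (L * (q * d)), t ∉ E →
        ((((pz y).filter (fun p : ℕ => L * (q * d) < p ∧ CoG U p t)).card : ℕ) : ℝ) ≤
          η' * ((L * (q * d) : ℕ) : ℝ)) →
      (∀ t ∈ E, 1 ≤ t → ∀ i j, Vq (P2 Q i j t) y ≤ η2 * Vq (Q 0) y) →
      (∀ p : ℕ, p.Prime → p ∣ q → ∀ i m, ¬ Q i p m) →
      ∀ a : ℕ, ∀ S : Finset (ℕ × ℕ), S ⊆ range L ×ˢ Icc 1 q →
      ∀ A : Finset ℕ, |(((Icc 1 Y).filter (fun n => Nc (GT Q q y) q d a S n ∈ A)).card : ℝ) -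
        Y * ∑ j ∈ A, Real.exp (-(S.card * (d * Vq (Q 0) y))) * (S.card * (d * Vq (Q 0) y)) ^ j /
          j.factorial| ≤ ε * Y := by
  obtain ⟨K0, y0, T0, R0, η', η2, hη', hη2, h⟩ := lawT c e hc x0 ε hx0 hε
    (fun w => ((L * q : ℕ) : ℝ) * Mw w) (fun w => by positivity)
  refine ⟨K0, y0, T0, R0, η', η2, hη', hη2, ?_⟩
  intro Y y d hy hyY hT hTR Q U hQ hadm hx E hE hlarge hpair hqQ a S hS A
  have hS' : ∀ x ∈ S, x.2 ∈ Icc 1 q := fun x hx => (mem_product.1 (hS hx)).2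
  have hN : S.card ≤ L * q := by
    have := card_le_card hS
    rwa [card_product, card_range, Nat.card_Icc, Nat.add_sub_cancel] at this
  have h1 := h Y y (L * (q * d)) hy hyY hT hTR Q U hQ hadm hx E hE hlarge hpair q a hqQ (ty q a)
    (WS q d S) (WS_sub q d L S hS) (fun w m => WS_winT hQ q d hq hqQ a S hS' (L * q) hN w m) A
  have e1 : ((WS q d S).card : ℝ) * Vq (Q 0) y = S.card * (d * Vq (Q 0) y) := by
    rw [WS_card q d hq S hS']
    push_cast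
    ring
  rw [e1] at h1
  have e2 : ∀ n, NT Q (ty q a) y (WS q d S) (q * n + a) = Nc (GT Q q y) q d a S n := by
    intro n
    unfold NT Nc
    congr 1
    apply Finset.filter_congr
    intro h _
    exact (GT_shift Q q y n a h).symm
  simp only [e2] at h1
  exact h1

end Pool.Agent.U98.TY
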