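import Pool.Agent.U98.TY.A4

set_option autoImplicit false

/-!
# The joint law of the gaps and the residues, for typed systems
-/

namespace Pool.Agent.U98.TY

open Finset Filter Pool.Agent.H373R2.T7 Pool.Agent.W123.RP Pool.Agent.W123.RU Pool.Agent.TH464.PO
open Pool.Agent.R463.PP (Qr qr_per qr_Vq Nc HL Pat GB sq gp lower alg_err1 alg_err2 alg_step alg_fin prod_le_one'
  div_sub_one_le La pat_succ inner gp_nonneg gp_le_one gp_succ alg_up off off_mem off_mod)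

/-- the parameters -/
structure ParT where
  K0 : ℕ
  y0 : ℕ
  T0 : ℕ
  R0 : ℕ
  η : ℝ
  κ : ℝ
  x1 : ℝ
  η2 : ℝ
  hy0 : 1 ≤ y0
  hη : 0 < η
  hκ : 0 < κ
  hx1 : 0 < x1
  hη2 : 0 < η2

open Classical in
/-- the conditions on a typed sifting problem in `(Z, Z + Y]` -/
structure OkT (P : ParT) (c e q : ℕ) (Q : ℕ → ℕ → ℕ → Prop) (U : ℕ → ℕ → Prop) (E : Finset ℕ) (Y y : ℕ) :
    Prop where
  ts : TS Q U c
  adm : ∀ p : ℕ, p.Prime → nuB (Q 0) p < p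
  cop : ∀ p : ℕ, p.Prime → p ∣ q → ∀ i m, ¬ Q i p m
  hE : E.card ≤ e
  hy : P.y0 ≤ y
  hY : y ^ P.K0 ≤ Y
  hV : Vq (Q 0) y ≤ P.κ
  hsq : √(Y : ℝ) ≤ P.κ * (Y * Vq (Q 0) y)
  hbd : P.x1 / Vq (Q 0) y ≤ P.κ * (Y * Vq (Q 0) y)
  hT : ∀ T : ℕ, P.κ ≤ T * Vq (Q 0) y → T * Vq (Q 0) y ≤ P.x1 → P.T0 ≤ T ∧ T ^ P.R0 ≤ Y ∧
        ∀ t ∈ Icc 1 T, t ∉ E →
        ((((pz y).filter (fun p : ℕ => T < p ∧ CoG U p t)).card : ℕ) : ℝ) ≤ P.η * T
  hP : ∀ t ∈ E, 1 ≤ t → ∀ i j, Vq (P2 Q i j t) y ≤ P.η2 * Vq (Q 0) y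

lemma ParT.combine (P1 P2' : ParT) : ∃ P : ParT, P.κ ≤ P1.κ ∧ ∀ (c e q : ℕ) (Q : ℕ → ℕ → ℕ → Prop)
    (U : ℕ → ℕ → Prop) (E : Finset ℕ) (Y y : ℕ),
    OkT P c e q Q U E Y y → OkT P1 c e q Q U E Y y ∧ OkT P2' c e q Q U E Y y := by
  refine ⟨⟨max P1.K0 P2'.K0, max P1.y0 P2'.y0, max P1.T0 P2'.T0, max P1.R0 P2'.R0, min P1.η P2'.η,
    min P1.κ P2'.κ, max P1.x1 P2'.x1, min P1.η2 P2'.η2, P1.hy0.trans (le_max_left _ _), lt_min P1.hη P2'.hη,
    lt_min P1.hκ P2'.hκ, lt_max_of_lt_left P1.hx1, lt_min P1.hη2 P2'.hη2⟩, min_le_left _ _, ?_⟩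
  intro c e q Q U E Y y h
  have hy1 : 1 ≤ y := P1.hy0.trans ((le_max_left _ _).trans h.hy)
  have hV0 : 0 < Vq (Q 0) y := Vq_pos (Q 0) h.adm y
  have key : ∀ P : ParT, P.K0 ≤ max P1.K0 P2'.K0 → P.y0 ≤ max P1.y0 P2'.y0 → P.T0 ≤ max P1.T0 P2'.T0 →
      P.R0 ≤ max P1.R0 P2'.R0 → min P1.η P2'.η ≤ P.η → min P1.κ P2'.κ ≤ P.κ → P.x1 ≤ max P1.x1 P2'.x1 →
      min P1.η2 P2'.η2 ≤ P.η2 → OkT P c e q Q U E Y y := by
    intro P h1 h2 h3 h4 h5 h6 h7 h8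
    have hYV : 0 ≤ Y * Vq (Q 0) y := by positivity
    have hm := mul_le_mul_of_nonneg_right h6 hYV
    refine ⟨h.ts, h.adm, h.cop, h.hE, h2.trans h.hy, (Nat.pow_le_pow_right hy1 h1).trans h.hY, h.hV.trans h6,
      h.hsq.trans hm, ?_, ?_, ?_⟩
    · refine le_trans ?_ (h.hbd.trans hm)
      exact div_le_div_of_nonneg_right h7 hV0.le
    · intro T hT1 hT2
      obtain ⟨a1, a2, a3⟩ := h.hT T (h6.trans hT1) (hT2.trans h7)
      have hTpos : 1 ≤ T := by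
        by_contra hcon
        have : T = 0 := by omega
        rw [this] at hT1
        have := P.hκ
        simp only [Nat.cast_zero, zero_mul] at hT1
        linarith
      refine ⟨h3.trans a1, (Nat.pow_le_pow_right hTpos h4).trans a2, fun t ht htE => (a3 t ht htE).trans ?_⟩
      exact mul_le_mul_of_nonneg_right h5 (Nat.cast_nonneg _)
    · intro t ht ht1 i j
      exact (h.hP t ht ht1 i j).trans (mul_le_mul_of_nonneg_right h8 hV0.le)
  exact ⟨key P1 (le_max_left _ _) (le_max_left _ _) (le_max_left _ _) (le_max_left _ _) (min_le_left _ _)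
    (min_le_left _ _) (le_max_left _ _) (min_le_left _ _), key P2' (le_max_right _ _) (le_max_right _ _)
    (le_max_right _ _) (le_max_right _ _) (min_le_right _ _) (min_le_right _ _) (le_max_right _ _)
    (min_le_right _ _)⟩

open Classical in
/-- the number of the patterns -/
noncomputable def cntG (g : ℕ → Prop) (q l : ℕ) (B : Finset ℕ) (c0 : ℕ) (b s T : ℕ → ℕ) (Z Y : ℕ) : ℕ :=
  ((Ioc Z (Z + Y)).filter (Pat g q l B c0 b s T)).card

open Classical in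
/-- **The lower bound for the patterns.** -/
theorem runs_lowT (c e q l : ℕ) (hc : 1 ≤ c) (hq : 1 ≤ q) (B : Finset ℕ) (hB : B ⊆ range q) (hB0 : 1 ≤ B.card)
    (ε : ℝ) (hε : 0 < ε) (hε1 : ε ≤ 1) : ∃ P : ParT, ∀ (Q : ℕ → ℕ → ℕ → Prop) (U : ℕ → ℕ → Prop)
      (E : Finset ℕ) (Y y : ℕ), OkT P c e q Q U E Y y →
      ∀ Z c0 : ℕ, c0 ∈ B → ∀ b s T : ℕ → ℕ, (∀ j < l, b j ∈ B) → (∀ j < l, s j ≤ T j) →
        Y * Vq (Q 0) y / q * (gp (Vq (Q 0) y) q l B s T / B.card ^ l - ε) ≤ cntG (GT Q q y) q l B c0 b s T Z Y := by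
  obtain ⟨R, hR⟩ : ∃ R : ℝ, R = B.card := ⟨_, rfl⟩
  have hR1 : 1 ≤ R := by rw [hR]; exact_mod_cast hB0
  have hqr : (1 : ℝ) ≤ q := by exact_mod_cast hq
  obtain ⟨X1, hX1⟩ : ∃ X1 : ℕ, Real.exp (-(X1 : ℝ)) ≤ ε / (8 * (l + 1)) := by
    have h1 : Tendsto (fun n : ℕ => Real.exp (-(n : ℝ))) atTop (nhds 0) :=
      Real.tendsto_exp_neg_atTop_nhds_zero.comp tendsto_natCast_atTop_atTop
    have h2 := (h1.eventually (gt_mem_nhds (show (0 : ℝ) < ε / (8 * (l + 1)) by positivity))).exists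
    obtain ⟨n, hn⟩ := h2
    exact ⟨n, hn.le⟩
  obtain ⟨δ0, hδ0⟩ : ∃ δ0 : ℝ, δ0 = ε / (64 * R * ((l + 1) * (2 * X1 + 4))) := ⟨_, rfl⟩
  have hδ0p : 0 < δ0 := by rw [hδ0]; positivity
  have hden : 64 ≤ 64 * R * ((l + 1) * (2 * (X1 : ℝ) + 4)) := by
    have h1 : (1 : ℝ) ≤ l + 1 := by
      have : (0 : ℝ) ≤ l := Nat.cast_nonneg l
      linarith
    have h2 : (1 : ℝ) ≤ 2 * X1 + 4 := by
      have : (0 : ℝ) ≤ X1 := Nat.cast_nonneg X1
      linarith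
    have h3 : 1 ≤ (l + 1) * (2 * (X1 : ℝ) + 4) := one_le_mul_of_one_le_of_one_le h1 h2
    have h4 : 1 ≤ R * ((l + 1) * (2 * (X1 : ℝ) + 4)) := one_le_mul_of_one_le_of_one_le hR1 h3
    linarith
  have hδ01 : δ0 ≤ 1 := by
    rw [hδ0, div_le_one (by linarith)]
    linarith
  obtain ⟨L', hL'⟩ : ∃ L' : ℕ, L' = ⌈2 * (X1 : ℝ) / δ0⌉₊ := ⟨_, rfl⟩
  have hL1 : 2 * (X1 : ℝ) ≤ δ0 * L' := by
    have := Nat.le_ceil (2 * (X1 : ℝ) / δ0)
    rw [← hL', div_le_iff₀ hδ0p] at this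
    linarith
  have hL2 : δ0 * L' ≤ 2 * X1 + 1 := by
    have h1 := Nat.ceil_lt_add_one (show 0 ≤ 2 * (X1 : ℝ) / δ0 by positivity)
    rw [← hL'] at h1
    have h2 := mul_le_mul_of_nonneg_left h1.le hδ0p.le
    have h3 : δ0 * (2 * (X1 : ℝ) / δ0 + 1) = 2 * X1 + δ0 := by field_simp
    linarith
  obtain ⟨E, hE⟩ : ∃ E : ℝ, E = (L' + 1) ^ l * 2 ^ (l + 1) + (l * L' + 1) := ⟨_, rfl⟩
  have hE0 : 0 < E := by rw [hE]; positivity
  obtain ⟨ε', hε'⟩ : ∃ ε' : ℝ, ε' = ε * δ0 / (16 * R * E) := ⟨_, rfl⟩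
  have hε'0 : 0 < ε' := by rw [hε']; positivity
  obtain ⟨L, hL⟩ : ∃ L : ℕ, L = l * L' + 1 := ⟨_, rfl⟩
  have hL1' : 1 ≤ L := by omega
  obtain ⟨K1, y1, T1, R1, η1, η2, hη1, hη2, hlaw⟩ := lawCT c e q L hc hq ((L * q : ℕ) : ℝ) ε' (Nat.cast_nonneg _) hε'0
  refine ⟨⟨K1 + 1, max y1 q, T1, R1 + 1, η1, min (δ0 / (2 * R)) (ε / (6 * q)), ((L * q : ℕ) : ℝ), η2,
    hq.trans (le_max_right _ _), hη1, by positivity, by positivity, hη2⟩, ?_⟩
  intro Q U E' Y y hok Z c0 hc0 b s T hb hsT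
  obtain ⟨V, hVdef⟩ : ∃ V, V = Vq (Q 0) y := ⟨_, rfl⟩
  have hV0 : 0 < V := by rw [hVdef]; exact Vq_pos (Q 0) hok.adm y
  have hV1 : V ≤ 1 := by rw [hVdef]; exact Vq_le_one (Q 0) y
  have hVκ1 : V ≤ δ0 / (2 * R) := by rw [hVdef]; exact hok.hV.trans (min_le_left _ _)
  have hy1 : y1 ≤ y := (le_max_left _ _).trans hok.hy
  have hyq : q ≤ y := (le_max_right _ _).trans hok.hy
  obtain ⟨d, hd⟩ : ∃ d : ℕ, d = ⌊δ0 / (R * V)⌋₊ := ⟨_, rfl⟩
  have hRV : 0 < R * V := by positivity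
  have hRV2 : R * V ≤ δ0 / 2 := by
    rw [le_div_iff₀ (by positivity)] at hVκ1
    linarith
  have hd1 : (d : ℝ) ≤ δ0 / (R * V) := by rw [hd]; exact Nat.floor_le (by positivity)
  have hd2 : δ0 / (R * V) < d + 1 := by rw [hd]; exact Nat.lt_floor_add_one _
  obtain ⟨μ, hμ⟩ : ∃ μ : ℝ, μ = d * V := ⟨_, rfl⟩
  have hδup : R * μ ≤ δ0 := by
    rw [le_div_iff₀ hRV] at hd1
    rw [hμ]
    linarith
  have hδlo : δ0 / 2 ≤ R * μ := by
    rw [div_lt_iff₀ hRV] at hd2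
    rw [hμ]
    linarith
  have hμ0 : 0 < μ := by
    by_contra hcon
    rw [not_lt] at hcon
    have : R * μ ≤ 0 := mul_nonpos_of_nonneg_of_nonpos (by linarith) hcon
    linarith
  have hdpos : 1 ≤ d := by
    by_contra hcon
    have : d = 0 := by omega
    rw [this] at hμ
    simp only [Nat.cast_zero, zero_mul] at hμ
    linarith
  have hdr : (1 : ℝ) ≤ d := by exact_mod_cast hdpos
  have hμR : μ ≤ R * μ := le_mul_of_one_le_left hμ0.le hR1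
  have hμδ : μ ≤ δ0 := hμR.trans hδup
  -- the window
  have hTV : ((L * (q * d) : ℕ) : ℝ) * V = L * q * μ := by
    rw [hμ]
    push_cast
    ring
  have hLr : (1 : ℝ) ≤ L := by exact_mod_cast hL1'
  have hLq : (1 : ℝ) ≤ L * q := one_le_mul_of_one_le_of_one_le hLr hqr
  have hTx : ((L * (q * d) : ℕ) : ℝ) * V ≤ ((L * q : ℕ) : ℝ) := by
    rw [hTV]
    push_cast
    have h1 : L * q * μ ≤ L * q * 1 := mul_le_mul_of_nonneg_left (hμδ.trans hδ01) (by linarith)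
    linarith
  have hTκ : min (δ0 / (2 * R)) (ε / (6 * q)) ≤ ((L * (q * d) : ℕ) : ℝ) * V := by
    refine (min_le_left _ _).trans ?_
    rw [hTV, div_le_iff₀ (by positivity)]
    have h1 : δ0 ≤ μ * (2 * R) := by linarith
    have h2 : μ * (2 * R) ≤ L * q * μ * (2 * R) := by
      have : μ ≤ L * q * μ := le_mul_of_one_le_left hμ0.le hLq
      exact mul_le_mul_of_nonneg_right this (by linarith)
    linarith
  obtain ⟨t1, t2, t3⟩ := hok.hT (L * (q * d)) (by rw [← hVdef]; exact hTκ) (by rw [← hVdef]; exact hTx)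
  simp only at t1 t2 t3
  have hTq0 : q ≤ L * q := by
    calc q = 1 * q := (one_mul q).symm
      _ ≤ L * q := Nat.mul_le_mul_right _ hL1'
  have hTq : q ≤ L * (q * d) := by
    have h1 : q * 1 ≤ q * d := Nat.mul_le_mul_left q hdpos
    have h2 : 1 * (q * d) ≤ L * (q * d) := Nat.mul_le_mul_right _ hL1'
    omega
  have hYq : ∀ a n : ℕ, q ≤ a → a ^ (n + 1) ≤ Y → a ^ n ≤ Y / q := by
    intro a n ha hn
    rw [Nat.le_div_iff_mul_le (by omega)]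
    calc a ^ n * q ≤ a ^ n * a := Nat.mul_le_mul_left _ ha
      _ = a ^ (n + 1) := (pow_succ a n).symm
      _ ≤ Y := hn
  have hHL : HL (GT Q q y) q d L (Y / q) μ ε' := by
    intro a S hS A
    have := hlaw (Y / q) y d hy1 (hYq y K1 hyq hok.hY) t1 (hYq _ R1 hTq t2) Q U hok.ts hok.adm
      (by rw [← hVdef]; exact hTx) E' hok.hE t3 hok.hP hok.cop a S hS A
    rw [← hVdef, ← hμ] at this
    exact this
  rw [hL] at hHL
  have hlow := lower (GT Q q y) q d L' l (Y / q) μ ε' hq hdpos hμ0 hHL B hB hB0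
    (by rw [← hR]; linarith) c0 hc0 b s T hb hsT Z
  rw [← hR, abs_of_pos hε'0] at hlow
  -- the boundary
  have hbdry : (((Ioc (Z + q) (Z + q + q * (Y / q) + q * d)).filter (Pat (GT Q q y) q l B c0 b s T)).card : ℝ) ≤
      cntG (GT Q q y) q l B c0 b s T Z Y + (q + q * d) := by
    have h1 : (Ioc (Z + q) (Z + q + q * (Y / q) + q * d)).filter (Pat (GT Q q y) q l B c0 b s T) ⊆
        (Ioc Z (Z + Y)).filter (Pat (GT Q q y) q l B c0 b s T) ∪ Ioc (Z + Y) (Z + Y + (q + q * d)) := by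
      intro p hp
      rw [mem_filter, mem_Ioc] at hp
      have h2 := Nat.mul_div_le Y q
      rw [mem_union, mem_filter, mem_Ioc, mem_Ioc]
      by_cases h3 : p ≤ Z + Y
      · left
        exact ⟨by omega, hp.2⟩
      · right
        omega
    have h2 := (card_le_card h1).trans (card_union_le _ _)
    rw [Nat.card_Ioc, Nat.add_sub_cancel_left] at h2
    unfold cntG
    exact_mod_cast h2
  -- the algebra
  obtain ⟨M0, hM0⟩ : ∃ M0 : ℝ, M0 = gp V q l B s T := ⟨_, rfl⟩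
  have hprodeq : ∏ j ∈ range l, (Real.exp (-(R * μ / (q * d) * s j)) - Real.exp (-(R * μ / (q * d) * T j))) =
      M0 := by
    rw [hM0]
    unfold gp
    rw [← hR]
    have : R * μ / (q * d) = R * V / q := by
      rw [hμ]
      field_simp
    rw [this]
  rw [hprodeq] at hlow
  have hM01 : M0 ≤ 1 := by
    rw [hM0]
    unfold gp
    rw [← hR]
    exact prod_le_one' R V q l s T hR1 hV0.le hqr hsT
  obtain ⟨Yv, hYv⟩ : ∃ Yv : ℝ, Yv = ((Y / q : ℕ) : ℝ) := ⟨_, rfl⟩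
  have hYv0 : 0 ≤ Yv := by rw [hYv]; positivity
  have hYv1 : Yv ≤ Y / q := by rw [hYv]; exact Nat.cast_div_le
  have hYv2 : Y / q - 1 ≤ Yv := by rw [hYv]; exact div_sub_one_le Y q hq
  rw [← hYv] at hlow
  obtain ⟨N, hN⟩ : ∃ N : ℝ, N = cntG (GT Q q y) q l B c0 b s T Z Y := ⟨_, rfl⟩
  rw [← hVdef, ← hM0, ← hN, ← hR]
  rw [← hN] at hbdry
  have hX0 : (0 : ℝ) ≤ X1 := Nat.cast_nonneg X1
  have hδsmall : 64 * R * ((l + 1) * (2 * X1 + 4)) * δ0 = ε := by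
    rw [hδ0]
    field_simp
  have herr1 := alg_err1 R μ δ0 X1 ε L' l hR1 hμ0 hδ0p hX0 hδup hδlo hδsmall hL1 hX1
  have herr2 := alg_err2 R μ δ0 X1 ε ε' E L' l hR1 hμ0 hδ0p hX0 hδ01 hδup hδlo hδsmall hL2 hE0 hE hε'
  have hd0 : (0 : ℝ) < d := by linarith
  have hstep := alg_step R μ ε M0 N Yv V q d _ (l * (4 * (R * μ) + Real.exp (-(R * μ * L'))) + R * μ)
    ((L' + 1) ^ l * 2 ^ (l + 1) * ε' + (l * L' + 1) * ((2 * R * μ) ^ 3 + ε')) l hR1 hμ hμ0 hε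
    (by linarith) hd0 hYv0 (by rw [← sub_sub M0]; exact hlow) hbdry herr1 herr2
  have hbd := hok.hbd
  simp only at hbd
  rw [← hVdef] at hbd
  refine alg_fin R ε M0 N Yv Y V q d ((L * q : ℕ) : ℝ) l hR1 hε hqr hV0 hV1 ?_ ?_ hM01 hYv1 hYv2 ?_ hstep
  · rw [← hμ]
    linarith
  · exact_mod_cast hTq0
  · refine hbd.trans ?_
    exact mul_le_mul_of_nonneg_right (min_le_right _ _) (by positivity)


open Classical in
lemma cntG_succ (g : ℕ → Prop) (q l : ℕ) (B : Finset ℕ) (c0 : ℕ) (b s T b' s' T' : ℕ → ℕ)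
    (hb : ∀ j < l, b' j = b j) (hs : ∀ j < l, s' j = s j) (hT : ∀ j < l, T' j = T j) (Z Y : ℕ) :
    cntG g q (l + 1) B c0 b' s' T' Z Y =
      ∑ p ∈ (Ioc Z (Z + Y)).filter (Pat g q l B c0 b s T),
        (if La (GB g q B) q l (b' l) (s' l) (T' l) p then 1 else 0) := by
  unfold cntG
  rw [Finset.sum_ite, Finset.sum_const_zero, add_zero, Finset.sum_const, smul_eq_mul, mul_one,
    Finset.filter_filter]
  congr 1
  apply Finset.filter_congr
  intro p _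
  exact pat_succ _ q l B c0 b s T b' s' T' hb hs hT p

open Classical in
lemma cntG_split (g : ℕ → Prop) (q l : ℕ) (B : Finset ℕ) (c0 : ℕ) (b s T : ℕ → ℕ) (Z Y U : ℕ)
    (hsT : s l ≤ T l) :
    cntG g q (l + 1) B c0 b s T Z Y +
      cntG g q (l + 1) B c0 b (Function.update s l 0) (Function.update T l (s l)) Z Y +
      cntG g q (l + 1) B c0 b (Function.update s l (T l)) (Function.update T l U) Z Y +
      ∑ β ∈ B.erase (b l),
        cntG g q (l + 1) B c0 (Function.update b l β) (Function.update s l 0) (Function.update T l U) Z Y ≤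
      cntG g q l B c0 b s T Z Y := by
  have hup : ∀ (f : ℕ → ℕ) (x : ℕ), ∀ j < l, Function.update f l x j = f j := by
    intro f x j hj
    rw [Function.update_of_ne (by omega)]
  rw [cntG_succ g q l B c0 b s T b s T (fun _ _ => rfl) (fun _ _ => rfl) (fun _ _ => rfl),
    cntG_succ g q l B c0 b s T b _ _ (fun _ _ => rfl) (hup s 0) (hup T (s l)),
    cntG_succ g q l B c0 b s T b _ _ (fun _ _ => rfl) (hup s (T l)) (hup T U),
    Finset.sum_congr rfl (fun β _ => cntG_succ g q l B c0 b s T _ _ _ (hup b β) (hup s 0) (hup T U) Z Y),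
    Finset.sum_comm, ← Finset.sum_add_distrib, ← Finset.sum_add_distrib, ← Finset.sum_add_distrib]
  have h1 : cntG g q l B c0 b s T Z Y =
      ∑ p ∈ (Ioc Z (Z + Y)).filter (Pat g q l B c0 b s T), 1 := by
    unfold cntG
    rw [Finset.sum_const, smul_eq_mul, mul_one]
  rw [h1]
  apply Finset.sum_le_sum
  intro p _
  simp only [Function.update_self]
  unfold La
  have hin := inner B (sq (GB g q B) p (l + 1) % q) (b l) (s l) (T l) U
    (sq (GB g q B) p (l + 1) - sq (GB g q B) p l) hsT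
  refine le_trans (le_of_eq ?_) hin
  congr
  funext β
  congr


end Pool.Agent.U98.TY
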