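import Pool.Agent.U98.TY.A5

set_option autoImplicit false

/-!
# The joint law for typed systems: upper bound and conclusion
-/

namespace Pool.Agent.U98.TY

open Finset Filter Pool.Agent.H373R2.T7 Pool.Agent.W123.RP Pool.Agent.W123.RU Pool.Agent.TH464.PO
open Pool.Agent.R463.PP (Qr qr_per qr_Vq Nc HL Pat GB sq gp lower alg_err1 alg_err2 alg_step alg_fin prod_le_one'
  div_sub_one_le La pat_succ inner gp_nonneg gp_le_one gp_succ alg_up off off_mem off_mod)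

open Classical in
/-- the count in the class `c0` -/
theorem count_classT (c e q : ℕ) (hc : 1 ≤ c) (hq : 1 ≤ q) (B : Finset ℕ) (hB : B ⊆ range q)
    (ε : ℝ) (hε : 0 < ε) : ∃ P : ParT, ∀ (Q : ℕ → ℕ → ℕ → Prop)
      (U : ℕ → ℕ → Prop) (E : Finset ℕ) (Y y : ℕ), OkT P c e q Q U E Y y →
      ∀ Z c0 : ℕ, c0 ∈ B → ∀ b s T : ℕ → ℕ,
        (cntG (GT Q q y) q 0 B c0 b s T Z Y : ℝ) ≤ Y * Vq (Q 0) y / q * (1 + ε) := by
  have hqr : (1 : ℝ) ≤ q := by exact_mod_cast hq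
  obtain ⟨K, x0, hK, hfund⟩ := sys_fund c hc (ε / 2) (by positivity)
  refine ⟨⟨K, x0 + 1, 0, 0, 1, ε / (4 * q), 1, 1, by omega, one_pos, by positivity, one_pos, one_pos⟩, ?_⟩
  intro Q Us E Y y hok Z c0 hc0 b s T
  have hV0 : 0 < Vq (Q 0) y := Vq_pos (Q 0) hok.adm y
  have hV1 : Vq (Q 0) y ≤ 1 := Vq_le_one (Q 0) y
  have hcq := mem_range.1 (hB hc0)
  obtain ⟨s0, hs0⟩ : ∃ s0, s0 = off q Z c0 := ⟨_, rfl⟩
  have hs1 := off_mem q Z c0 hcq
  have hs2 := off_mod q Z c0 hcq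
  rw [← hs0] at hs1 hs2
  rw [mem_Icc] at hs1
  have hok1 : x0 ≤ y := by
    have := hok.hy
    simp only at this
    omega
  have h1 := hfund Y y hok1 hok.hY (Qr (Q c0) q (Z + s0)) (qr_per (Q c0) c (hok.ts.per c0) q (Z + s0)
    (fun p hp hpq => hok.cop p hp hpq c0)) (Y / q)
  have e1 : ∏ p ∈ pz y, (1 - (nuB (Qr (Q c0) q (Z + s0)) p : ℝ) / p) = Vq (Q 0) y :=
    (qr_Vq (Q c0) c (hok.ts.per c0) q (Z + s0) y (fun p hp hpq => hok.cop p hp hpq c0)).trans
      (hok.ts.Vq_eq c0 y)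
  rw [e1] at h1
  have h2 := (abs_le.1 h1).2
  have h3 : cntG (GT Q q y) q 0 B c0 b s T Z Y ≤
      ((Icc 1 (Y / q)).filter (fun n : ℕ => ∀ p ∈ pz y, ¬ Qr (Q c0) q (Z + s0) p n)).card + 1 := by
    have h4 : (Ioc Z (Z + Y)).filter (Pat (GT Q q y) q 0 B c0 b s T) ⊆
        ((Icc 1 (Y / q)).filter (fun n : ℕ => ∀ p ∈ pz y, ¬ Qr (Q c0) q (Z + s0) p n)).image
          (fun v => q * v + (Z + s0)) ∪ {Z + s0} := by
      intro p hp
      rw [mem_filter, mem_Ioc] at hp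
      obtain ⟨⟨p1, p2⟩, ⟨p3, p4⟩, p5, _⟩ := hp
      have hmod : (Z + s0) ≡ p [MOD q] := by
        show (Z + s0) % q = p % q
        rw [hs2, p5]
      have hle : Z + s0 ≤ p := by
        by_contra hcon
        rw [not_le] at hcon
        have hd : q ∣ (Z + s0) - p := (Nat.modEq_iff_dvd' hcon.le).1 hmod.symm
        have := Nat.le_of_dvd (by omega) hd
        omega
      obtain ⟨v, hv⟩ := (Nat.modEq_iff_dvd' hle).1 hmod
      rw [mem_union, mem_singleton, mem_image]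
      rcases Nat.eq_zero_or_pos v with hv0 | hv0
      · right
        rw [hv0, mul_zero] at hv
        omega
      · left
        refine ⟨v, ?_, by omega⟩
        rw [mem_filter, mem_Icc]
        refine ⟨⟨hv0, ?_⟩, ?_⟩
        · rw [Nat.le_div_iff_mul_le (by omega), mul_comm]
          omega
        · intro r hr
          unfold Qr
          rw [show q * v + (Z + s0) = p by omega]
          have p6 : Sf (Q (p % q)) y p := p4
          rw [p5] at p6
          exact p6 r hr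
    refine (card_le_card h4).trans ((card_union_le _ _).trans ?_)
    rw [card_singleton]
    exact Nat.add_le_add_right card_image_le 1
  have h3' : (cntG (GT Q q y) q 0 B c0 b s T Z Y : ℝ) ≤
      (((Icc 1 (Y / q)).filter (fun n : ℕ => ∀ p ∈ pz y, ¬ Qr (Q c0) q (Z + s0) p n)).card : ℝ) + 1 := by
    exact_mod_cast h3
  have h5 : (((Y / q : ℕ) : ℕ) : ℝ) ≤ Y / q := Nat.cast_div_le
  have h6 := hok.hsq
  have h7 := hok.hbd
  simp only at h6 h7
  have h8 : 1 ≤ 1 / Vq (Q 0) y := by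
    rw [le_div_iff₀ hV0]
    linarith
  have h9 : ε / (4 * q) * (Y * Vq (Q 0) y) = ε / 4 * (Y * Vq (Q 0) y / q) := by
    field_simp
  rw [h9] at h6 h7
  have h10 : (((Y / q : ℕ) : ℕ) : ℝ) * Vq (Q 0) y ≤ Y * Vq (Q 0) y / q := by
    calc (((Y / q : ℕ) : ℕ) : ℝ) * Vq (Q 0) y ≤ Y / q * Vq (Q 0) y := mul_le_mul_of_nonneg_right h5 hV0.le
      _ = _ := by ring
  have h11 : ε / 2 * ((((Y / q : ℕ) : ℕ) : ℝ) * Vq (Q 0) y) ≤ ε / 2 * (Y * Vq (Q 0) y / q) :=
    mul_le_mul_of_nonneg_left h10 (by positivity)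
  have h12 : (((Icc 1 (Y / q)).filter (fun n : ℕ => ∀ p ∈ pz y, ¬ Qr (Q c0) q (Z + s0) p n)).card : ℝ) ≤
      (((Y / q : ℕ) : ℕ) : ℝ) * Vq (Q 0) y + ε / 2 * ((((Y / q : ℕ) : ℕ) : ℝ) * Vq (Q 0) y) + √(Y : ℝ) := by
    have : (((Icc 1 (Y / q)).filter (fun n : ℕ => ∀ p ∈ pz y, ¬ Qr (Q c0) q (Z + s0) p n)).card : ℝ) -
      (((Y / q : ℕ) : ℕ) : ℝ) * Vq (Q 0) y ≤ ε / 2 * ((((Y / q : ℕ) : ℕ) : ℝ) * Vq (Q 0) y) + √(Y : ℝ) := by
      convert h2
    linarith
  linarith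

open Classical in
/-- **The upper bound for the patterns.** -/
theorem runs_upT (c e q l : ℕ) (hc : 1 ≤ c) (hq : 1 ≤ q) (B : Finset ℕ) (hB : B ⊆ range q) (hB0 : 1 ≤ B.card) :
    ∀ ε : ℝ, 0 < ε → ε ≤ 1 → ∃ P : ParT, ∀ (Q : ℕ → ℕ → ℕ → Prop)
      (U : ℕ → ℕ → Prop) (E : Finset ℕ) (Y y : ℕ), OkT P c e q Q U E Y y →
      ∀ Z c0 : ℕ, c0 ∈ B → ∀ b s T : ℕ → ℕ, (∀ j < l, b j ∈ B) → (∀ j < l, s j ≤ T j) →
        cntG (GT Q q y) q l B c0 b s T Z Y ≤ Y * Vq (Q 0) y / q * (gp (Vq (Q 0) y) q l B s T / B.card ^ l + ε) := by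
  have hqr : (1 : ℝ) ≤ q := by exact_mod_cast hq
  have hR1 : (1 : ℝ) ≤ B.card := by exact_mod_cast hB0
  induction l with
  | zero =>
    intro ε hε _
    obtain ⟨P, hP⟩ := count_classT c e q hc hq B hB ε hε
    refine ⟨P, ?_⟩
    intro Q Us E Y y hok Z c0 hc0 b s T _ _
    have h1 := hP Q Us E Y y hok Z c0 hc0 b s T
    have h2 : gp (Vq (Q 0) y) q 0 B s T / B.card ^ 0 = 1 := by
      unfold gp
      simp
    rw [h2]
    exact h1
  | succ l ih =>
    intro ε hε hε1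
    obtain ⟨ε', hε'⟩ : ∃ ε' : ℝ, ε' = ε / (B.card + 3) := ⟨_, rfl⟩
    have hε'0 : 0 < ε' := by rw [hε']; positivity
    have hε'1 : ε' ≤ 1 := by
      rw [hε', div_le_one (by positivity)]
      linarith
    have hε'2 : (B.card + 3) * ε' = ε := by
      rw [hε']
      field_simp
    obtain ⟨X2, hX2⟩ : ∃ X2 : ℕ, Real.exp (-(X2 : ℝ)) ≤ ε' := by
      have h1 : Tendsto (fun n : ℕ => Real.exp (-(n : ℝ))) atTop (nhds 0) :=
        Real.tendsto_exp_neg_atTop_nhds_zero.comp tendsto_natCast_atTop_atTop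
      obtain ⟨n, hn⟩ := (h1.eventually (gt_mem_nhds hε'0)).exists
      exact ⟨n, hn.le⟩
    obtain ⟨P1, hP1⟩ := ih ε' hε'0 hε'1
    obtain ⟨P2, hP2⟩ := runs_lowT c e q (l + 1) hc hq B hB hB0 ε' hε'0 hε'1
    obtain ⟨P, _, hP⟩ := ParT.combine P1 P2
    refine ⟨P, ?_⟩
    intro Q Us E Y y hok Z c0 hc0 b s T hb hsT
    obtain ⟨hok1, hok2⟩ := hP c e q Q Us E Y y hok
    obtain ⟨V, hV⟩ : ∃ V, V = Vq (Q 0) y := ⟨_, rfl⟩
    have hV0 : 0 < V := by rw [hV]; exact Vq_pos (Q 0) hok.adm y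
    have hup : ∀ (f : ℕ → ℕ) (x : ℕ), ∀ j < l, Function.update f l x j = f j := by
      intro f x j hj
      rw [Function.update_of_ne (by omega)]
    have hsTl : s l ≤ T l := hsT l (by omega)
    have hsT' : ∀ j < l, s j ≤ T j := fun j hj => hsT j (by omega)
    obtain ⟨ρ, hρ⟩ : ∃ ρ : ℝ, ρ = B.card * V / q := ⟨_, rfl⟩
    have hρ0 : 0 < ρ := by rw [hρ]; positivity
    obtain ⟨U, hU⟩ : ∃ U : ℕ, U = max (T l) ⌈X2 / ρ⌉₊ := ⟨_, rfl⟩
    have hTU : T l ≤ U := by rw [hU]; exact le_max_left _ _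
    have heU : Real.exp (-(ρ * U)) ≤ ε' := by
      refine le_trans (Real.exp_le_exp.2 (neg_le_neg ?_)) hX2
      have h1 : (X2 : ℝ) / ρ ≤ U := (Nat.le_ceil _).trans (by
        rw [hU]
        exact_mod_cast le_max_right _ _)
      rw [div_le_iff₀ hρ0] at h1
      linarith
    have hb' : ∀ β ∈ B, ∀ j < l + 1, Function.update b l β j ∈ B := by
      intro β hβ j hj
      rcases Nat.lt_or_ge j l with h | h
      · rw [hup b β j h]
        exact hb j (by omega)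
      · have : j = l := by omega
        rw [this, Function.update_self]
        exact hβ
    have hst' : ∀ σ τ : ℕ, σ ≤ τ → ∀ j < l + 1, Function.update s l σ j ≤ Function.update T l τ j := by
      intro σ τ hστ j hj
      rcases Nat.lt_or_ge j l with h | h
      · rw [hup s σ j h, hup T τ j h]
        exact hsT j (by omega)
      · have : j = l := by omega
        rw [this, Function.update_self, Function.update_self]
        exact hστ
    obtain ⟨G, hG⟩ : ∃ G : ℝ, G = gp V q l B s T := ⟨_, rfl⟩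
    have hG0 : 0 ≤ G := by rw [hG]; exact gp_nonneg V q l B s T hV0.le hsT'
    have hG1 : G ≤ 1 := by rw [hG]; exact gp_le_one V q l B s T hV0.le hq hB0 hsT'
    have hgp : ∀ σ τ : ℕ, gp V q (l + 1) B (Function.update s l σ) (Function.update T l τ) =
        G * (Real.exp (-(ρ * σ)) - Real.exp (-(ρ * τ))) := by
      intro σ τ
      rw [gp_succ V q l B s T _ _ (hup s σ) (hup T τ), ← hG, ← hρ, Function.update_self, Function.update_self]
    have hgp0 : gp V q (l + 1) B s T = G * (Real.exp (-(ρ * s l)) - Real.exp (-(ρ * T l))) := by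
      rw [gp_succ V q l B s T _ _ (fun _ _ => rfl) (fun _ _ => rfl), ← hG, ← hρ]
    have n0 := hP1 Q Us E Y y hok1 Z c0 hc0 b s T (fun j hj => hb j (by omega)) hsT'
    have n1 := hP2 Q Us E Y y hok2 Z c0 hc0 b _ _ hb (hst' 0 (s l) (Nat.zero_le _))
    have n2 := hP2 Q Us E Y y hok2 Z c0 hc0 b _ _ hb (hst' (T l) U hTU)
    have n3 : ∀ β ∈ B.erase (b l), _ := fun β hβ =>
      hP2 Q Us E Y y hok2 Z c0 hc0 _ _ _ (hb' β (Finset.mem_of_mem_erase hβ)) (hst' 0 U (Nat.zero_le _))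
    rw [← hV] at n0 n1 n2 ⊢
    rw [hgp] at n1 n2
    rw [← hG] at n0
    rw [hgp0]
    have hsplit : (cntG (GT Q q y) q (l + 1) B c0 b s T Z Y : ℝ) +
        cntG (GT Q q y) q (l + 1) B c0 b (Function.update s l 0) (Function.update T l (s l)) Z Y +
        cntG (GT Q q y) q (l + 1) B c0 b (Function.update s l (T l)) (Function.update T l U) Z Y +
        ((∑ β ∈ B.erase (b l), cntG (GT Q q y) q (l + 1) B c0 (Function.update b l β) (Function.update s l 0)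
          (Function.update T l U) Z Y : ℕ) : ℝ) ≤ (cntG (GT Q q y) q l B c0 b s T Z Y : ℝ) := by
      exact_mod_cast cntG_split (GT Q q y) q l B c0 b s T Z Y U hsTl
    have hexp0 : Real.exp (-(ρ * ((0 : ℕ) : ℝ))) = 1 := by simp
    rw [hexp0] at n1
    have n3' : ((B.card : ℝ) - 1) * (Y * V / q * (G * (1 - Real.exp (-(ρ * U))) / B.card ^ (l + 1) - ε')) ≤
        ((∑ β ∈ B.erase (b l), cntG (GT Q q y) q (l + 1) B c0 (Function.update b l β) (Function.update s l 0)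
          (Function.update T l U) Z Y : ℕ) : ℝ) := by
      have h1 : ((B.card : ℝ) - 1) = ((B.erase (b l)).card : ℝ) := by
        rw [Finset.card_erase_of_mem (hb l (by omega)), Nat.cast_sub hB0, Nat.cast_one]
      rw [h1, ← nsmul_eq_mul, ← Finset.sum_const, Nat.cast_sum]
      apply Finset.sum_le_sum
      intro β hβ
      have h2 := n3 β hβ
      rw [← hV, hgp, hexp0] at h2
      exact h2
    have := alg_up (Y * V / q) G B.card (Real.exp (-(ρ * s l))) (Real.exp (-(ρ * T l)))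
      (Real.exp (-(ρ * U))) ε' l (cntG (GT Q q y) q (l + 1) B c0 b s T Z Y) _ _ _ _ (by positivity) hG1 hR1 heU
      (Real.exp_pos _).le n0 n1 n2 n3' hsplit
    rw [hε'2] at this
    exact this

open Classical in
/-- **The joint law** of `l` consecutive gaps and residues. -/
theorem runsT (c e q l : ℕ) (hc : 1 ≤ c) (hq : 1 ≤ q) (B : Finset ℕ) (hB : B ⊆ range q) (hB0 : 1 ≤ B.card)
    (ε : ℝ) (hε : 0 < ε) : ∃ P : ParT, ∀ (Q : ℕ → ℕ → ℕ → Prop)
      (U : ℕ → ℕ → Prop) (E : Finset ℕ) (Y y : ℕ), OkT P c e q Q U E Y y →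
      ∀ Z c0 : ℕ, c0 ∈ B → ∀ b s T : ℕ → ℕ, (∀ j < l, b j ∈ B) → (∀ j < l, s j ≤ T j) →
        |(cntG (GT Q q y) q l B c0 b s T Z Y : ℝ) - Y * Vq (Q 0) y / q * (gp (Vq (Q 0) y) q l B s T / B.card ^ l)| ≤
          ε * (Y * Vq (Q 0) y / q) := by
  have h0 : 0 < min ε 1 := by positivity
  obtain ⟨P1, hP1⟩ := runs_lowT c e q l hc hq B hB hB0 (min ε 1) h0 (min_le_right _ _)
  obtain ⟨P2, hP2⟩ := runs_upT c e q l hc hq B hB hB0 (min ε 1) h0 (min_le_right _ _)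
  obtain ⟨P, _, hP⟩ := ParT.combine P1 P2
  refine ⟨P, ?_⟩
  intro Q Us E Y y hok Z c0 hc0 b s T hb hsT
  obtain ⟨hok1, hok2⟩ := hP c e q Q Us E Y y hok
  have h1 := hP1 Q Us E Y y hok1 Z c0 hc0 b s T hb hsT
  have h2 := hP2 Q Us E Y y hok2 Z c0 hc0 b s T hb hsT
  have hV0 : 0 < Vq (Q 0) y := Vq_pos (Q 0) hok.adm y
  have h3 : min ε 1 * (Y * Vq (Q 0) y / q) ≤ ε * (Y * Vq (Q 0) y / q) :=
    mul_le_mul_of_nonneg_right (min_le_left _ _) (by positivity)
  rw [mul_sub] at h1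
  rw [mul_add] at h2
  rw [abs_le]
  constructor <;> linarith

end Pool.Agent.U98.TY
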