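import Pool.Agent.U98.TY.A6

set_option autoImplicit false

/-!
# Families of patterns of the same size

The pattern of the type `i` is the set `D i` of `k` shifts; `m` has the type `i` if ... all `m + h`, `h ∈ D i`, are
free of small prime factors.
-/

namespace Pool.Agent.U98.TY

open Finset Filter Pool.Agent.H373R2.T7 Pool.Agent.W123.RP Pool.Agent.W123.RU Pool.Agent.TH464.PO

/-- a family of patterns of `k` elements `≤ M`, distinct modulo all primes which do not divide `q` -/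
structure Fam (k M q : ℕ) (D : ℕ → Finset ℕ) : Prop where
  card : ∀ i, (D i).card = k
  le : ∀ i, ∀ h ∈ D i, h ≤ M
  zero : ∀ i, 0 ∈ D i
  inj : ∀ i, ∀ h ∈ D i, ∀ h' ∈ D i, h < h' → ∀ p : ℕ, p.Prime → p ∣ h' - h → p ∣ q
  adm : ∀ p : ℕ, p.Prime → ¬ p ∣ q → k < p

/-- the condition of the type `i` at the primes which do not divide `q` -/
def QD (q : ℕ) (D : ℕ → Finset ℕ) (i p m : ℕ) : Prop := ¬ p ∣ q ∧ ∃ h ∈ D i, p ∣ m + h

/-- the union of the conditions -/
def UD (q M p m : ℕ) : Prop := ¬ p ∣ q ∧ ∃ h ≤ M, p ∣ m + h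

/-! ### the number of classes -/

/-- the class of `-h` -/
def ng (p h : ℕ) : ℕ := (p - h % p) % p

lemma ng_dvd (p h : ℕ) (hp : 0 < p) : p ∣ ng p h + h := by
  apply Nat.dvd_of_mod_eq_zero
  unfold ng
  rw [Nat.mod_add_mod, Nat.add_mod (p - h % p) h, Nat.mod_add_mod]
  have h1 : p - h % p + h % p = p := Nat.sub_add_cancel (Nat.mod_lt _ hp).le
  rw [h1, Nat.mod_self]

lemma eq_ng (p h r : ℕ) (hp : 0 < p) (hr : r < p) (hd : p ∣ r + h) : r = ng p h := by
  have h1 := ng_dvd p h hp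
  have h2 : r + h ≡ ng p h + h [MOD p] :=
    ((Nat.modEq_zero_iff_dvd.2 hd).trans (Nat.modEq_zero_iff_dvd.2 h1).symm)
  have h3 : r ≡ ng p h [MOD p] := Nat.ModEq.add_right_cancel' h h2
  exact Nat.ModEq.eq_of_lt_of_lt h3 hr (Nat.mod_lt _ hp)

open Classical in
lemma pat_image (S : Finset ℕ) (p : ℕ) (hp : 0 < p) :
    (range p).filter (fun r => ∃ h ∈ S, p ∣ r + h) = S.image (ng p) := by
  ext r
  rw [mem_filter, mem_range, mem_image]
  constructor
  · rintro ⟨hr, h, hh, hd⟩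
    exact ⟨h, hh, (eq_ng p h r hp hr hd).symm⟩
  · rintro ⟨h, hh, rfl⟩
    exact ⟨Nat.mod_lt _ hp, h, hh, ng_dvd p h hp⟩

open Classical in
lemma pat_le (S : Finset ℕ) (p : ℕ) (hp : 0 < p) :
    ((range p).filter (fun r => ∃ h ∈ S, p ∣ r + h)).card ≤ S.card := by
  rw [pat_image S p hp]
  exact card_image_le

open Classical in
lemma pat_eq (S : Finset ℕ) (p : ℕ) (hp : 0 < p) (hinj : ∀ h ∈ S, ∀ h' ∈ S, h < h' → ¬ p ∣ h' - h) :
    ((range p).filter (fun r => ∃ h ∈ S, p ∣ r + h)).card = S.card := by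
  rw [pat_image S p hp]
  apply card_image_of_injOn
  intro h hh h' hh' he
  have key : ∀ h ∈ S, ∀ h' ∈ S, ng p h = ng p h' → ¬ h < h' := by
    intro h hh h' hh' he hlt
    apply hinj h hh h' hh' hlt
    have h1 := ng_dvd p h hp
    have h2 := ng_dvd p h' hp
    rw [← he] at h2
    have h3 := Nat.dvd_sub h2 h1
    have h4 : ng p h + h' - (ng p h + h) = h' - h := by omega
    rwa [h4] at h3
  have k1 := key h (Finset.mem_coe.1 hh) h' (Finset.mem_coe.1 hh') he
  have k2 := key h' (Finset.mem_coe.1 hh') h (Finset.mem_coe.1 hh) he.symm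
  omega

variable {k M q : ℕ} {D : ℕ → Finset ℕ}

lemma nuB_QD_dvd (q : ℕ) (D : ℕ → Finset ℕ) (i p : ℕ) (h : p ∣ q) : nuB (QD q D i) p = 0 := by
  classical
  unfold nuB
  rw [card_eq_zero, filter_eq_empty_iff]
  intro m _ hm
  exact hm.1 h

lemma nuB_QD (hD : Fam k M q D) (i p : ℕ) (hp : p.Prime) (h : ¬ p ∣ q) : nuB (QD q D i) p = k := by
  classical
  rw [← hD.card i, ← pat_eq (D i) p hp.pos (fun a ha b hb hab hd => h (hD.inj i a ha b hb hab p hp hd))]
  unfold nuB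
  congr 1
  apply filter_congr
  intro m _
  unfold QD
  exact ⟨fun h1 => h1.2, fun h1 => ⟨h, h1⟩⟩

lemma nuB_QD_le (hD : Fam k M q D) (i p : ℕ) (hp : p.Prime) : nuB (QD q D i) p ≤ k := by
  by_cases h : p ∣ q
  · rw [nuB_QD_dvd q D i p h]
    exact Nat.zero_le _
  · exact (nuB_QD hD i p hp h).le

lemma k_le (hD : Fam k M q D) : k ≤ M + 1 := by
  have h1 : (D 0) ⊆ range (M + 1) := by
    intro h hh
    rw [mem_range]
    have := hD.le 0 h hh
    omega
  have h2 := card_le_card h1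
  rw [hD.card 0, card_range] at h2
  exact h2

lemma dvd_mod_iff (p n h : ℕ) : p ∣ n + h ↔ p ∣ n % p + h := by
  rw [Nat.dvd_iff_mod_eq_zero, Nat.dvd_iff_mod_eq_zero, Nat.mod_add_mod]

lemma ts_fam (hD : Fam k M q D) : TS (QD q D) (UD q M) (M + 1) := by
  classical
  constructor
  · intro i
    constructor
    · intro p n
      unfold QD
      apply and_congr_right
      intro _
      apply exists_congr
      intro h
      rw [dvd_mod_iff]
    · intro p hp
      exact (nuB_QD_le hD i p hp).trans (k_le hD)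
  · constructor
    · intro p n
      unfold UD
      apply and_congr_right
      intro _
      apply exists_congr
      intro h
      rw [dvd_mod_iff]
    · intro p hp
      have h1 := pat_le (range (M + 1)) p hp.pos
      rw [card_range] at h1
      refine le_trans (card_le_card ?_) h1
      intro r hr
      rw [mem_filter] at hr ⊢
      obtain ⟨hr1, _, h, hh, hd⟩ := hr
      exact ⟨hr1, h, mem_range.2 (by omega), hd⟩
  · rintro i p m ⟨h1, h, hh, hd⟩
    exact ⟨h1, h, hD.le i h hh, hd⟩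
  · intro i p hp
    by_cases h : p ∣ q
    · rw [nuB_QD_dvd q D i p h, nuB_QD_dvd q D 0 p h]
    · rw [nuB_QD hD i p hp h, nuB_QD hD 0 p hp h]

lemma adm_fam (hD : Fam k M q D) (p : ℕ) (hp : p.Prime) : nuB (QD q D 0) p < p := by
  by_cases h : p ∣ q
  · rw [nuB_QD_dvd q D 0 p h]
    exact hp.pos
  · rw [nuB_QD hD 0 p hp h]
    exact hD.adm p hp h

/-! ### close pairs -/

lemma nuB_P2_ge (hD : Fam k M q D) (i j t p : ℕ) (hp : p.Prime) : nuB (QD q D 0) p ≤ nuB (P2 (QD q D) i j t) p := by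
  classical
  rw [← (ts_fam hD).same i p hp]
  unfold nuB
  apply card_le_card
  intro r hr
  rw [mem_filter] at hr ⊢
  exact ⟨hr.1, Or.inl hr.2⟩

lemma nuB_P2 (hD : Fam k M q D) (i j t p : ℕ) (ht : 1 ≤ t) (htM : t ≤ M) (hp : p.Prime) (hpM : 2 * M < p)
    (hpq : ¬ p ∣ q) : k + 1 ≤ nuB (P2 (QD q D) i j t) p := by
  classical
  obtain ⟨S, hS⟩ : ∃ S, S = insert 0 ((D j).image (fun h => h + t)) := ⟨_, rfl⟩
  have hScard : S.card = k + 1 := by
    rw [hS, card_insert_of_notMem, card_image_of_injective _ (fun a b h => by simpa using h), hD.card j]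
    rw [mem_image]
    rintro ⟨h, _, hh⟩
    omega
  have hS2 : ∀ h ∈ S, h ≤ 2 * M := by
    intro h hh
    rw [hS, mem_insert, mem_image] at hh
    rcases hh with rfl | ⟨h', hh', rfl⟩
    · omega
    · have := hD.le j h' hh'
      omega
  have h1 := pat_eq S p hp.pos (fun a _ b hb hab hd => by
    have h2 := Nat.le_of_dvd (by omega) hd
    have h3 := hS2 b hb
    omega)
  rw [← hScard, ← h1]
  unfold nuB
  apply card_le_card
  intro r hr
  rw [mem_filter] at hr ⊢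
  obtain ⟨hr1, h, hh, hd⟩ := hr
  refine ⟨hr1, ?_⟩
  rw [hS, mem_insert, mem_image] at hh
  rcases hh with rfl | ⟨h', hh', rfl⟩
  · exact Or.inl ⟨hpq, 0, hD.zero i, hd⟩
  · right
    refine ⟨hpq, h', hh', ?_⟩
    rw [show r + t + h' = r + (h' + t) by ring]
    exact hd

/-- the product over the primes above `p1` tends to zero -/
lemma R1_small (p1 : ℕ) (η : ℝ) (hη : 0 < η) : ∀ᶠ y : ℕ in atTop,
    ∏ p ∈ (pz y).filter (fun p => p1 < p), (1 - 1 / (p : ℝ)) ≤ η := by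
  obtain ⟨c, C, hc, hC, hV⟩ := Vz_bounds
  obtain ⟨M1, hM1⟩ : ∃ M1 : ℝ, M1 = ∏ p ∈ pz p1, (p : ℝ) := ⟨_, rfl⟩
  have hM10 : 0 < M1 := by
    rw [hM1]
    apply Finset.prod_pos
    intro p hp
    exact_mod_cast (mem_pz.1 hp).2.pos
  have hlog : Tendsto (fun y : ℕ => Real.log (y : ℝ)) atTop atTop :=
    Real.tendsto_log_atTop.comp tendsto_natCast_atTop_atTop
  filter_upwards [eventually_ge_atTop (max p1 2), hlog.eventually_ge_atTop (M1 * C / η),
    hlog.eventually_gt_atTop 0] with y hy hL hL0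
  have hyp : p1 ≤ y := (le_max_left _ _).trans hy
  have hy2 : 2 ≤ y := (le_max_right _ _).trans hy
  have h1 := (hV y hy2).2
  have hnn : ∀ p ∈ pz y, 0 ≤ 1 - 1 / (p : ℝ) := by
    intro p hp
    have hp1 : (1 : ℝ) ≤ p := by exact_mod_cast (mem_pz.1 hp).2.one_lt.le
    rw [sub_nonneg, div_le_one (by linarith)]
    exact hp1
  have hsplit : Vz y = (∏ p ∈ pz p1, (1 - 1 / (p : ℝ))) *
      ∏ p ∈ (pz y).filter (fun p => p1 < p), (1 - 1 / (p : ℝ)) := by
    unfold Vz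
    rw [← Finset.prod_filter_mul_prod_filter_not (pz y) (fun p => p ≤ p1)]
    congr 1
    · apply Finset.prod_congr _ (fun _ _ => rfl)
      ext p
      rw [mem_filter, mem_pz, mem_pz]
      constructor
      · rintro ⟨⟨h1, h2⟩, h3⟩
        exact ⟨h3, h2⟩
      · rintro ⟨h1, h2⟩
        exact ⟨⟨h1.trans hyp, h2⟩, h1⟩
    · apply Finset.prod_congr _ (fun _ _ => rfl)
      ext p
      rw [mem_filter, mem_filter, not_le]
  obtain ⟨R, hR⟩ : ∃ R, R = ∏ p ∈ (pz y).filter (fun p => p1 < p), (1 - 1 / (p : ℝ)) := ⟨_, rfl⟩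
  have hR0 : 0 ≤ R := by
    rw [hR]
    exact Finset.prod_nonneg fun p hp => hnn p (mem_filter.1 hp).1
  rw [← hR] at hsplit ⊢
  have h2 : 1 ≤ M1 * ∏ p ∈ pz p1, (1 - 1 / (p : ℝ)) := by
    rw [hM1, ← Finset.prod_mul_distrib]
    apply Finset.one_le_prod
    intro p hp
    have hp2 : (2 : ℝ) ≤ p := by exact_mod_cast (mem_pz.1 hp).2.two_le
    have : (p : ℝ) * (1 - 1 / p) = p - 1 := by field_simp
    rw [this]
    linarith
  have h3 : R ≤ M1 * Vz y := by
    rw [hsplit, ← mul_assoc]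
    exact le_mul_of_one_le_left hR0 h2
  have h4 : M1 * Vz y ≤ M1 * (C / Real.log y) := mul_le_mul_of_nonneg_left h1 hM10.le
  have h5 : M1 * (C / Real.log y) ≤ η := by
    rw [← mul_div_assoc, div_le_iff₀ hL0]
    rw [div_le_iff₀ hη] at hL
    linarith
  linarith

lemma Vq_P2 (hD : Fam k M q D) (hq : 1 ≤ q) (i j t y : ℕ) (ht : 1 ≤ t) (htM : t ≤ M) :
    Vq (P2 (QD q D) i j t) y ≤
      (∏ p ∈ (pz y).filter (fun p => max (2 * M) q < p), (1 - 1 / (p : ℝ))) * Vq (QD q D 0) y := by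
  have h1 : (∏ p ∈ (pz y).filter (fun p => max (2 * M) q < p), (1 - 1 / (p : ℝ))) * Vq (QD q D 0) y =
      ∏ p ∈ pz y, ((if max (2 * M) q < p then (1 - 1 / (p : ℝ)) else 1) *
        (1 - (nuB (QD q D 0) p : ℝ) / p)) := by
    rw [Finset.prod_mul_distrib, Finset.prod_filter]
    rfl
  rw [h1]
  unfold Vq
  apply Finset.prod_le_prod
  · intro p hp
    exact one_sub_nonneg _ p (mem_pz.1 hp).2
  · intro p hp
    have hpp := (mem_pz.1 hp).2
    have hp0 : (0 : ℝ) < p := by exact_mod_cast hpp.pos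
    have hp1 : (1 : ℝ) ≤ p := by exact_mod_cast hpp.one_lt.le
    have h2 : (nuB (QD q D 0) p : ℝ) ≤ nuB (P2 (QD q D) i j t) p := by
      exact_mod_cast nuB_P2_ge hD i j t p hpp
    split_ifs with h
    · have hpq : ¬ p ∣ q := fun hd => by
        have := Nat.le_of_dvd hq hd
        omega
      have h3 : ((k + 1 : ℕ) : ℝ) ≤ nuB (P2 (QD q D) i j t) p := by
        exact_mod_cast nuB_P2 hD i j t p ht htM hpp (by omega) hpq
      rw [nuB_QD hD 0 p hpp hpq]
      have h4 : 1 - (nuB (P2 (QD q D) i j t) p : ℝ) / p ≤ 1 - ((k + 1 : ℕ) : ℝ) / p := by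
        apply sub_le_sub_left
        exact div_le_div_of_nonneg_right h3 hp0.le
      refine h4.trans ?_
      have h5 : (1 - 1 / (p : ℝ)) * (1 - (k : ℝ) / p) = 1 - ((k + 1 : ℕ) : ℝ) / p + k / (p : ℝ) ^ 2 := by
        push_cast
        field_simp
        ring
      rw [h5]
      have : 0 ≤ (k : ℝ) / (p : ℝ) ^ 2 := by positivity
      linarith
    · rw [one_mul]
      apply sub_le_sub_left
      exact div_le_div_of_nonneg_right h2 hp0.le

/-! ### collisions -/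

open Classical in
lemma coll_fam (q M T y t : ℕ) (hMT : M ≤ T) (ht : t ≤ T) (htM : M < t) :
    ((pz y).filter (fun p : ℕ => T < p ∧ CoG (UD q M) p t)).card ≤ 2 * M + 1 := by
  have hsub : (pz y).filter (fun p : ℕ => T < p ∧ CoG (UD q M) p t) ⊆
      (Icc (t - M) (t + M)).biUnion (fun v => (pz y).filter (fun p => T < p ∧ p ∣ v)) := by
    intro p hp
    rw [mem_filter] at hp
    obtain ⟨hp1, hp2, m, ⟨_, h, hh, hd⟩, _, h', hh', hd'⟩ := hp
    rw [mem_biUnion]
    refine ⟨t + h' - h, ?_, ?_⟩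
    · rw [mem_Icc]
      omega
    · rw [mem_filter]
      refine ⟨hp1, hp2, ?_⟩
      have h3 := Nat.dvd_sub hd' hd
      have h4 : m + t + h' - (m + h) = t + h' - h := by omega
      rwa [h4] at h3
  refine (card_le_card hsub).trans ?_
  refine (Finset.card_biUnion_le_card_mul _ _ 1 ?_).trans ?_
  · intro v hv
    rw [mem_Icc] at hv
    rw [Finset.card_le_one]
    intro a ha b hb
    rw [mem_filter, mem_pz] at ha hb
    by_contra hab
    have hcop : Nat.Coprime a b := (Nat.coprime_primes ha.1.2 hb.1.2).2 hab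
    have h1 : a * b ∣ v := hcop.mul_dvd_of_dvd_of_dvd ha.2.2 hb.2.2
    have h2 := Nat.le_of_dvd (by omega) h1
    have h3 : (T + 1) * (T + 1) ≤ a * b := Nat.mul_le_mul ha.2.1 hb.2.1
    nlinarith
  · rw [Nat.card_Icc]
    omega

open Classical in
/-- **The conditions are satisfied for families of patterns.** -/
theorem ok_fam (hk : 1 ≤ k) (hq : 1 ≤ q) (hD : Fam k M q D) (P : ParT) :
    ∃ K y1 : ℕ, ∀ y : ℕ, y1 ≤ y → ∀ Y : ℕ, y ^ K ≤ Y →
      OkT P (M + 1) M q (QD q D) (UD q M) (Icc 1 M) Y y := by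
  obtain ⟨c, hc⟩ : ∃ c, c = M + 1 := ⟨_, rfl⟩
  have hts := ts_fam hD
  obtain ⟨v, hv, hVlow⟩ := V_lower_unif c
  obtain ⟨Cv, hCv, hVup⟩ := Vq_upper (QD q D 0) 1 q (fun p hp hpq => by
    rw [nuB_QD hD 0 p hp (fun hd => by
      have := Nat.le_of_dvd hq hd
      omega)]
    exact hk)
  have hκ := P.hκ
  have hx1 := P.hx1
  have hη := P.hη
  have hlog : Tendsto (fun y : ℕ => Real.log (y : ℝ)) atTop atTop :=
    Real.tendsto_log_atTop.comp tendsto_natCast_atTop_atTop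
  obtain ⟨T1, hT1⟩ : ∃ T1 : ℕ, (2 * M + 1 : ℝ) / P.η ≤ T1 := exists_nat_ge _
  obtain ⟨T2, hT2⟩ : ∃ T2 : ℕ, T2 = P.T0 + T1 + M + 1 := ⟨_, rfl⟩
  have hev := (((hlog.eventually_ge_atTop (Cv / P.κ)).and (hlog.eventually_ge_atTop (T2 * Cv / P.κ))).and
    ((eventually_ge_atTop (P.y0 + 2)).and (R1_small (max (2 * M) q) P.η2 P.hη2))).and
    (((logpow_le c (1 / (P.κ * v)) (by positivity)).and
    (logpow_le (2 * c) (P.x1 / (P.κ * v ^ 2)) (by positivity))).and
    ((logpow_le (c * P.R0) ((P.x1 / v) ^ P.R0) (by positivity)).and (hlog.eventually_gt_atTop 0)))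
  obtain ⟨y1, hy1⟩ := eventually_atTop.1 hev
  refine ⟨P.K0 + 2, y1, ?_⟩
  intro y hy Y hY
  obtain ⟨⟨⟨g1, g2⟩, g3, g4⟩, ⟨g5, g6⟩, g7, g8⟩ := hy1 y hy
  have hy2 : 2 ≤ y := by omega
  have hyr : (2 : ℝ) ≤ y := by exact_mod_cast hy2
  obtain ⟨L, hL⟩ : ∃ L : ℝ, L = Real.log y := ⟨_, rfl⟩
  rw [← hL] at g1 g2 g5 g6 g7 g8
  have hlow := hVlow (QD q D 0) (by rw [hc]; exact hts.per 0) (adm_fam hD) y hy2
  have hup := hVup y hy2
  have hV0 : 0 < Vq (QD q D 0) y := Vq_pos (QD q D 0) (adm_fam hD) y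
  obtain ⟨V, hV⟩ : ∃ V, V = Vq (QD q D 0) y := ⟨_, rfl⟩
  rw [← hL, ← hV] at hlow hup
  rw [← hV] at hV0
  rw [pow_one] at hup
  have hyY : y ^ 2 ≤ Y := (Nat.pow_le_pow_right (by omega) (by omega)).trans hY
  have hyY2 : (y : ℝ) ^ 2 ≤ Y := by exact_mod_cast hyY
  have hY0 : (0 : ℝ) < Y := by nlinarith
  have hyY1 : (y : ℝ) ≤ Y := by nlinarith
  have hLc : 0 < L ^ c := pow_pos g8 c
  have hVL : L * V ≤ Cv := by
    rw [le_div_iff₀ g8] at hup
    linarith
  have hvL : v ≤ V * L ^ c := by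
    rw [div_le_iff₀ hLc] at hlow
    exact hlow
  refine ⟨by rw [← hc] at hts ⊢; exact hts, adm_fam hD, ?_, by rw [Nat.card_Icc]; omega, by omega,
    (Nat.pow_le_pow_right (by omega) (by omega)).trans hY, ?_, ?_, ?_, ?_, ?_⟩
  · rintro p _ hpq i m ⟨h1, _⟩
    exact h1 hpq
  · rw [← hV]
    rw [div_le_iff₀ hκ] at g1
    by_contra hcon
    rw [not_le] at hcon
    nlinarith
  · -- square root
    rw [← hV]
    have h1 : 1 ≤ P.κ * y * V := by
      rw [div_mul_eq_mul_div, one_mul, div_le_iff₀ (by positivity)] at g5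
      have h2 : L ^ c * 1 ≤ L ^ c * (P.κ * y * V) := by
        calc L ^ c * 1 ≤ y * (P.κ * v) := by linarith
          _ ≤ y * (P.κ * (V * L ^ c)) := by gcongr
          _ = _ := by ring
      exact le_of_mul_le_mul_left h2 hLc
    have h3 : (y : ℝ) ≤ √(Y : ℝ) := Real.le_sqrt_of_sq_le hyY2
    have h4 : √(Y : ℝ) * √(Y : ℝ) = Y := Real.mul_self_sqrt hY0.le
    have hs0 := Real.sqrt_nonneg (Y : ℝ)
    calc √(Y : ℝ) = √(Y : ℝ) * 1 := (mul_one _).symm
      _ ≤ √(Y : ℝ) * (P.κ * y * V) := mul_le_mul_of_nonneg_left h1 hs0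
      _ ≤ √(Y : ℝ) * (P.κ * √(Y : ℝ) * V) := by gcongr
      _ = P.κ * ((√(Y : ℝ) * √(Y : ℝ)) * V) := by ring
      _ = _ := by rw [h4]
  · rw [← hV, div_le_iff₀ hV0]
    rw [div_mul_eq_mul_div, div_le_iff₀ (by positivity)] at g6
    have h2 : L ^ (2 * c) * P.x1 ≤ L ^ (2 * c) * (P.κ * (Y * V) * V) := by
      calc L ^ (2 * c) * P.x1 ≤ y * (P.κ * v ^ 2) := by linarith
        _ ≤ Y * (P.κ * (V * L ^ c) ^ 2) := by gcongr
        _ = L ^ (2 * c) * (P.κ * (Y * V) * V) := by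
          rw [mul_comm 2 c, pow_mul]
          ring
    exact le_of_mul_le_mul_left h2 (by positivity)
  · intro T h1 h2
    rw [← hV] at h1 h2
    have hTT : T2 ≤ T := by
      rw [div_le_iff₀ hκ] at g2
      have h3 : (T2 : ℝ) * Cv ≤ T * Cv := by
        calc (T2 : ℝ) * Cv ≤ L * P.κ := g2
          _ ≤ L * (T * V) := mul_le_mul_of_nonneg_left h1 g8.le
          _ = T * (L * V) := by ring
          _ ≤ T * Cv := mul_le_mul_of_nonneg_left hVL (Nat.cast_nonneg _)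
      have h4 := le_of_mul_le_mul_right h3 hCv
      exact_mod_cast h4
    refine ⟨by omega, ?_, ?_⟩
    · have h3 : (T : ℝ) ≤ P.x1 / v * L ^ c := by
        rw [div_mul_eq_mul_div, le_div_iff₀ hv]
        calc (T : ℝ) * v ≤ T * (V * L ^ c) := by gcongr
          _ = T * V * L ^ c := by ring
          _ ≤ _ := by gcongr
      have h4 : (T : ℝ) ^ P.R0 ≤ Y := by
        calc (T : ℝ) ^ P.R0 ≤ (P.x1 / v * L ^ c) ^ P.R0 := pow_le_pow_left₀ (Nat.cast_nonneg _) h3 _
          _ = (P.x1 / v) ^ P.R0 * L ^ (c * P.R0) := by rw [mul_pow, ← pow_mul]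
          _ ≤ y := g7
          _ ≤ Y := hyY1
      exact_mod_cast h4
    · intro t ht htE
      rw [mem_Icc] at ht htE
      have h3 : ((((pz y).filter (fun p : ℕ => T < p ∧ CoG (UD q M) p t)).card : ℕ) : ℝ) ≤ 2 * M + 1 := by
        exact_mod_cast coll_fam q M T y t (by omega) ht.2 (by omega)
      refine h3.trans ?_
      rw [div_le_iff₀ hη] at hT1
      have h4 : (T1 : ℝ) ≤ T := by exact_mod_cast (by omega : T1 ≤ T)
      calc (2 * M + 1 : ℝ) ≤ T1 * P.η := hT1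
        _ ≤ T * P.η := mul_le_mul_of_nonneg_right h4 hη.le
        _ = _ := mul_comm _ _
  · intro t ht ht1 i j
    rw [mem_Icc] at ht
    exact (Vq_P2 hD hq i j t y ht1 ht.2).trans (mul_le_mul_of_nonneg_right g4 (by rw [← hV]; exact hV0.le))

end Pool.Agent.U98.TY
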